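import Pool.Agent.GFL.LocA

/-!
GFL module LOC, second part (MP_896029_ag): an inertia element fixes the elements `T θ = R θ * ∏ R θ'`.

Odd `n`: it lies in the decomposition group and fixes the roots, `loc_ram`. Even `n`: by `classes` it fixes the square roots of
`(x - θ) (x - θ')`, hence the `R θ`.
-/

set_option autoImplicit false

namespace Pool.Agent.GFL

open Polynomial Pool.Agent.Helper36 Pool.Agent.Helper19.Sec Pool.Agent.WMS Pool.Agent.SCT
  IsLocalRing

section

variable {k K Ω : Type*} [Field k] [Field K] [Field Ω] [Algebra k K] [Algebra K Ω] [Algebra k Ω]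
  [IsScalarTower k K Ω] [CharZero k] [Algebra.IsAlgebraic K Ω] [IsAlgClosed Ω]

/-- the elements `R θ` are fixed if the square roots are -/
private theorem fix_R (s : SectionData k K Ω) {Γ₀ : Type*} [LinearOrderedCommGroupWithZero Γ₀]
    {v : Valuation (algebraicClosure k Ω) Γ₀}
    {φ τ : algebraicClosure k Ω ≃ₐ[k] algebraicClosure k Ω} {q : ℕ}
    (hl : IsLoc v (φ : algebraicClosure k Ω →+* algebraicClosure k Ω)
      (τ : algebraicClosure k Ω →+* algebraicClosure k Ω) q)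
    (f : k[X]) (hf : f.Separable) (c : k)
    (hc : c ≠ 0) (x y : K) (hx : Transcendental k x)
    (hxy : algebraMap k K c * y ^ 2 = aeval x f)
    (hsep : ∀ θ θ' : algebraicClosure k Ω, aeval θ f = 0 → aeval θ' f = 0 → θ ≠ θ' →
      v (θ - θ') = 1)
    (θ₀ : algebraicClosure k Ω) (hθ₀ : aeval θ₀ f = 0) (hτθ₀ : τ θ₀ = θ₀)
    (hpos : ∀ θ θ' : algebraicClosure k Ω, aeval θ f = 0 → aeval θ' f = 0 → ∀ r : univCover k K Ω,
        r ^ 2 = (algebraMap K (univCover k K Ω) x - incl k K Ω θ) *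
          (algebraMap K (univCover k K Ω) x - incl k K Ω θ') → s.act τ r = r)
    (θ : algebraicClosure k Ω) (hθ : aeval θ f = 0) (hne : θ ≠ θ₀) (hτθ : τ θ = θ)
    (R : univCover k K Ω) (hR : IsR x θ₀ θ R) : s.act τ R = R := by
  obtain ⟨r, -, hr, -⟩ := exists_sqrt f hf c hc x y hx hxy ⊥ (bot_unram (k := k)).1 bot_unram.2
    θ₀ θ hθ₀ hθ
  set xM : univCover k K Ω := algebraMap K (univCover k K Ω) x with hxM
  have hx0 := xsub_ne x hx θ₀
  have hx1 := xsub_ne x hx θ
  rw [← hxM] at hx0 hx1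
  have hd : θ - θ₀ ≠ 0 := sub_ne_zero.mpr hne
  have hdι : incl k K Ω (θ - θ₀) ≠ 0 := by rwa [_root_.map_ne_zero]
  obtain ⟨κ, hκ⟩ := IsAlgClosed.exists_pow_nat_eq (-(θ - θ₀)⁻¹) (n := 2) (by norm_num)
  have hκ0 : κ ≠ 0 := by
    rintro rfl
    rw [zero_pow (by norm_num)] at hκ
    exact (neg_ne_zero.mpr (inv_ne_zero hd)) hκ.symm
  have hvκ : v κ = 1 := by
    have h6 : v κ ^ 2 = 1 := by
      rw [← map_pow, hκ, Valuation.map_neg, map_inv₀, hsep θ θ₀ hθ hθ₀ hne, inv_one]
    exact (pow_eq_one_iff_of_nonneg zero_le (by norm_num)).mp h6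
  have hτκ : τ κ = κ := by
    refine hl.fix_root 1 hvκ ?_
    show τ (κ ^ 2 ^ 1) = κ ^ 2 ^ 1
    rw [pow_one, hκ, map_neg, map_inv₀, map_sub, hτθ, hτθ₀]
  have h3 : (incl k K Ω κ * r / (xM - incl k K Ω θ₀)) ^ 2 = R ^ 2 := by
    have hR' : R ^ 2 = (xM - incl k K Ω θ₀)⁻¹ - incl k K Ω ((θ - θ₀)⁻¹) := hR
    have h4 : incl k K Ω ((θ - θ₀)⁻¹) = (incl k K Ω (θ - θ₀))⁻¹ := map_inv₀ _ _
    have h5 : incl k K Ω θ = incl k K Ω θ₀ + incl k K Ω (θ - θ₀) := by
      rw [← map_add]; congr 1; ring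
    rw [hR', div_pow, mul_pow, hr, ← map_pow, hκ, map_neg, h4]
    rw [h5] at hx1 ⊢
    field_simp
    ring
  have h8 : s.act τ (incl k K Ω κ * r / (xM - incl k K Ω θ₀)) =
      incl k K Ω κ * r / (xM - incl k K Ω θ₀) := by
    rw [map_div₀, map_mul, map_sub, act_incl, act_incl, hτκ, hτθ₀, hpos θ₀ θ hθ₀ hθ r hr]
    have h7 : s.act τ xM = xM := act_alg s τ x
    rw [h7]
  rcases sq_eq_sq_iff_eq_or_eq_neg.mp h3 with h | h
  · rw [← h]
    exact h8
  · have h9 : R = -(incl k K Ω κ * r / (xM - incl k K Ω θ₀)) := by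
      rw [h, neg_neg]
    rw [h9, map_neg, h8]

end

section

variable {A k K Ω : Type*} [CommRing A] [IsDomain A] [IsDiscreteValuationRing A]
    [Finite (ResidueField A)] [Field k] [CharZero k] [Algebra A k]
    [IsFractionRing A k] [Field K] [Field Ω] [Algebra k K] [Algebra K Ω] [Algebra k Ω]
    [IsScalarTower k K Ω] [IsAlgClosed Ω] [Algebra.IsAlgebraic K Ω]

/-- even exponent: the square roots of `c / lead` are fixed -/
private theorem tau_c_even (V : ValuationSubring (algebraicClosure k Ω))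
    (hV : ∀ a : k, algebraMap k (algebraicClosure k Ω) a ∈ V ↔ ∃ b : A, algebraMap A k b = a)
    {φ τ : algebraicClosure k Ω ≃ₐ[k] algebraicClosure k Ω} {q : ℕ}
    (hl : IsLoc V.valuation (φ : algebraicClosure k Ω →+* algebraicClosure k Ω)
      (τ : algebraicClosure k Ω →+* algebraicClosure k Ω) q)
    (f : A[X]) (hlead : IsUnit f.leadingCoeff) (ϖ : A) (hϖ : Irreducible ϖ) (u : A)
    (hu : IsUnit u) (n : ℕ) (hn : Even n) (t : algebraicClosure k Ω)
    (ht : t ^ 2 = algebraMap k (algebraicClosure k Ω) (algebraMap A k ϖ))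
    (hτt : τ t = - t) (w : algebraicClosure k Ω)
    (hw : w ^ 2 = algebraMap k (algebraicClosure k Ω)
      (algebraMap A k (u * ϖ ^ n) / (f.map (algebraMap A k)).leadingCoeff)) : τ w = w := by
  have hinjk : Function.Injective (algebraMap A k) := IsFractionRing.injective A k
  have hleadk : (f.map (algebraMap A k)).leadingCoeff = algebraMap A k f.leadingCoeff :=
    leadingCoeff_map_of_injective hinjk f
  let jE : A →+* algebraicClosure k Ω :=
    (algebraMap k (algebraicClosure k Ω)).comp (algebraMap A k)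
  have hjinj : Function.Injective jE :=
    (algebraMap k (algebraicClosure k Ω)).injective.comp (IsFractionRing.injective A k)
  have ht0 : t ≠ 0 := by
    rintro rfl
    rw [zero_pow (by norm_num)] at ht
    exact hϖ.ne_zero (hjinj (ht.symm.trans (map_zero jE).symm))
  have hunit1 : ∀ a : A, IsUnit a → V.valuation (jE a) = 1 := val_unit V hV
  have h3 : w ^ 2 = jE u / jE f.leadingCoeff * (t ^ n) ^ 2 := by
    rw [hw, hleadk, map_div₀, ← pow_mul, mul_comm n 2, pow_mul, ht, map_mul, map_mul, map_pow,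
      map_pow]
    show _ = algebraMap k _ (algebraMap A k u) / algebraMap k _ (algebraMap A k f.leadingCoeff) *
      algebraMap k _ (algebraMap A k ϖ) ^ n
    ring
  have htn : t ^ n ≠ 0 := pow_ne_zero _ ht0
  have h4 : (w / t ^ n) ^ 2 = jE u / jE f.leadingCoeff := by
    rw [div_pow, h3, mul_div_assoc, div_self (pow_ne_zero 2 htn), mul_one]
  have h5 : V.valuation (w / t ^ n) = 1 := by
    have h6 : V.valuation (w / t ^ n) ^ 2 = 1 := by
      rw [← map_pow, h4, map_div₀, hunit1 u hu, hunit1 _ hlead, div_one]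
    exact (pow_eq_one_iff_of_nonneg zero_le (by norm_num)).mp h6
  have h7 : τ (w / t ^ n) = w / t ^ n := by
    refine hl.fix_root 1 h5 ?_
    show τ ((w / t ^ n) ^ 2 ^ 1) = (w / t ^ n) ^ 2 ^ 1
    rw [pow_one, h4, map_div₀]
    congr 1
    · exact τ.commutes _
    · exact τ.commutes _
  have h8 : w = w / t ^ n * t ^ n := by rw [div_mul_cancel₀ _ htn]
  rw [h8, map_mul, h7, map_pow, hτt, hn.neg_pow]

theorem loc_tau (h2 : IsUnit (2 : A)) (f : A[X]) (heven : Even f.natDegree)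
    (h6 : 6 ≤ f.natDegree) (hlead : IsUnit f.leadingCoeff)
    (hsep : (f.map (residue A)).Separable)
    (ϖ : A) (hϖ : Irreducible ϖ) (u : A) (hu : IsUnit u) (n : ℕ) (x y : K)
    (hx : Transcendental k x)
    (hxy : algebraMap k K (algebraMap A k (u * ϖ ^ n)) * y ^ 2 =
      aeval x (f.map (algebraMap A k)))
    (V : ValuationSubring (algebraicClosure k Ω))
    (hV : ∀ a : k, algebraMap k (algebraicClosure k Ω) a ∈ V ↔ ∃ b : A, algebraMap A k b = a)
    (s : SectionData k K Ω) (a : algebraicClosure k Ω)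
    (ha : aeval a (f.map (algebraMap A k)) = 0)
    (hS : HasSets s (f.map (algebraMap A k)) x a)
    (R : algebraicClosure k Ω → univCover k K Ω)
    (hR : ∀ θ : algebraicClosure k Ω, aeval θ (f.map (algebraMap A k)) = 0 → θ ≠ a →
      R θ ≠ 0 ∧ IsR x a θ (R θ))
    (Θ : Finset (algebraicClosure k Ω))
    (hΘ : ∀ θ, θ ∈ Θ ↔ aeval θ (f.map (algebraMap A k)) = 0 ∧ θ ≠ a)
    (φ τ : algebraicClosure k Ω ≃ₐ[k] algebraicClosure k Ω) (q : ℕ)
    (hl : IsLoc V.valuation (φ : algebraicClosure k Ω →+* algebraicClosure k Ω)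
      (τ : algebraicClosure k Ω →+* algebraicClosure k Ω) q)
    (t : algebraicClosure k Ω)
    (ht : t ^ 2 = algebraMap k (algebraicClosure k Ω) (algebraMap A k ϖ)) (hτt : τ t = -t)
    (θ : algebraicClosure k Ω) (hθ : θ ∈ Θ) :
    s.act τ (R θ * ∏ θ' ∈ Θ, R θ') = R θ * ∏ θ' ∈ Θ, R θ' := by
  classical
  set fk : k[X] := f.map (algebraMap A k) with hfk
  have hinjk : Function.Injective (algebraMap A k) := IsFractionRing.injective A k
  have hdegk : fk.natDegree = f.natDegree := natDegree_map_eq_of_injective hinjk f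
  obtain ⟨hsepk, hint, hsepv⟩ := roots_facts V hV f hlead hsep
  have hc : algebraMap A k (u * ϖ ^ n) ≠ 0 := by
    rw [Ne, map_eq_zero_iff _ hinjk]
    exact mul_ne_zero hu.ne_zero (pow_ne_zero _ hϖ.ne_zero)
  have hτroot : ∀ θ : (algebraicClosure k Ω), aeval θ fk = 0 → τ θ = θ := by
    intro θ hθ
    by_contra hne
    have h1 : aeval (τ θ) fk = 0 := by rw [aeval_algHom_apply, hθ, map_zero]
    have h2 := hsepv (τ θ) θ h1 hθ hne
    exact absurd (hl.hτ θ (hint θ hθ)) (by
      show ¬ V.valuation (τ θ - θ) < 1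
      rw [h2]
      exact lt_irrefl _)
  rcases Nat.even_or_odd n with hn | hn
  · have hcl := (classes s hl fk hsepk (by rw [hdegk]; exact heven) (by rw [hdegk]; exact h6)
      (algebraMap A k (u * ϖ ^ n)) hc x y hx hxy hint hsepv).2
      (fun w hw => tau_c_even V hV hl f hlead ϖ hϖ u hu n hn t ht hτt w hw)
    have hfix : ∀ θ ∈ Θ, s.act τ (R θ) = R θ := by
      intro θ hθ
      obtain ⟨h1, h2⟩ := (hΘ θ).mp hθ
      exact fix_R s hl fk hsepk (algebraMap A k (u * ϖ ^ n)) hc x y hx hxy hsepv a ha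
        (hτroot a ha) hcl θ h1 h2 (hτroot θ h1) (R θ) (hR θ h1 h2).2
    rw [map_mul, map_prod, hfix θ hθ]
    congr 1
    exact Finset.prod_congr rfl fun θ' hθ' => hfix θ' hθ'
  · refine loc_ram h2 f heven h6 hlead hsep ϖ hϖ u hu n hn x y hx hxy V hV s a ha hS R hR Θ hΘ τ
      ?_ θ hθ (hτroot θ ((hΘ θ).mp hθ).1)
    intro z
    rw [← V.valuation_le_one_iff, ← V.valuation_le_one_iff]
    have h5 : V.valuation (τ z) = V.valuation z := hl.vτ z
    rw [h5]

end

end Pool.Agent.GFL
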