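import Mathlib
import Pool.Agent.SCY.Names
import Pool.Agent.SCX.ArithT
import Pool.Agent.GFL.Loc
import Pool.Agent.Helper36.SecConv

/-!
GFL module AGRS (MP_896029_ag): from `AgreesOn` to `HasSets`.

Proof.  Let `θ ≠ a` be a root and `P` the irreducible factor of `f` over `ℚ` (a member of `normalizedFactors`) with root `θ`.  If `P` has
even degree let `g = P`.  Otherwise there are at least four factors of odd degree, so there is one, `P'`, which is neither `P`
nor `X - a`; `g = P * P'`.  (`P ≠ X - a` since `θ ≠ a`.)  `g` divides `f`, has even degree, `g(a) ≠ 0` (`f` squarefree), `g(θ) = 0`.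
`AgreesOn` gives `ρ` with `g(x) = g(a) ρ ^ 2`, fixed.  `S` = set of roots of `g` (simple), `g = lead ∏ (X - θ')`.  Choose
`κ` with `κ ^ 2 = ∏ θ' ∈ S, (a - θ')` (`≠ 0`), `r = incl κ * ρ`, `c = κ⁻¹`.  (`s.toData.act σ` is `s.hom σ` by definition,
`UnivField` is `univCover`; see SCY/ArS.lean, SCX/ArithT.lean for the conversions.)
-/

set_option linter.dupNamespace false

namespace Pool.Agent.GFL

open Polynomial Pool.Agent.Helper36 Pool.Agent.Helper19.Sec Pool.Agent.SCT Pool.Agent.SCY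

open Classical in
private theorem exists_g (F : ℚ[X]) (hsq : Squarefree F)
    (h4 : 4 ≤ Multiset.card ((UniqueFactorizationMonoid.normalizedFactors F).filter
      (fun g => Odd g.natDegree))) {E : Type} [Field E] {inst : Algebra ℚ E} (θ : E)
    (hθ : aeval θ F = 0) (a : ℚ) (hne : θ ≠ (a : E)) :
    ∃ g : ℚ[X], g ∣ F ∧ Even g.natDegree ∧ g.eval a ≠ 0 ∧ aeval θ g = 0 := by
  have hF0 : F ≠ 0 := hsq.ne_zero
  obtain ⟨M, hM⟩ : ∃ M, M = UniqueFactorizationMonoid.normalizedFactors F := ⟨_, rfl⟩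
  rw [← hM] at h4
  have hnd : M.Nodup := by
    rw [hM]; exact (UniqueFactorizationMonoid.squarefree_iff_nodup_normalizedFactors hF0).1 hsq
  have hass : Associated M.prod F := by
    rw [hM]; exact UniqueFactorizationMonoid.prod_normalizedFactors hF0
  have hirr : ∀ P ∈ M, Irreducible P := fun P hP =>
    UniqueFactorizationMonoid.irreducible_of_normalized_factor P (hM ▸ hP)
  have hmon : ∀ P ∈ M, P.Monic := fun P hP => by
    have h1 := UniqueFactorizationMonoid.normalize_normalized_factor P (hM ▸ hP)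
    exact (Polynomial.normalize_eq_self_iff_monic (hirr P hP).ne_zero).1 h1
  have hroot : ∀ P ∈ M, P.eval a = 0 → P = X - C a := by
    intro P hP h0
    obtain ⟨q, hq⟩ := Polynomial.dvd_iff_isRoot.2 h0
    have h1 : IsUnit q := by
      rcases (hirr P hP).isUnit_or_isUnit hq with h | h
      · exact absurd h (Polynomial.not_isUnit_X_sub_C a)
      · exact h
    obtain ⟨c, hc, rfl⟩ := Polynomial.isUnit_iff.1 h1
    have h2 := hmon P hP
    rw [hq, Polynomial.Monic, leadingCoeff_mul, leadingCoeff_X_sub_C, leadingCoeff_C, one_mul] at h2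
    rw [hq, h2, C_1, mul_one]
  obtain ⟨P, hP, hPθ⟩ : ∃ P ∈ M, aeval θ P = 0 := by
    have h1 : aeval θ M.prod = 0 := by
      obtain ⟨q, hq⟩ := hass.symm.dvd
      rw [hq, map_mul, hθ, zero_mul]
    rw [map_multiset_prod, Multiset.prod_eq_zero_iff, Multiset.mem_map] at h1
    exact h1
  have hPa : P ≠ X - C a := by
    rintro rfl
    rw [map_sub, aeval_X, aeval_C, sub_eq_zero, eq_ratCast] at hPθ
    exact hne hPθ
  have hPe : P.eval a ≠ 0 := fun h => hPa (hroot P hP h)
  by_cases hev : Even P.natDegree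
  · exact ⟨P, (Multiset.dvd_prod hP).trans hass.dvd, hev, hPe, hPθ⟩
  · rw [Nat.not_even_iff_odd] at hev
    have hnd' := hnd.filter (fun g : ℚ[X] => Odd g.natDegree)
    obtain ⟨P', h1, h2⟩ : ∃ P' ∈ (M.filter fun g : ℚ[X] => Odd g.natDegree).toFinset,
        P' ∉ ({P, X - C a} : Finset ℚ[X]) := by
      apply Finset.exists_mem_notMem_of_card_lt_card
      rw [Multiset.toFinset_card_of_nodup hnd']
      exact lt_of_le_of_lt Finset.card_le_two (by omega)
    rw [Multiset.mem_toFinset, Multiset.mem_filter] at h1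
    rw [Finset.mem_insert, Finset.mem_singleton, not_or] at h2
    refine ⟨P * P', ?_, ?_, ?_, ?_⟩
    · have h3 : ({P, P'} : Multiset ℚ[X]) ≤ M := by
        rw [Multiset.le_iff_subset]
        · intro z hz
          simp only [Multiset.insert_eq_cons, Multiset.mem_cons, Multiset.mem_singleton] at hz
          rcases hz with rfl | rfl
          · exact hP
          · exact h1.1
        · simp [Multiset.insert_eq_cons, Ne.symm h2.1]
      have h4 := Multiset.prod_dvd_prod_of_le h3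
      rw [Multiset.prod_pair] at h4
      exact h4.trans hass.dvd
    · rw [natDegree_mul (hirr P hP).ne_zero (hirr P' h1.1).ne_zero]
      exact hev.add_odd h1.2
    · rw [eval_mul]
      exact mul_ne_zero hPe fun h => h2.2 (hroot P' h1.1 h)
    · rw [map_mul, hPθ, zero_mul]

/-- the set of roots -/
private theorem exists_S (F g : ℚ[X]) (hsq : Squarefree F) (hg : g ∣ F) (hev : Even g.natDegree) (a : ℚ)
    (ha : g.eval a ≠ 0) {E : Type} [Field E] [CharZero E] {inst : Algebra ℚ E} [IsAlgClosed E] :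
    ∃ S : Finset E, (∀ z, z ∈ S ↔ aeval z g = 0) ∧ Even S.card ∧ (∀ z ∈ S, aeval z F = 0) ∧
      (a : E) ∉ S ∧
      g.map (Rat.castHom E) = C (g.leadingCoeff : E) * ∏ z ∈ S, (X - C z) := by
  classical
  have hcast : Rat.castHom E = algebraMap ℚ E := Subsingleton.elim _ _
  have hca : ∀ q : ℚ, (q : E) = algebraMap ℚ E q := fun q => (eq_ratCast _ q).symm
  rw [hcast, hca, hca]
  have hF0 : F ≠ 0 := hsq.ne_zero
  have hg0 : g ≠ 0 := ne_zero_of_dvd_ne_zero hF0 hg
  have hsep : g.Separable := PerfectField.separable_iff_squarefree.2 (hsq.squarefree_of_dvd hg)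
  have hnd : (g.map (algebraMap ℚ E)).roots.Nodup := nodup_roots (hsep.map)
  have hsp : (g.map (algebraMap ℚ E)).Splits := IsAlgClosed.splits _
  have hm0 : g.map (algebraMap ℚ E) ≠ 0 := (Polynomial.map_ne_zero_iff (algebraMap ℚ E).injective).2 hg0
  have hmem : ∀ z, z ∈ (g.map (algebraMap ℚ E)).roots.toFinset ↔ aeval z g = 0 := by
    intro z
    rw [Multiset.mem_toFinset, mem_roots hm0, IsRoot.def, eval_map_algebraMap]
  refine ⟨(g.map (algebraMap ℚ E)).roots.toFinset, hmem, ?_, ?_, ?_, ?_⟩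
  · rw [Multiset.toFinset_card_of_nodup hnd, ← hsp.natDegree_eq_card_roots, natDegree_map]
    exact hev
  · intro z hz
    obtain ⟨q, rfl⟩ := hg
    rw [map_mul, (hmem z).1 hz, zero_mul]
  · rw [hmem, aeval_algebraMap_apply, coe_aeval_eq_eval, _root_.map_eq_zero]
    exact ha
  · have h1 := hsp.eq_prod_roots
    rw [leadingCoeff_map] at h1
    have h2 : (Multiset.map (fun z => X - C z) (g.map (algebraMap ℚ E)).roots).prod
        = ∏ z ∈ (g.map (algebraMap ℚ E)).roots.toFinset, (X - C z) := by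
      rw [Finset.prod_multiset_map_count]
      exact Finset.prod_congr rfl fun z hz => by
        rw [Multiset.count_eq_one_of_mem hnd (Multiset.mem_toFinset.1 hz), pow_one]
    rw [← h2]
    exact h1

open Classical in
theorem sets_of_agrees (f : ℤ[X]) (hsq : Squarefree (f.map (Int.castRingHom ℚ)))
    (h4 : 4 ≤ Multiset.card ((UniqueFactorizationMonoid.normalizedFactors
          (f.map (Int.castRingHom ℚ))).filter (fun g => Odd g.natDegree)))
    {K Ω : Type} [Field K] [Field Ω] [Algebra ℚ K] [Algebra K Ω] [Algebra ℚ Ω]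
    [IsScalarTower ℚ K Ω] [IsAlgClosed Ω] [Algebra.IsAlgebraic K Ω]
    (s : PiOneSection ℚ K Ω) (x : K) (hx : Transcendental ℚ x) (a : ℚ) (ha : aeval a f = 0)
    (hag : AgreesOn f s x {a}) :
    HasSets s.toData (f.map (Int.castRingHom ℚ)) x (algebraMap ℚ (algebraicClosure ℚ Ω) a) := by
  have hcast : algebraMap ℚ (algebraicClosure ℚ Ω) a = (a : algebraicClosure ℚ Ω) :=
    eq_ratCast _ a
  rw [hcast]
  intro θ hθ hne
  obtain ⟨g, hg, hev, hga, hgθ⟩ := exists_g (f.map (Int.castRingHom ℚ)) hsq h4 θ hθ a hne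
  obtain ⟨S, hS, hSev, hSF, haS, hmap⟩ := exists_S (f.map (Int.castRingHom ℚ)) g hsq hg hev a hga
    (E := algebraicClosure ℚ Ω) (inst := (algebraicClosure ℚ Ω).algebra')
  obtain ⟨ρ, hρ, hρ2⟩ := hag a (Finset.mem_singleton_self a) g hg hev (fun b hb => by
    rw [Finset.mem_singleton.1 hb]; exact hga)
  have hg0 : g ≠ 0 := ne_zero_of_dvd_ne_zero hsq.ne_zero hg
  have hl0 : (g.leadingCoeff : algebraicClosure ℚ Ω) ≠ 0 := by
    rw [Ne, Rat.cast_eq_zero]; exact leadingCoeff_ne_zero.2 hg0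
  have e1 : algebraMap K (univCover ℚ K Ω) (aeval x g) =
      incl ℚ K Ω (g.leadingCoeff : algebraicClosure ℚ Ω) *
        ∏ θ' ∈ S, (algebraMap K (univCover ℚ K Ω) x - incl ℚ K Ω θ') := by
    have h1 := congrArg (Polynomial.eval₂ (incl ℚ K Ω) (algebraMap K (univCover ℚ K Ω) x)) hmap
    rw [eval₂_map, eval₂_mul, eval₂_C, eval₂_finsetProd] at h1
    simp only [eval₂_sub, eval₂_X, eval₂_C] at h1
    rw [← h1, aeval_def, hom_eval₂]
    congr 1
    exact Subsingleton.elim _ _
  have e2 : ((g.eval a : ℚ) : algebraicClosure ℚ Ω) =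
      (g.leadingCoeff : algebraicClosure ℚ Ω) *
        ∏ θ' ∈ S, ((a : algebraicClosure ℚ Ω) - θ') := by
    have h1 := congrArg (Polynomial.eval (a : algebraicClosure ℚ Ω)) hmap
    rw [eval_mul, eval_C, eval_prod] at h1
    simp only [eval_sub, eval_X, eval_C] at h1
    rw [← h1, eval_map]
    exact (Polynomial.eval₂_at_apply (p := g) (Rat.castHom (algebraicClosure ℚ Ω)) a).symm
  obtain ⟨κ, hκ⟩ := IsAlgClosed.exists_pow_nat_eq
    (∏ θ' ∈ S, ((a : algebraicClosure ℚ Ω) - θ')) (n := 2) (by norm_num)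
  have hP0 : ∏ θ' ∈ S, ((a : algebraicClosure ℚ Ω) - θ') ≠ 0 := by
    refine Finset.prod_ne_zero_iff.2 fun z hz h0 => haS ?_
    rw [sub_eq_zero.1 h0]; exact hz
  have hκ0 : κ ≠ 0 := by
    rintro rfl
    rw [zero_pow (by norm_num)] at hκ
    exact hP0 hκ.symm
  obtain ⟨ρ', hρ'⟩ : ∃ ρ' : univCover ℚ K Ω, ρ' = ρ := ⟨ρ, rfl⟩
  have e3 : algebraMap K (univCover ℚ K Ω) (aeval x g) =
      incl ℚ K Ω ((g.eval a : ℚ) : algebraicClosure ℚ Ω) * ρ' ^ 2 := by
    have h1 : incl ℚ K Ω ((g.eval a : ℚ) : algebraicClosure ℚ Ω) =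
        algebraMap K (univCover ℚ K Ω) (algebraMap ℚ K (g.eval a)) := by
      rw [map_ratCast, eq_ratCast (algebraMap ℚ K), map_ratCast]
    rw [h1, hρ']
    exact hρ2
  have e4 : ∏ θ' ∈ S, (algebraMap K (univCover ℚ K Ω) x - incl ℚ K Ω θ') =
      (incl ℚ K Ω κ * ρ') ^ 2 := by
    have h1 : incl ℚ K Ω (g.leadingCoeff : algebraicClosure ℚ Ω) ≠ 0 := by
      rwa [Ne, _root_.map_eq_zero]
    refine mul_left_cancel₀ h1 ?_
    rw [← e1, e3, e2, map_mul, mul_pow, ← map_pow, hκ]
    ring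
  refine ⟨S, incl ℚ K Ω κ * ρ', κ⁻¹, (hS θ).2 hgθ, haS, hSev, hSF, e4.symm, ?_, ?_⟩
  · rw [← hκ, ← mul_pow, inv_mul_cancel₀ hκ0, one_pow]
  · intro σ
    have h1 : incl ℚ K Ω κ⁻¹ * (incl ℚ K Ω κ * ρ') = ρ' := by
      rw [← mul_assoc, ← map_mul, inv_mul_cancel₀ hκ0, map_one, one_mul]
    rw [h1, hρ']
    exact hρ σ

end Pool.Agent.GFL
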