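import Mathlib
import Pool.Agent.SCX.CntG
import Pool.Agent.SCT.Sqf

/-!
GFL module CNT (MP_896029_ag): the integers `d` all of whose primes with odd exponent lie in a set of primes of density less
than one.

Proof.  Squarefree `d`: `cntG` (SCX/CntG.lean) with `ι = Unit`, `B' = max B 2`, `Pat i q = if q ∈ A then {1} else ∅`,
`𝒮 = {d | ∀ q prime, B' < q → q ∣ d → q ∈ A}`, `e = fun _ => d`; the hypothesis `hcount` is `count X κ C0 ...` as in `cntA`
(SCX/CntA.lean: copy that proof).  Then `sqfree_to_all` (SCT/Sqf.lean) with `𝒯 = {d | Squarefree d ∧ d ∈ 𝒮}`, `b = 1`: every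
`d ≠ 0` is `d0 * t ^ 2` with `d0` squarefree, and a prime `q ∣ d0` has odd exponent in `d`.
-/

set_option linter.dupNamespace false

namespace Pool.Agent.GFL

open Finset

private theorem cnt_decomp (d : ℤ) (hd : d ≠ 0) : ∃ d0 t : ℤ, Squarefree d0 ∧ d = d0 * t ^ 2 ∧
    ∀ q : ℕ, q.Prime → (q : ℤ) ∣ d0 → Odd (padicValInt q d) := by
  obtain ⟨a, b, hab, ha⟩ := Nat.sq_mul_squarefree d.natAbs
  have hn : d.natAbs ≠ 0 := Int.natAbs_ne_zero.2 hd
  have ha0 : a ≠ 0 := ha.ne_zero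
  have hb0 : b ≠ 0 := by
    rintro rfl
    apply hn
    rw [← hab]; simp
  have hs : (d.sign * (a : ℤ)).natAbs = a := by
    rw [Int.natAbs_mul, Int.natAbs_sign_of_ne_zero hd, one_mul, Int.natAbs_natCast]
  refine ⟨d.sign * a, b, ?_, ?_, ?_⟩
  · rw [← Int.squarefree_natAbs, hs]
    exact ha
  · calc d = d.sign * (d.natAbs : ℤ) := (Int.sign_mul_natAbs d).symm
      _ = d.sign * a * (b : ℤ) ^ 2 := by
        rw [← hab]; push_cast; ring
  · intro q hq hqd
    haveI := Fact.mk hq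
    have h1 : q ∣ a := by
      have h2 := Int.natCast_dvd.1 hqd
      rwa [hs] at h2
    have h2 : padicValInt q d = 2 * padicValNat q b + padicValNat q a := by
      rw [padicValInt, ← hab, padicValNat.mul (pow_ne_zero 2 hb0) ha0, padicValNat.pow]
    have h3 : padicValNat q a = 1 := by
      apply le_antisymm
      · by_contra h4
        push Not at h4
        have h5 : q ^ 2 ∣ a := (padicValNat_dvd_iff_le ha0).2 h4
        have h6 : IsUnit q := ha q (by rwa [← pow_two])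
        exact hq.one_lt.ne' (Nat.isUnit_iff.1 h6)
      · exact one_le_padicValNat_of_dvd ha0 h1
    rw [h2, h3]
    exact ⟨padicValNat q b, rfl⟩

open Classical in
theorem cnt (A : Set ℕ) (B : ℕ) (κ C0 : ℝ) (hκ : 0 < κ) (hκ1 : κ ≤ 1)
    (hden : ∀ s : ℝ, 1 < s → s ≤ 2 → ∀ Y : ℕ,
      ∑ q ∈ (range (Y + 1)).filter (fun q => q.Prime ∧ q ∈ A), (q : ℝ) ^ (-s) ≤
        (1 - κ) * Real.log (1 / (s - 1)) + C0) :
    ∃ C κ' : ℝ, 0 ≤ C ∧ 0 < κ' ∧ ∀ N : ℕ, 2 ≤ N →
      (({d : ℤ | d ≠ 0 ∧ |d| ≤ N ∧ ∀ q : ℕ, q.Prime → B < q → Odd (padicValInt q d) →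
        q ∈ A}.ncard : ℕ) : ℝ) ≤ C * N / (Real.log N) ^ κ' := by
  let Pt : Unit → ℕ → Finset (Unit → ℤˣ) := fun _ q => if q ∈ A then {1} else ∅
  obtain ⟨C, δ, hC, hδ, h⟩ := SCX.cntG (ι := Unit) Pt (by
      intro i q y hy
      simp only [Pt] at hy
      split_ifs at hy with h
      · rw [Finset.mem_singleton.1 hy]; rfl
      · exact absurd hy (Finset.notMem_empty _)) (max B 2) (le_max_right _ _) (by
      intro X hX hXB
      refine SCT.count X κ C0 hκ hκ1 ?_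
      intro i s hs hs2 Y
      refine le_trans ?_ (hden s hs hs2 Y)
      rw [← filter_filter, sum_filter (p := fun q => q ∈ A)]
      refine sum_le_sum fun q _ => ?_
      have h0 : (0 : ℝ) ≤ (q : ℝ) ^ (-s) := Real.rpow_nonneg (Nat.cast_nonneg q) _
      rw [hX]
      simp only [Pt]
      split_ifs with h
      · simp
      · simp) {d : ℤ | ∀ q : ℕ, q.Prime → B < q → (q : ℤ) ∣ d → q ∈ A} (by
      intro d hd hdS
      refine ⟨fun _ => d, fun _ => hd, fun q hq hBq => ⟨fun h _ => h, fun hqd => ?_⟩⟩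
      refine ⟨(), hqd, fun j hj => absurd (Subsingleton.elim j ()) hj, 1, ?_,
        fun j hj => absurd (Subsingleton.elim j ()) hj⟩
      simp only [Pt]
      rw [if_pos (hdS q hq (lt_of_le_of_lt (le_max_left _ _) hBq) hqd)]
      exact Finset.mem_singleton_self _)
  obtain ⟨C', hC', h'⟩ := SCT.sqfree_to_all
    {d : ℤ | Squarefree d ∧ ∀ q : ℕ, q.Prime → B < q → (q : ℤ) ∣ d → q ∈ A} C δ hC hδ (by
      intro N hN
      refine le_trans (le_of_eq ?_) (h N hN)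
      congr 2
      ext d
      simp only [Set.mem_setOf_eq]
      tauto) 1 one_ne_zero
  refine ⟨C', δ, hC', hδ, fun N hN => le_trans ?_ (h' N hN)⟩
  have hfin : {d : ℤ | d ≠ 0 ∧ |d| ≤ (N : ℤ) ∧ ∃ d0 ∈ {d : ℤ | Squarefree d ∧
      ∀ q : ℕ, q.Prime → B < q → (q : ℤ) ∣ d → q ∈ A}, ∃ t : ℤ, 1 * d = d0 * t ^ 2}.Finite := by
    refine (Set.finite_Icc (-(N : ℤ)) N).subset fun d hd => ?_
    exact abs_le.1 hd.2.1
  have hsub := Set.ncard_le_ncard (s := {d : ℤ | d ≠ 0 ∧ |d| ≤ (N : ℤ) ∧ ∀ q : ℕ, q.Prime → B < q →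
      Odd (padicValInt q d) → q ∈ A}) (by
    rintro d ⟨hd0, hdN, hdA⟩
    obtain ⟨d0, t, h1, h2, h3⟩ := cnt_decomp d hd0
    refine ⟨hd0, hdN, d0, ⟨h1, fun q hq hB hqd => hdA q hq hB (h3 q hq hqd)⟩, t, ?_⟩
    rw [one_mul]
    exact h2) hfin
  exact_mod_cast hsub

end Pool.Agent.GFL
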