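import Mathlib

/-!
GFL module CORA (MP_896029_ag): small facts about primes of a number field and valuation rings above them.

* `exists_v`: `v.asIdeal = RingHom.ker ψ`: prime (the target is a domain) and not zero (it contains `q`; `𝓞 F` has characteristic zero).
* `v_lt`: `v.valuation F z < 1` (`HeightOneSpectrum.valuation_lt_one_iff_mem`); if `z ≠ 0` then `v.valuation F z⁻¹ > 1`, so `j z⁻¹ ∉ V` and
  `V.valuation (j z) < 1`.
* `v_even`: `w = δ / q ^ (2 i)`: `V.valuation (j w) = 1`, so `j w ∈ V` and `j w⁻¹ ∈ V`, so `v.valuation F w = 1`; `γ = q ^ i`.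
* `frob_cong`: `v.valuation F z ≤ 1`, so `z = a / b` with `a, b ∈ 𝓞 F`, `b ∉ v` (localization at `v`, e.g. `HeightOneSpectrum.exists_...` or
  `IsLocalization.AtPrime`, or by hand: uniformizer / strong approximation not needed: clear denominators and use that the class
  `b` can be chosen outside `v`, see `IsDedekindDomain.HeightOneSpectrum.mem_integers_of_valuation_le_one` for one prime).  Let `m : ℤ` with
  `(m : ZMod q) = ψ a / ψ b`: `ψ (a - m b) = 0`, so `V (j a - m j b) < 1`, `V (j b) = 1`, `V (j z - m) < 1`.  `V (φ (j z) - (j z) ^ q) < 1`,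
  `(j z) ^ q ≡ m ^ q ≡ m ≡ j z` (`q ∣ m ^ q - m`, `V (q) < 1`).
-/

set_option autoImplicit false

namespace Pool.Agent.GFL

open NumberField IsDedekindDomain

theorem exists_v {F : Type*} [Field F] [NumberField F] (q : ℕ) (hq : q.Prime)
    (ψ : 𝓞 F →+* ZMod q) :
    ∃ v : HeightOneSpectrum (𝓞 F), ∀ z : 𝓞 F, ψ z = 0 ↔ z ∈ v.asIdeal := by
  have := Fact.mk hq
  refine ⟨⟨RingHom.ker ψ, RingHom.ker_isPrime ψ, ?_⟩, fun z => (RingHom.mem_ker).symm⟩
  intro h
  have h1 : (q : 𝓞 F) ∈ RingHom.ker ψ := by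
    rw [RingHom.mem_ker, map_natCast, ZMod.natCast_self]
  rw [h, Ideal.mem_bot] at h1
  exact hq.ne_zero (by exact_mod_cast h1)

private theorem lt_of_lt {F E : Type*} [Field F] [NumberField F] [Field E] (j : F →+* E)
    (v : HeightOneSpectrum (𝓞 F)) (V : ValuationSubring E)
    (hV : ∀ z : F, j z ∈ V ↔ v.valuation F z ≤ 1) (z : F) (hz : v.valuation F z < 1) :
    V.valuation (j z) < 1 := by
  by_contra h
  rw [not_lt] at h
  have h1 : V.valuation (j z⁻¹) ≤ 1 := by
    rw [map_inv₀, map_inv₀]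
    exact inv_le_one_of_one_le₀ h
  rw [ValuationSubring.valuation_le_one_iff, hV, map_inv₀] at h1
  have h0 : v.valuation F z ≠ 0 := by
    intro h2
    rw [map_eq_zero] at h2
    rw [h2, map_zero, map_zero] at h
    exact absurd h (not_le.2 zero_lt_one)
  have h3 : 1 ≤ v.valuation F z := by
    rw [← inv_inv (v.valuation F z)]
    exact (one_le_inv₀ (zero_lt_iff.2 (inv_ne_zero h0))).2 h1
  exact absurd hz (not_lt.2 h3)

theorem v_lt {F E : Type*} [Field F] [NumberField F] [Field E] (j : F →+* E)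
    (v : HeightOneSpectrum (𝓞 F)) (V : ValuationSubring E)
    (hV : ∀ z : F, j z ∈ V ↔ v.valuation F z ≤ 1) (z : 𝓞 F) (hz : z ∈ v.asIdeal) :
    V.valuation (j z) < 1 := by
  refine lt_of_lt j v V hV z ?_
  exact (HeightOneSpectrum.valuation_lt_one_iff_mem v z).2 hz

theorem v_even {F E : Type*} [Field F] [NumberField F] [Field E] (j : F →+* E)
    (v : HeightOneSpectrum (𝓞 F)) (V : ValuationSubring E)
    (hV : ∀ z : F, j z ∈ V ↔ v.valuation F z ≤ 1) (δ : F) (hδ : δ ≠ 0) (q : ℕ) (hq : q ≠ 0)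
    (i : ℤ) (h : V.valuation (j δ) = V.valuation (q : E) ^ (2 * i)) :
    ∃ γ : F, v.valuation F δ = (v.valuation F γ) ^ 2 := by
  have hq0 : (q : F) ≠ 0 := Nat.cast_ne_zero.2 hq
  set γ : F := (q : F) ^ i with hγ
  have hγ0 : γ ≠ 0 := zpow_ne_zero _ hq0
  have h1 : V.valuation (j (δ / γ ^ 2)) = 1 := by
    have h2 : V.valuation (j (γ ^ 2)) = V.valuation (q : E) ^ (2 * i) := by
      rw [hγ, ← zpow_natCast, ← zpow_mul, map_zpow₀, map_zpow₀, map_natCast]
      congr 1
      push_cast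
      ring
    rw [map_div₀, map_div₀, h, ← h2]
    refine div_self ?_
    rw [ne_eq, map_eq_zero, map_eq_zero]
    exact pow_ne_zero _ hγ0
  have h2 : v.valuation F (δ / γ ^ 2) ≤ 1 := by
    rw [← hV, ← ValuationSubring.valuation_le_one_iff, h1]
  have h3 : ¬ v.valuation F (δ / γ ^ 2) < 1 := by
    intro h4
    have h5 := lt_of_lt j v V hV _ h4
    rw [h1] at h5
    exact lt_irrefl _ h5
  have h4 : v.valuation F (δ / γ ^ 2) = 1 := le_antisymm h2 (not_lt.1 h3)
  refine ⟨γ, ?_⟩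
  have h5 : δ = δ / γ ^ 2 * γ ^ 2 := by
    rw [div_mul_cancel₀ _ (pow_ne_zero _ hγ0)]
  calc v.valuation F δ = v.valuation F (δ / γ ^ 2 * γ ^ 2) := by rw [← h5]
    _ = _ := by rw [map_mul, h4, one_mul, map_pow]

theorem frob_cong {F E : Type*} [Field F] [NumberField F] [Field E] (j : F →+* E) (q : ℕ)
    (hq : q.Prime) (ψ : 𝓞 F →+* ZMod q) (v : HeightOneSpectrum (𝓞 F))
    (hv : ∀ z : 𝓞 F, ψ z = 0 ↔ z ∈ v.asIdeal) (V : ValuationSubring E)
    (hV : ∀ z : F, j z ∈ V ↔ v.valuation F z ≤ 1) (φ : E →+* E)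
    (hφ : ∀ z : E, z ∈ V → V.valuation (φ z - z ^ q) < 1) (z : F) (hz : j z ∈ V) :
    V.valuation (φ (j z) - j z) < 1 := by
  have := Fact.mk hq
  obtain ⟨a, ha⟩ := HeightOneSpectrum.exists_valuation_sub_lt_of_integer v ((hV z).1 hz) 1
  rw [Units.val_one] at ha
  have h1 : V.valuation (j (a : F) - j z) < 1 := by
    rw [← map_sub]
    exact lt_of_lt j v V hV _ ha
  set m : ℕ := (ψ a).val with hm
  have h2 : V.valuation (j (a : F) - (m : E)) < 1 := by
    have h3 : a - (m : 𝓞 F) ∈ v.asIdeal := by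
      rw [← hv, map_sub, map_natCast, hm, ZMod.natCast_zmod_val, sub_self]
    have h4 := v_lt j v V hV _ h3
    have h5 : j ((a - (m : 𝓞 F) : 𝓞 F) : F) = j (a : F) - (m : E) := by
      show j (algebraMap (𝓞 F) F (a - (m : 𝓞 F))) = j (algebraMap (𝓞 F) F a) - (m : E)
      rw [map_sub, map_natCast, map_sub, map_natCast]
    rwa [h5] at h4
  have h3 : V.valuation (j z - (m : E)) < 1 := by
    have h4 : j z - (m : E) = (j (a : F) - (m : E)) - (j (a : F) - j z) := by ring
    rw [h4]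
    exact Valuation.map_sub_lt _ h2 h1
  have hq1 : V.valuation (q : E) < 1 := by
    have h4 : (q : 𝓞 F) ∈ v.asIdeal := by
      rw [← hv, map_natCast, ZMod.natCast_self]
    have h5 := v_lt j v V hV _ h4
    have h6 : j (((q : 𝓞 F) : 𝓞 F) : F) = (q : E) := by
      show j (algebraMap (𝓞 F) F (q : 𝓞 F)) = (q : E)
      rw [map_natCast, map_natCast]
    rwa [h6] at h5
  have hint : ∀ n : ℤ, V.valuation (n : E) ≤ 1 := by
    intro n
    rw [ValuationSubring.valuation_le_one_iff]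
    exact intCast_mem V n
  have h4 : V.valuation ((m : E) ^ q - (m : E)) < 1 := by
    have h5 : ((q : ℤ)) ∣ (m : ℤ) ^ q - m := by
      rw [← ZMod.intCast_zmod_eq_zero_iff_dvd]
      push_cast
      rw [ZMod.pow_card, sub_self]
    obtain ⟨c, hc⟩ := h5
    have h6 : (m : E) ^ q - (m : E) = (q : E) * (c : E) := by
      have h7 := congrArg (fun t : ℤ => (t : E)) hc
      push_cast at h7
      exact h7
    rw [h6, map_mul]
    calc V.valuation (q : E) * V.valuation (c : E) ≤ V.valuation (q : E) * 1 :=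
          mul_le_mul_right (hint c) _
      _ < 1 := by rw [mul_one]; exact hq1
  have h5 : V.valuation ((j z) ^ q - (m : E) ^ q) < 1 := by
    obtain ⟨c, hc⟩ : ∃ c : V, (j z) ^ q - (m : E) ^ q = (j z - (m : E)) * (c : E) := by
      have h6 : (⟨j z, hz⟩ : V) - (m : V) ∣ (⟨j z, hz⟩ : V) ^ q - (m : V) ^ q :=
        sub_dvd_pow_sub_pow _ _ _
      obtain ⟨c, hc⟩ := h6
      refine ⟨c, ?_⟩
      have h7 := congrArg (fun t : V => (t : E)) hc
      push_cast at h7
      exact h7
    rw [hc, map_mul]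
    calc V.valuation (j z - (m : E)) * V.valuation (c : E) ≤ V.valuation (j z - (m : E)) * 1 :=
          mul_le_mul_right ((ValuationSubring.valuation_le_one_iff _ _).2 c.2) _
      _ < 1 := by rw [mul_one]; exact h3
  have h6 := hφ _ hz
  have h7 : φ (j z) - j z = (φ (j z) - (j z) ^ q) +
      (((j z) ^ q - (m : E) ^ q) + (((m : E) ^ q - (m : E)) - (j z - (m : E)))) := by ring
  rw [h7]
  exact Valuation.map_add_lt _ h6 (Valuation.map_add_lt _ h5 (Valuation.map_sub_lt _ h4 h3))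

end Pool.Agent.GFL
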