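import Mathlib
import Pool.Agent.WMS.Setup
import Pool.Agent.WMS.PlaceW
import Pool.Agent.WMS.Layer
import Pool.Agent.WMS.Main

/-!
GFL module EXR (MP_896029_ag): the elements `R θ`, and the place.

`exists_Rg`: as `exists_R` (WMS/Setup), without `τ`: `R θ = κ r / (x - θ₀)` with `r ^ 2 = (x - θ₀) (x - θ)` (`exists_sqrt`),
`κ ^ 2 = - 1 / (θ - θ₀)`.

`place_of_R`: copy of the proof of the first three bullets of `main` (WMS/Main), after `refine ⟨θ₀, hθ₀, ...⟩`, with `layer_eq`,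
`exists_place`, `transc_of_not_mem`; there `hD σ hσ` is now `⟨hσ σ, hcom σ⟩`.
-/

set_option autoImplicit false

namespace Pool.Agent.GFL

open Polynomial Pool.Agent.Helper36 Pool.Agent.Helper19.Sec Pool.Agent.WMS

section

variable {k K Ω : Type*} [Field k] [Field K] [Field Ω] [Algebra k K] [Algebra K Ω] [Algebra k Ω]
  [IsScalarTower k K Ω] [CharZero k] [Algebra.IsAlgebraic K Ω] [IsAlgClosed Ω]

theorem exists_Rg (f : k[X]) (hf : f.Separable) (c : k)
    (hc : c ≠ 0) (x y : K) (hx : Transcendental k x)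
    (hxy : algebraMap k K c * y ^ 2 = aeval x f)
    (θ₀ : algebraicClosure k Ω) (hθ₀ : aeval θ₀ f = 0) :
    ∃ R : algebraicClosure k Ω → univCover k K Ω, ∀ θ : algebraicClosure k Ω, aeval θ f = 0 →
      θ ≠ θ₀ → R θ ≠ 0 ∧ IsR x θ₀ θ (R θ) := by
  classical
  have hex : ∀ θ : algebraicClosure k Ω, ∃ R : univCover k K Ω, aeval θ f = 0 →
      θ ≠ θ₀ → R ≠ 0 ∧ IsR x θ₀ θ R := by
    intro θ
    by_cases h : aeval θ f = 0 ∧ θ ≠ θ₀
    swap
    · exact ⟨0, fun h1 h2 => absurd ⟨h1, h2⟩ h⟩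
    obtain ⟨hθ, hne⟩ := h
    obtain ⟨r, -, hr, -⟩ := exists_sqrt f hf c hc x y hx hxy ⊥ (bot_unram (k := k)).1 bot_unram.2
      θ₀ θ hθ₀ hθ
    set xM : univCover k K Ω := algebraMap K (univCover k K Ω) x with hxM
    have hx0 := xsub_ne x hx θ₀
    have hx1 := xsub_ne x hx θ
    rw [← hxM] at hx0 hx1
    have hd : θ - θ₀ ≠ 0 := sub_ne_zero.mpr hne
    have hdι : incl k K Ω (θ - θ₀) ≠ 0 := by rwa [_root_.map_ne_zero]
    have hr0 : r ≠ 0 := by
      rintro rfl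
      rw [zero_pow (by norm_num)] at hr
      exact mul_ne_zero hx0 hx1 hr.symm
    obtain ⟨κ, hκ⟩ := IsAlgClosed.exists_pow_nat_eq (-(θ - θ₀)⁻¹) (n := 2) (by norm_num)
    have hκ0 : κ ≠ 0 := by
      rintro rfl
      rw [zero_pow (by norm_num)] at hκ
      exact (neg_ne_zero.mpr (inv_ne_zero hd)) hκ.symm
    have hκι : incl k K Ω κ ≠ 0 := by rwa [_root_.map_ne_zero]
    refine ⟨incl k K Ω κ * r / (xM - incl k K Ω θ₀), fun _ _ => ⟨?_, ?_⟩⟩
    · exact div_ne_zero (mul_ne_zero hκι hr0) hx0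
    · show (incl k K Ω κ * r / (xM - incl k K Ω θ₀)) ^ 2 =
        (xM - incl k K Ω θ₀)⁻¹ - incl k K Ω ((θ - θ₀)⁻¹)
      have h4 : incl k K Ω ((θ - θ₀)⁻¹) = (incl k K Ω (θ - θ₀))⁻¹ := map_inv₀ _ _
      have h5 : incl k K Ω θ = incl k K Ω θ₀ + incl k K Ω (θ - θ₀) := by
        rw [← map_add]; congr 1; ring
      rw [div_pow, mul_pow, hr, ← map_pow, hκ, map_neg, h4]
      rw [h5] at hx1 ⊢
      field_simp
      ring
  choose R hR using hex
  exact ⟨R, hR⟩

theorem place_of_R (s : SectionData k K Ω) (f : k[X]) (hf : f.Separable)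
    (heven : Even f.natDegree) (h6 : 6 ≤ f.natDegree) (c : k)
    (hc : c ≠ 0) (x y : K) (hx : Transcendental k x)
    (hxy : algebraMap k K c * y ^ 2 = aeval x f)
    (θ₀ : algebraicClosure k Ω) (hθ₀ : aeval θ₀ f = 0)
    (hσ : ∀ σ : algebraicClosure k Ω ≃ₐ[k] algebraicClosure k Ω, σ θ₀ = θ₀)
    (R : algebraicClosure k Ω → univCover k K Ω)
    (hR : ∀ θ : algebraicClosure k Ω, aeval θ f = 0 → θ ≠ θ₀ → R θ ≠ 0 ∧ IsR x θ₀ θ (R θ))
    (hcom : ∀ σ : algebraicClosure k Ω ≃ₐ[k] algebraicClosure k Ω, ∃ ζ : univCover k K Ω,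
      (ζ = 1 ∨ ζ = -1) ∧ ∀ θ, aeval θ f = 0 → θ ≠ θ₀ → s.act σ (R θ) = ζ * R (σ θ)) :
    PlaceOn (Subfield.closure (Set.range (incl k K Ω) ∪
        {algebraMap K (univCover k K Ω) x, algebraMap K (univCover k K Ω) y} ∪
        {z | ∃ a b : algebraicClosure k Ω, aeval a f = 0 ∧ aeval b f = 0 ∧
          z ^ 2 = (algebraMap K (univCover k K Ω) x - incl k K Ω a) *
            (algebraMap K (univCover k K Ω) x - incl k K Ω b)})) (incl k K Ω)
        (algebraMap K (univCover k K Ω) x - incl k K Ω θ₀)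
        {g | ∃ σ : algebraicClosure k Ω ≃ₐ[k] algebraicClosure k Ω, g = s.act σ} := by
  classical
  have hxne : ∀ e, algebraMap K (univCover k K Ω) x - incl k K Ω e ≠ 0 := fun e => xsub_ne x hx e
  set xM : univCover k K Ω := algebraMap K (univCover k K Ω) x with hxM
  rw [layer_eq f hf heven h6 c hc x y hx hxy θ₀ hθ₀ R (fun θ h1 h2 => (hR θ h1 h2).2)]
  -- the index set
  have hf0 : f ≠ 0 := by
    rintro rfl
    rw [natDegree_zero] at h6
    omega
  set fE : (algebraicClosure k Ω)[X] := f.map (algebraMap k (algebraicClosure k Ω)) with hfE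
  have hfE0 : fE ≠ 0 := Polynomial.map_ne_zero hf0
  have hsplits : fE.Splits := IsAlgClosed.splits fE
  have hnodup : fE.roots.Nodup := nodup_roots (hf.map)
  have hmemΘ : ∀ θ : (algebraicClosure k Ω), θ ∈ fE.roots.toFinset ↔ aeval θ f = 0 := by
    intro θ
    rw [Multiset.mem_toFinset, mem_roots hfE0, IsRoot.def, hfE, eval_map_algebraMap]
  have hcard : fE.roots.toFinset.card = f.natDegree := by
    rw [Multiset.toFinset_card_of_nodup hnodup, ← hsplits.natDegree_eq_card_roots, hfE,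
      natDegree_map]
  have hfin : Finite {θ : algebraicClosure k Ω // aeval θ f = 0 ∧ θ ≠ θ₀} := by
    refine Finite.of_injective (β := {θ // θ ∈ fE.roots.toFinset})
      (fun i => ⟨i.1, (hmemΘ _).mpr i.2.1⟩) ?_
    intro i j hij
    exact Subtype.ext (congrArg (fun z : {θ // θ ∈ fE.roots.toFinset} => (z : algebraicClosure k Ω)) hij)
  have hnon : Nonempty {θ : algebraicClosure k Ω // aeval θ f = 0 ∧ θ ≠ θ₀} := by
    obtain ⟨θ, hθ, hne⟩ := Finset.exists_mem_ne (s := fE.roots.toFinset)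
      (by rw [hcard]; omega) θ₀
    exact ⟨⟨θ, (hmemΘ θ).mp hθ, hne⟩⟩
  letI : Fintype {θ : algebraicClosure k Ω // aeval θ f = 0 ∧ θ ≠ θ₀} := Fintype.ofFinite _
  have htr := transc_of_not_mem (incl k K Ω) (x := (xM - incl k K Ω θ₀)⁻¹) (by
    rintro ⟨e, he⟩
    apply hxne (e⁻¹ + θ₀)
    rw [map_add, map_inv₀, he, inv_inv]
    ring)
  obtain ⟨w, hw1, hw2, hw3, hw4⟩ := exists_place (incl k K Ω) ((xM - incl k K Ω θ₀)⁻¹) htr
    (fun i : {θ : algebraicClosure k Ω // aeval θ f = 0 ∧ θ ≠ θ₀} => (i.1 - θ₀)⁻¹) (by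
      intro i j hij
      exact Subtype.ext (sub_left_injective (inv_injective hij)))
    (fun i => R i) (fun i => (hR i.1 i.2.1 i.2.2).2)
  refine ⟨w, ?_, ?_, ?_, ?_⟩
  · rintro ⟨z, hz⟩ ⟨e, he⟩ hz0
    subst he
    refine hw1 e hz ?_
    rintro rfl
    exact hz0 (Subtype.ext (map_zero _))
  · intro z hz
    obtain ⟨e, he, h⟩ := hw3 z hz
    exact ⟨⟨incl k K Ω e, he⟩, ⟨e, rfl⟩, h⟩
  · rintro ⟨z, hz⟩ hzx
    have hXmem : (xM - incl k K Ω θ₀)⁻¹ ∈ layer (incl k K Ω) ((xM - incl k K Ω θ₀)⁻¹)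
      (fun i : {θ : algebraicClosure k Ω // aeval θ f = 0 ∧ θ ≠ θ₀} => R i) := layer_X _ _ _
    have h5 := hw2 hXmem
    have h6 : w ⟨z, hz⟩ * w ⟨_, hXmem⟩ = 1 := by
      rw [← map_mul]
      have : (⟨z, hz⟩ * ⟨_, hXmem⟩ : layer (incl k K Ω) ((xM - incl k K Ω θ₀)⁻¹)
        (fun i : {θ : algebraicClosure k Ω // aeval θ f = 0 ∧ θ ≠ θ₀} => R i)) = 1 := by
        apply Subtype.ext
        show z * (xM - incl k K Ω θ₀)⁻¹ = 1
        rw [show z = xM - incl k K Ω θ₀ from hzx, mul_inv_cancel₀ (hxne _)]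
      rw [this, map_one]
    by_contra hlt
    push Not at hlt
    have h7 : 1 < w ⟨z, hz⟩ * w ⟨_, hXmem⟩ := one_lt_mul_of_le_of_lt hlt h5
    rw [h6] at h7
    exact lt_irrefl _ h7
  · rintro g ⟨σ, rfl⟩ ⟨z, hz⟩
    have hσ0 := hσ σ
    obtain ⟨ζ, hζ, hRσ⟩ := hcom σ
    have hroot : ∀ θ, aeval (σ θ) f = 0 ↔ aeval θ f = 0 := by
      intro θ
      rw [aeval_algHom_apply, _root_.map_eq_zero]
    have hne : ∀ θ, σ θ ≠ θ₀ ↔ θ ≠ θ₀ := by
      intro θ
      refine not_congr ⟨fun h => σ.injective (h.trans hσ0.symm), ?_⟩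
      rintro rfl
      exact hσ0
    let π : Equiv.Perm {θ : algebraicClosure k Ω // aeval θ f = 0 ∧ θ ≠ θ₀} :=
      Equiv.Perm.subtypePerm (σ.toEquiv : Equiv.Perm (algebraicClosure k Ω)) (by
        intro θ
        show (aeval (σ θ) f = 0 ∧ σ θ ≠ θ₀) ↔ _
        rw [hroot, hne])
    obtain ⟨h8, h9⟩ := hw4 (s.act σ) σ.toRingEquiv π ζ hζ (fun e => act_incl s σ e)
      (fun i => hRσ i.1 i.2.1 i.2.2) z hz
    exact ⟨⟨_, h8⟩, rfl, h9⟩

end

/-- the same with the short names -/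
theorem place_names {k K Ω : Type*} [Field k] [CharZero k] [Field K] [Field Ω] [Algebra k K]
    [Algebra K Ω] [Algebra k Ω] [IsScalarTower k K Ω] [IsAlgClosure K Ω] (f : k[X]) (x y : K)
    (s : PiOneSection k K Ω) (a : ConstClosure k Ω)
    (hP : PlaceOn (Subfield.closure (Set.range (incl k K Ω) ∪
        {algebraMap K (univCover k K Ω) x, algebraMap K (univCover k K Ω) y} ∪
        {z | ∃ a b : algebraicClosure k Ω, aeval a f = 0 ∧ aeval b f = 0 ∧
          z ^ 2 = (algebraMap K (univCover k K Ω) x - incl k K Ω a) *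
            (algebraMap K (univCover k K Ω) x - incl k K Ω b)})) (incl k K Ω)
        (algebraMap K (univCover k K Ω) x - incl k K Ω a)
        {g | ∃ σ : algebraicClosure k Ω ≃ₐ[k] algebraicClosure k Ω, g = s.toData.act σ}) :
    ∃ w : Valuation (firstLayer Ω f x y) (WithZero (Multiplicative ℤ)),
      IsPointAt w a ∧ ∀ σ : AbsGal k Ω, Respects w (s.hom σ) := by
  have hclosed : IsAlgClosed Ω := IsAlgClosure.isAlgClosed K
  have halg : Algebra.IsAlgebraic K Ω := IsAlgClosure.isAlgebraic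
  have hset : (Set.range (incl k K Ω) ∪
        {algebraMap K (univCover k K Ω) x, algebraMap K (univCover k K Ω) y} ∪
        {z | ∃ a b : algebraicClosure k Ω, aeval a f = 0 ∧
          aeval b f = 0 ∧
          z ^ 2 = (algebraMap K (univCover k K Ω) x - incl k K Ω a) *
            (algebraMap K (univCover k K Ω) x - incl k K Ω b)} : Set (univCover k K Ω)) =
      ({z : UnivField k K Ω | IsConst z} ∪
    {algebraMap K (UnivField k K Ω) x, algebraMap K (UnivField k K Ω) y} ∪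
      {z : UnivField k K Ω | IsRootSqrt f x z} : Set (UnivField k K Ω)) := by
    congr 1
    · congr 1
      ext z
      constructor
      · rintro ⟨e, rfl⟩
        exact ⟨e, rfl⟩
      · rintro ⟨e, he⟩
        exact ⟨e, Subtype.ext he.symm⟩
    · ext z
      constructor
      · rintro ⟨a, b, ha, hb, hz⟩
        exact ⟨a, b, ha, hb, congrArg Subtype.val hz⟩
      · rintro ⟨a, b, ha, hb, hz⟩
        exact ⟨a, b, ha, hb, Subtype.ext hz⟩
  rw [hset] at hP
  obtain ⟨w, hw1, hw2, hw3, hw4⟩ := hP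
  refine ⟨w, ⟨?_, ?_, ?_⟩, ?_⟩
  · rintro z ⟨e, he⟩ hz0
    exact hw1 z ⟨e, Subtype.ext he.symm⟩ hz0
  · intro z hz
    obtain ⟨c, ⟨e, he⟩, h⟩ := hw2 z hz
    exact ⟨c, ⟨e, (congrArg Subtype.val he).symm⟩, h⟩
  · intro z hz
    exact hw3 z (Subtype.ext hz)
  · intro σ z
    exact hw4 (s.toData.act σ) ⟨σ, rfl⟩ z

end Pool.Agent.GFL
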