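import Mathlib
import Pool.Agent.SCY.Names
import Pool.Agent.WMS.Names2

/-!
GFL module NAMES (MP_896029_ag): definitions.
-/

set_option linter.dupNamespace false

namespace Pool.Agent.GFL

open Polynomial Pool.Agent.Helper36 Pool.Agent.SCY Pool.Agent.WMS

attribute [-instance] DivisionRing.toRatAlgebra

/-- The properties of `L`: it is a nonempty set of at most two rational roots of `f` (or four, if
`m = 4`), the section agrees modulo squares with all points `x = a`, `a ∈ L`, and if `m ≥ 4` and `L`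
has only one element `a` then `s` respects a place of the first layer at `x = a`. -/
def Explains (f : ℤ[X]) (m : ℕ) {K Ω : Type} [Field K] [Field Ω] [Algebra ℚ K] [Algebra K Ω]
    [Algebra ℚ Ω] [IsScalarTower ℚ K Ω] (x y : K) (s : PiOneSection ℚ K Ω) (L : Finset ℚ) : Prop :=
  L.Nonempty ∧ (L.card ≤ 2 ∨ (L.card = 4 ∧ m = 4)) ∧ (∀ a ∈ L, aeval a f = 0) ∧
    EqualModSquares f L ∧ AgreesOn f s x L ∧
    (4 ≤ m → ∀ a : ℚ, L = {a} →
      FollowsPoint (f.map (Int.castRingHom ℚ)) x y s Set.univ (algebraMap ℚ (ConstClosure ℚ Ω) a))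

/-- `d y ^ 2 = f(x)` has a section for which there is no such `L` -/
def HasUnexplained (f : ℤ[X]) (m : ℕ) (d : ℤ) : Prop :=
  ∃ (K Ω : Type) (_ : Field K) (_ : Field Ω) (_ : Algebra ℚ K) (_ : Algebra K Ω) (_ : Algebra ℚ Ω)
    (_ : IsScalarTower ℚ K Ω) (_ : IsAlgClosure K Ω) (x y : K), Transcendental ℚ x ∧
    (d : K) * y ^ 2 = aeval x f ∧ ∃ s : PiOneSection ℚ K Ω, ¬ ∃ L : Finset ℚ, Explains f m x y s L

/-- `d y ^ 2 = f(x)` has a section which agrees with `x = a` modulo squares, but respects no place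
of the first layer at `x = a` -/
def BadPlace (f : ℤ[X]) (a : ℚ) (d : ℤ) : Prop :=
  ∃ (K Ω : Type) (_ : Field K) (_ : Field Ω) (_ : Algebra ℚ K) (_ : Algebra K Ω)
    (_ : Algebra ℚ Ω) (_ : IsScalarTower ℚ K Ω) (_ : IsAlgClosure K Ω) (x y : K),
    Transcendental ℚ x ∧ (d : K) * y ^ 2 = aeval x f ∧ ∃ s : PiOneSection ℚ K Ω,
    AgreesOn f s x {a} ∧ ¬ FollowsPoint (f.map (Int.castRingHom ℚ)) x y s Set.univ
      (algebraMap ℚ (ConstClosure ℚ Ω) a)

/-- a set of integers of density zero, quantitatively -/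
def Sparse (S : Set ℤ) : Prop :=
  ∃ C κ : ℝ, 0 ≤ C ∧ 0 < κ ∧ ∀ N : ℕ, 2 ≤ N →
    (({d : ℤ | d ≠ 0 ∧ |d| ≤ N ∧ d ∈ S}.ncard : ℕ) : ℝ) ≤ C * N / (Real.log N) ^ κ

end Pool.Agent.GFL
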