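import Mathlib
import Pool.Agent.Helper19.Sec.Main

/-!
GFL module SHAP (MP_896029_ag): signs, globally and locally.

`shap`: let `Z = ∏ θ ∈ Θ, R θ`, `T θ = R θ * Z`.  `fr.ρ σ Z = ± Z` (σ permutes `Θ`), `fr.ρ σ (T θ) = ± T (σ θ)`.  In every orbit
of the group on `Θ` choose a representative; for `θ = ρ0 θ1` with `θ1` the representative put `ε θ = 1` if
`fr.ρ ρ0 (T θ1) = T θ` and `-1` otherwise: independent of `ρ0` because of `hfix` at `θ1`.  (Equivalently: define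
`R' θ * Z = fr.ρ ρ0 (T θ1)`.)  Then `fr.ρ σ (ε θ T θ) = ε (σ θ) T (σ θ)` for all `σ`, and with `R' θ = ε θ R θ`,
`fr.ρ σ Z = ζ Z`: `fr.ρ σ (R' θ) * ζ * Z = R' (σ θ) * Z`.

`loc_fix`: with `TV θ = RV θ * ∏ RV`: `fr.ρ σ (TV θ) = ζ * ζ ^ card * RV (σ θ) * ∏ RV = TV θ` as `card + 1` is even and `σ θ = θ`,
and `T θ = ± TV θ`.
-/

set_option autoImplicit false

namespace Pool.Agent.GFL

open Pool.Agent.Helper19.Sec

private theorem prod_pm {E M : Type*} [Field M] (Θ : Finset E) (A B : E → M)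
    (h : ∀ θ ∈ Θ, A θ = B θ ∨ A θ = - B θ) :
    ∏ θ ∈ Θ, A θ = ∏ θ ∈ Θ, B θ ∨ ∏ θ ∈ Θ, A θ = - ∏ θ ∈ Θ, B θ := by
  classical
  induction Θ using Finset.induction_on with
  | empty => simp
  | insert a s ha ih =>
    have h1 := ih (fun θ hθ => h θ (Finset.mem_insert_of_mem hθ))
    have h2 := h a (Finset.mem_insert_self a s)
    rw [Finset.prod_insert ha, Finset.prod_insert ha]
    rcases h1 with h1 | h1 <;> rcases h2 with h2 | h2 <;> rw [h1, h2]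
    · exact Or.inl rfl
    · exact Or.inr (by ring)
    · exact Or.inr (by ring)
    · exact Or.inl (by ring)

private theorem prod_perm {k E M : Type*} [Field k] [Field E] [Field M] [Algebra k E]
    (Θ : Finset E) (σ : E ≃ₐ[k] E) (hΘ : ∀ θ ∈ Θ, σ θ ∈ Θ) (B : E → M) :
    ∏ θ ∈ Θ, B (σ θ) = ∏ θ ∈ Θ, B θ := by
  classical
  have h1 : Θ.image σ = Θ := by
    apply Finset.eq_of_subset_of_card_le
    · intro x hx
      obtain ⟨y, hy, rfl⟩ := Finset.mem_image.1 hx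
      exact hΘ y hy
    · rw [Finset.card_image_of_injective Θ σ.injective]
  calc ∏ θ ∈ Θ, B (σ θ) = ∏ θ ∈ Θ.image σ, B θ :=
        (Finset.prod_image fun x _ y _ h => σ.injective h).symm
    _ = ∏ θ ∈ Θ, B θ := by rw [h1]

theorem shap {k E M : Type*} [Field k] [Field E] [Field M] [Algebra k E] (fr : Frame k E M)
    (Θ : Finset E) (hΘ : ∀ σ : E ≃ₐ[k] E, ∀ θ ∈ Θ, σ θ ∈ Θ) (R : E → M)
    (hR0 : ∀ θ ∈ Θ, R θ ≠ 0)
    (hR : ∀ σ : E ≃ₐ[k] E, ∀ θ ∈ Θ, fr.ρ σ (R θ) = R (σ θ) ∨ fr.ρ σ (R θ) = - R (σ θ))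
    (hfix : ∀ σ : E ≃ₐ[k] E, ∀ θ ∈ Θ, σ θ = θ →
      fr.ρ σ (R θ * ∏ θ' ∈ Θ, R θ') = R θ * ∏ θ' ∈ Θ, R θ') :
    ∃ R' : E → M, (∀ θ ∈ Θ, R' θ = R θ ∨ R' θ = - R θ) ∧
      ∀ σ : E ≃ₐ[k] E, ∃ ζ : M, (ζ = 1 ∨ ζ = -1) ∧ ∀ θ ∈ Θ, fr.ρ σ (R' θ) = ζ * R' (σ θ) := by
  classical
  set Z : M := ∏ θ' ∈ Θ, R θ' with hZ
  have hZ0 : Z ≠ 0 := Finset.prod_ne_zero_iff.2 hR0
  -- the action on `Z`
  have hρZ : ∀ σ : E ≃ₐ[k] E, fr.ρ σ Z = Z ∨ fr.ρ σ Z = - Z := by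
    intro σ
    have h1 : fr.ρ σ Z = ∏ θ ∈ Θ, fr.ρ σ (R θ) := map_prod (fr.ρ σ) _ _
    have h2 := prod_pm Θ (fun θ => fr.ρ σ (R θ)) (fun θ => R (σ θ)) (fun θ hθ => hR σ θ hθ)
    rw [prod_perm Θ σ (hΘ σ) R] at h2
    rw [h1]
    exact h2
  -- representatives
  let S : Setoid E :=
    { r := fun x y => ∃ σ : E ≃ₐ[k] E, σ x = y
      iseqv :=
        { refl := fun x => ⟨1, rfl⟩
          symm := by
            rintro x y ⟨σ, rfl⟩
            exact ⟨σ.symm, by simp⟩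
          trans := by
            rintro x y z ⟨σ, rfl⟩ ⟨τ, rfl⟩
            exact ⟨τ * σ, rfl⟩ } }
  let rep : E → E := fun x => (Quotient.mk S x).out
  have hrep : ∀ x, ∃ σ : E ≃ₐ[k] E, σ (rep x) = x := fun x => Quotient.mk_out (s := S) x
  have hrepσ : ∀ (σ : E ≃ₐ[k] E) x, rep (σ x) = rep x := by
    intro σ x
    have h1 : Quotient.mk S (σ x) = Quotient.mk S x :=
      Quotient.sound (s := S) (show ∃ τ : E ≃ₐ[k] E, τ (σ x) = x from ⟨σ.symm, by simp⟩)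
    show (Quotient.mk S (σ x)).out = (Quotient.mk S x).out
    rw [h1]
  choose g hg using hrep
  have hrepΘ : ∀ x ∈ Θ, rep x ∈ Θ := by
    intro x hx
    have h1 := hΘ (g x).symm x hx
    have h2 : (g x).symm x = rep x := by
      apply (g x).injective
      rw [hg x, AlgEquiv.apply_symm_apply]
    rwa [h2] at h1
  have hmul : ∀ (σ τ : E ≃ₐ[k] E) (m : M), fr.ρ σ (fr.ρ τ m) = fr.ρ (σ * τ) m := by
    intro σ τ m
    rw [map_mul]
    rfl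
  refine ⟨fun θ => fr.ρ (g θ) (R (rep θ) * Z) * Z⁻¹, ?_, ?_⟩
  · intro θ hθ
    have h1 := hR (g θ) (rep θ) (hrepΘ θ hθ)
    rw [hg θ] at h1
    have h2 := hρZ (g θ)
    have key : ∀ a : M, a * Z * Z⁻¹ = a := fun a => mul_inv_cancel_right₀ hZ0 a
    simp only [map_mul]
    rcases h1 with h1 | h1 <;> rcases h2 with h2 | h2 <;> rw [h1, h2]
    · exact Or.inl (key _)
    · right
      rw [mul_neg, neg_mul, key]
    · right
      rw [neg_mul, neg_mul, key]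
    · left
      rw [neg_mul_neg, key]
  · intro σ
    have hmain : ∀ θ ∈ Θ, fr.ρ σ (fr.ρ (g θ) (R (rep θ) * Z)) =
        fr.ρ (g (σ θ)) (R (rep (σ θ)) * Z) := by
      intro θ hθ
      rw [hrepσ σ θ, hmul]
      have h1 : ((g (σ θ))⁻¹ * (σ * g θ)) (rep θ) = rep θ := by
        have h2 : g (σ θ) (rep θ) = σ θ := by
          have h3 := hg (σ θ)
          rwa [hrepσ σ θ] at h3
        have h4 : (σ * g θ) (rep θ) = g (σ θ) (rep θ) := by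
          rw [h2]
          show σ (g θ (rep θ)) = σ θ
          rw [hg θ]
        show (g (σ θ))⁻¹ ((σ * g θ) (rep θ)) = rep θ
        rw [h4]
        show (g (σ θ)).symm (g (σ θ) (rep θ)) = rep θ
        simp
      have h5 := hfix _ (rep θ) (hrepΘ θ hθ) h1
      have h6 : σ * g θ = g (σ θ) * ((g (σ θ))⁻¹ * (σ * g θ)) := by group
      rw [h6, ← hmul, h5]
    rcases hρZ σ with h | h
    · refine ⟨1, Or.inl rfl, fun θ hθ => ?_⟩
      rw [map_mul, hmain θ hθ, map_inv₀, h, one_mul]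
    · refine ⟨-1, Or.inr rfl, fun θ hθ => ?_⟩
      rw [map_mul, hmain θ hθ, map_inv₀, h, inv_neg]
      ring

theorem loc_fix {k E M : Type*} [Field k] [Field E] [Field M] [Algebra k E] (fr : Frame k E M)
    (Θ : Finset E) (hodd : Odd Θ.card) (R RV : E → M)
    (hRV : ∀ θ ∈ Θ, RV θ = R θ ∨ RV θ = - R θ) (σ : E ≃ₐ[k] E) (hΘ : ∀ θ ∈ Θ, σ θ ∈ Θ)
    (ζ : M) (hζ : ζ = 1 ∨ ζ = -1) (h : ∀ θ ∈ Θ, fr.ρ σ (RV θ) = ζ * RV (σ θ)) (θ : E)
    (hθ : θ ∈ Θ) (hσ : σ θ = θ) :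
    fr.ρ σ (R θ * ∏ θ' ∈ Θ, R θ') = R θ * ∏ θ' ∈ Θ, R θ' := by
  have h1 : fr.ρ σ (∏ θ' ∈ Θ, RV θ') = ζ * ∏ θ' ∈ Θ, RV θ' := by
    rw [map_prod, Finset.prod_congr rfl h, Finset.prod_mul_distrib, Finset.prod_const,
      prod_perm Θ σ hΘ RV]
    congr 1
    rcases hζ with rfl | rfl
    · simp
    · exact hodd.neg_one_pow
  have hz : ζ * ζ = 1 := by rcases hζ with rfl | rfl <;> ring
  have h2 : fr.ρ σ (RV θ * ∏ θ' ∈ Θ, RV θ') = RV θ * ∏ θ' ∈ Θ, RV θ' := by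
    rw [map_mul, h1, h θ hθ, hσ]
    linear_combination (RV θ * ∏ θ' ∈ Θ, RV θ') * hz
  have h3 := prod_pm Θ RV R hRV
  have h4 := hRV θ hθ
  rcases h3 with h3 | h3 <;> rcases h4 with h4 | h4 <;> rw [h3, h4] at h2
  · exact h2
  · rw [neg_mul, map_neg] at h2
    exact neg_injective h2
  · rw [mul_neg, map_neg] at h2
    exact neg_injective h2
  · rwa [neg_mul_neg] at h2

end Pool.Agent.GFL
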