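import Mathlib
import Pool.Agent.GFL.Names
import Pool.Agent.GFL.ExR
import Pool.Agent.GFL.Shap
import Pool.Agent.Helper36.SecConv

/-!
GFL module CORB (MP_896029_ag): a section which respects no place at `x = a` moves some `T θ = R θ * ∏ R θ'` (helper43).

`sign_R`: `s.act σ` fixes `x` and maps `incl e` to `incl (σ e)`, and `σ a = a` (rational), so `(s.act σ (R θ)) ^ 2 =
(R (σ θ)) ^ 2`. `exists_move`: otherwise `shap`, `place_of_R` and `place_names` give the place.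
-/

set_option linter.dupNamespace false

namespace Pool.Agent.GFL

open Polynomial Pool.Agent.Helper36 Pool.Agent.Helper19.Sec Pool.Agent.WMS

attribute [-instance] DivisionRing.toRatAlgebra

theorem sign_R (f : ℚ[X]) {K Ω : Type} [Field K] [Field Ω] [Algebra ℚ K] [Algebra K Ω]
    [Algebra ℚ Ω] [IsScalarTower ℚ K Ω] [IsAlgClosed Ω] [Algebra.IsAlgebraic K Ω] (x : K)
    (s : SectionData ℚ K Ω) (a : ℚ)
    (R : algebraicClosure ℚ Ω → univCover ℚ K Ω)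
    (hR : ∀ θ : algebraicClosure ℚ Ω, aeval θ f = 0 → θ ≠ algebraMap ℚ _ a →
      R θ ≠ 0 ∧ IsR x (algebraMap ℚ (algebraicClosure ℚ Ω) a) θ (R θ))
    (σ : algebraicClosure ℚ Ω ≃ₐ[ℚ] algebraicClosure ℚ Ω)
    (θ : algebraicClosure ℚ Ω) (hθ : aeval θ f = 0) (hθa : θ ≠ algebraMap ℚ _ a) :
    (aeval (σ θ) f = 0 ∧ σ θ ≠ algebraMap ℚ _ a) ∧
      (s.act σ (R θ) = R (σ θ) ∨ s.act σ (R θ) = - R (σ θ)) := by
  have h1 : aeval (σ θ) f = 0 := by rw [aeval_algHom_apply, hθ, map_zero]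
  have h2 : σ θ ≠ algebraMap ℚ _ a := by
    intro h
    apply hθa
    apply σ.injective
    rw [h, σ.commutes]
  refine ⟨⟨h1, h2⟩, ?_⟩
  rw [← sq_eq_sq_iff_eq_or_eq_neg, ← map_pow]
  have h3 := (hR θ hθ hθa).2
  have h4 := (hR (σ θ) h1 h2).2
  rw [IsR] at h3 h4
  rw [h3, h4, map_sub, map_inv₀, map_sub, act_alg, act_incl, act_incl, map_inv₀, map_sub,
    σ.commutes]

theorem exists_move (f : ℤ[X]) (hsq : Squarefree (f.map (Int.castRingHom ℚ)))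
    (heven : Even f.natDegree) (h6 : 6 ≤ f.natDegree) {K Ω : Type} [Field K] [Field Ω]
    [Algebra ℚ K] [Algebra K Ω] [Algebra ℚ Ω] [IsScalarTower ℚ K Ω] [IsAlgClosure K Ω]
    [IsAlgClosed Ω] [Algebra.IsAlgebraic K Ω] (x y : K)
    (hx : Transcendental ℚ x) (d : ℤ) (hd : d ≠ 0) (hxy : (d : K) * y ^ 2 = aeval x f)
    (s : PiOneSection ℚ K Ω) (a : ℚ) (ha : aeval a f = 0)
    (hno : ¬ FollowsPoint (f.map (Int.castRingHom ℚ)) x y s Set.univ
      (algebraMap ℚ (ConstClosure ℚ Ω) a))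
    (R : algebraicClosure ℚ Ω → univCover ℚ K Ω)
    (hR : ∀ θ : algebraicClosure ℚ Ω, aeval θ (f.map (Int.castRingHom ℚ)) = 0 →
      θ ≠ algebraMap ℚ _ a → R θ ≠ 0 ∧ IsR x (algebraMap ℚ (algebraicClosure ℚ Ω) a) θ (R θ))
    (Θ : Finset (algebraicClosure ℚ Ω))
    (hΘ : ∀ θ, θ ∈ Θ ↔ aeval θ (f.map (Int.castRingHom ℚ)) = 0 ∧ θ ≠ algebraMap ℚ _ a) :
    ∃ σ : algebraicClosure ℚ Ω ≃ₐ[ℚ] algebraicClosure ℚ Ω, ∃ θ ∈ Θ, σ θ = θ ∧
      s.toData.act σ (R θ * ∏ θ' ∈ Θ, R θ') ≠ R θ * ∏ θ' ∈ Θ, R θ' := by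
  by_contra hcon
  push Not at hcon
  set fQ : ℚ[X] := f.map (Int.castRingHom ℚ) with hfQ
  have hinj : Function.Injective (Int.castRingHom ℚ) := Int.cast_injective
  have hdeg : fQ.natDegree = f.natDegree := natDegree_map_eq_of_injective hinj f
  have hsep : fQ.Separable := PerfectField.separable_iff_squarefree.2 hsq
  have hev : ∀ (L : Type) [Field L] [Algebra ℚ L] (z : L), aeval z fQ = aeval z f := by
    intro L _ _ z
    rw [aeval_def, aeval_def, hfQ, eval₂_map]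
    congr 1
    exact Subsingleton.elim _ _
  set θ₀ : algebraicClosure ℚ Ω := algebraMap ℚ (algebraicClosure ℚ Ω) a with hθ₀
  have hθ₀r : aeval θ₀ fQ = 0 := by
    rw [hθ₀, aeval_algebraMap_apply, hev ℚ a, ha, map_zero]
  obtain ⟨R', hR', hcom⟩ := shap (frameOf s.toData) Θ (fun σ θ hθ => by
      rw [hΘ] at hθ ⊢
      exact (sign_R fQ x s.toData a R hR σ θ hθ.1 hθ.2).1) R
    (fun θ hθ => (hR θ ((hΘ θ).1 hθ).1 ((hΘ θ).1 hθ).2).1)
    (fun σ θ hθ => (sign_R fQ x s.toData a R hR σ θ ((hΘ θ).1 hθ).1 ((hΘ θ).1 hθ).2).2)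
    (fun σ θ hθ h => hcon σ θ hθ h)
  have hP := place_of_R s.toData fQ hsep (by rw [hdeg]; exact heven) (by rw [hdeg]; exact h6)
    (d : ℚ) (by exact_mod_cast hd) x y hx (by rw [map_intCast, hxy, hev K x]) θ₀ hθ₀r
    (fun σ => σ.commutes a) R' (fun θ h1 h2 => by
      have h3 := hR θ h1 h2
      rcases hR' θ ((hΘ θ).2 ⟨h1, h2⟩) with h4 | h4
      · rw [h4]; exact h3
      · rw [h4]
        refine ⟨neg_ne_zero.2 h3.1, ?_⟩
        have h5 := h3.2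
        rw [IsR] at h5 ⊢
        rw [neg_sq]
        exact h5)
    (fun σ => by
      obtain ⟨ζ, hζ, h⟩ := hcom σ
      exact ⟨ζ, hζ, fun θ h1 h2 => h θ ((hΘ θ).2 ⟨h1, h2⟩)⟩)
  obtain ⟨w, hw, hres⟩ := place_names fQ x y s θ₀ hP
  exact hno ((followsPoint_iff fQ x y s Set.univ _).2 ⟨w, hw, fun σ _ => hres σ⟩)

end Pool.Agent.GFL
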