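import Mathlib
import Pool.Agent.GFL.Names

/-!
GFL module CORD (MP_896029_ag): finite unions of sparse sets.

Proof.  `log N ≥ log 2 > 0`; if `κ ≤ κ'` then `1 / (log N) ^ κ' ≤ (log 2) ^ (κ - κ') / (log N) ^ κ`.  Induction on the finite set.
-/

set_option linter.dupNamespace false

namespace Pool.Agent.GFL

private lemma cord_fin (S : Set ℤ) (N : ℕ) :
    {d : ℤ | d ≠ 0 ∧ |d| ≤ N ∧ d ∈ S}.Finite := by
  refine (Set.finite_Icc (-(N : ℤ)) N).subset ?_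
  rintro d ⟨-, h, -⟩
  exact abs_le.1 h

theorem sparse_mono {S T : Set ℤ} (hT : Sparse T) (h : ∀ d ∈ S, d ≠ 0 → d ∈ T) : Sparse S := by
  obtain ⟨C, κ, hC, hκ, hb⟩ := hT
  refine ⟨C, κ, hC, hκ, fun N hN => le_trans ?_ (hb N hN)⟩
  have h1 : {d : ℤ | d ≠ 0 ∧ |d| ≤ N ∧ d ∈ S}.ncard ≤ {d : ℤ | d ≠ 0 ∧ |d| ≤ N ∧ d ∈ T}.ncard := by
    refine Set.ncard_le_ncard ?_ (cord_fin T N)
    rintro d ⟨h0, h2, h3⟩
    exact ⟨h0, h2, h d h3 h0⟩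
  exact_mod_cast h1

private lemma cord_bound {C κ κ' : ℝ} (hC : 0 ≤ C) (h : κ ≤ κ') {N : ℕ} (hN : 2 ≤ N) :
    C * N / (Real.log N) ^ κ' ≤ C * (Real.log 2) ^ (κ - κ') * N / (Real.log N) ^ κ := by
  have h2 : 0 < Real.log 2 := Real.log_pos (by norm_num)
  have hNr : (2 : ℝ) ≤ N := by exact_mod_cast hN
  have hl : Real.log 2 ≤ Real.log N := Real.log_le_log (by norm_num) hNr
  have hp : 0 < Real.log N := lt_of_lt_of_le h2 hl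
  have h3 : (Real.log N) ^ (κ - κ') ≤ (Real.log 2) ^ (κ - κ') :=
    Real.rpow_le_rpow_of_nonpos h2 hl (by linarith)
  have h4 : C * N / (Real.log N) ^ κ' = C * (Real.log N) ^ (κ - κ') * N / (Real.log N) ^ κ := by
    rw [Real.rpow_sub hp]
    have e1 : (Real.log N) ^ κ ≠ 0 := (Real.rpow_pos_of_pos hp _).ne'
    have e2 : (Real.log N) ^ κ' ≠ 0 := (Real.rpow_pos_of_pos hp _).ne'
    field_simp
  rw [h4]
  have h5 : 0 < (Real.log N) ^ κ := Real.rpow_pos_of_pos hp _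
  apply div_le_div_of_nonneg_right _ h5.le
  have h6 : (0 : ℝ) ≤ N := by linarith
  exact mul_le_mul_of_nonneg_right (mul_le_mul_of_nonneg_left h3 hC) h6

private lemma cord_union {S T : Set ℤ} (hS : Sparse S) (hT : Sparse T) : Sparse (S ∪ T) := by
  obtain ⟨C₁, κ₁, hC₁, hκ₁, hb₁⟩ := hS
  obtain ⟨C₂, κ₂, hC₂, hκ₂, hb₂⟩ := hT
  have h2 : 0 < Real.log 2 := Real.log_pos (by norm_num)
  refine ⟨C₁ * (Real.log 2) ^ (min κ₁ κ₂ - κ₁) + C₂ * (Real.log 2) ^ (min κ₁ κ₂ - κ₂), min κ₁ κ₂,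
    by positivity, lt_min hκ₁ hκ₂, fun N hN => ?_⟩
  have h3 := (hb₁ N hN).trans (cord_bound hC₁ (min_le_left κ₁ κ₂) hN)
  have h4 := (hb₂ N hN).trans (cord_bound hC₂ (min_le_right κ₁ κ₂) hN)
  have h5 : {d : ℤ | d ≠ 0 ∧ |d| ≤ N ∧ d ∈ S ∪ T} =
      {d : ℤ | d ≠ 0 ∧ |d| ≤ N ∧ d ∈ S} ∪ {d : ℤ | d ≠ 0 ∧ |d| ≤ N ∧ d ∈ T} := by
    ext d
    constructor
    · rintro ⟨h0, h1, h2 | h2⟩
      · exact Or.inl ⟨h0, h1, h2⟩
      · exact Or.inr ⟨h0, h1, h2⟩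
    · rintro (⟨h0, h1, h2⟩ | ⟨h0, h1, h2⟩)
      · exact ⟨h0, h1, Or.inl h2⟩
      · exact ⟨h0, h1, Or.inr h2⟩
  have h6 : (({d : ℤ | d ≠ 0 ∧ |d| ≤ N ∧ d ∈ S ∪ T}.ncard : ℕ) : ℝ) ≤
      ({d : ℤ | d ≠ 0 ∧ |d| ≤ N ∧ d ∈ S}.ncard : ℕ) +
        ({d : ℤ | d ≠ 0 ∧ |d| ≤ N ∧ d ∈ T}.ncard : ℕ) := by
    rw [h5]
    exact_mod_cast Set.ncard_union_le _ _
  refine h6.trans ((add_le_add h3 h4).trans (le_of_eq ?_))
  ring

theorem sparse_union {ι : Type*} (I : Finset ι) (S : ι → Set ℤ) (h : ∀ i ∈ I, Sparse (S i)) :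
    Sparse {d | ∃ i ∈ I, d ∈ S i} := by
  classical
  induction I using Finset.induction_on with
  | empty =>
    refine ⟨0, 1, le_rfl, one_pos, fun N _ => ?_⟩
    have : {d : ℤ | d ≠ 0 ∧ |d| ≤ N ∧ d ∈ {d | ∃ i ∈ (∅ : Finset ι), d ∈ S i}} = ∅ := by
      ext d
      simp
    rw [this]
    simp
  | insert a I _ ih =>
    have h1 : Sparse {d | ∃ i ∈ I, d ∈ S i} := ih fun i hi => h i (Finset.mem_insert_of_mem hi)
    refine sparse_mono (cord_union (h a (Finset.mem_insert_self a I)) h1) ?_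
    rintro d ⟨i, hi, hd⟩ -
    rcases Finset.mem_insert.1 hi with rfl | hi
    · exact Or.inl hd
    · exact Or.inr ⟨i, hi, hd⟩

end Pool.Agent.GFL
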