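import Mathlib

/-!
GFL module EXT (MP_896029_ag): extension of the valuation of a prime ideal of a number field.

Proof.  Let `O` be the valuation ring of `v` in `F`, a local ring; there is a valuation ring `V` of `E` which dominates its
image under `j` (`IsLocalRing.exists_factor_valuationRing`).  If `v z ≤ 1` then `j z ∈ V`.  If `v z > 1` and `j z ∈ V` then
`z⁻¹` is in `O` and its image is a unit of `V`, so `z⁻¹` is a unit of `O` and `z ∈ O`.
-/

set_option autoImplicit false

namespace Pool.Agent.GFL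

open NumberField IsDedekindDomain

theorem exists_ext {F E : Type*} [Field F] [NumberField F] [Field E] (j : F →+* E)
    (v : HeightOneSpectrum (𝓞 F)) :
    ∃ V : ValuationSubring E, ∀ z : F, j z ∈ V ↔ v.valuation F z ≤ 1 := by
  obtain ⟨V, h, hl⟩ := IsLocalRing.exists_factor_valuationRing
    (j.comp (v.valuation F).valuationSubring.subtype)
  have hmem : ∀ z : F, v.valuation F z ≤ 1 → j z ∈ V := fun z hz => h ⟨z, hz⟩
  refine ⟨V, fun z => ⟨fun hz => ?_, hmem z⟩⟩
  by_contra hcon
  push Not at hcon
  have hz0 : z ≠ 0 := by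
    rintro rfl
    rw [map_zero] at hcon
    exact absurd hcon (by simp)
  have hinv : v.valuation F z⁻¹ < 1 := by
    rw [map_inv₀]
    exact inv_lt_one_of_one_lt₀ hcon
  -- `z⁻¹` is a unit of the image
  obtain ⟨w, hw⟩ : ∃ w : (v.valuation F).valuationSubring, w = ⟨z⁻¹, hinv.le⟩ := ⟨_, rfl⟩
  have hu : IsUnit ((j.comp (v.valuation F).valuationSubring.subtype).codRestrict V.toSubring h w) := by
    refine IsUnit.of_mul_eq_one ⟨j z, hz⟩ ?_
    apply Subtype.ext
    show j (w : F) * j z = 1
    rw [hw, ← map_mul]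
    show j (z⁻¹ * z) = 1
    rw [inv_mul_cancel₀ hz0, map_one]
  have hu2 : IsUnit w := hl.map_nonunit w hu
  obtain ⟨w', hw'⟩ := hu2.exists_right_inv
  have h3 : (w : F) * (w' : F) = 1 := congrArg Subtype.val hw'
  have h4 : (w' : F) = z := by
    rw [hw] at h3
    have h5 : z⁻¹ * (w' : F) = 1 := h3
    field_simp at h5
    exact h5
  have h5 : v.valuation F (w' : F) ≤ 1 := w'.2
  rw [h4] at h5
  exact absurd h5 (not_le.2 hcon)

end Pool.Agent.GFL
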