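import Mathlib

/-!
GFL module FROB (MP_896029_ag): a square root fixed by a Frobenius lift.

Proof.  In the residue field `κ` of `V`: `w ^ 2 = δ = ψ δ` (an element of the prime field) and `w ^ q = w`, so `(ψ δ) ^ (q / 2) = 1` if
`ψ δ ≠ 0`, and Euler's criterion.
-/

set_option autoImplicit false

namespace Pool.Agent.GFL

open NumberField

private theorem int_mem {F E : Type*} [Field F] [NumberField F] [Field E] (j : F →+* E)
    (V : ValuationSubring E) (z : 𝓞 F) : j z ∈ V := by
  have h1 : IsIntegral ℤ (j z) := by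
    have h2 : IsIntegral ℤ (z : F) := z.2
    exact map_isIntegral_int j h2
  have h3 : IsIntegral V (j z) := by
    obtain ⟨p, hp, hp0⟩ := h1
    refine ⟨p.map (algebraMap ℤ V), hp.map _, ?_⟩
    have h4 : (algebraMap V E).comp (algebraMap ℤ V) = algebraMap ℤ E := RingHom.ext_int _ _
    rw [Polynomial.eval₂_map, h4]
    exact hp0
  obtain ⟨y, hy⟩ := IsIntegrallyClosed.isIntegral_iff.mp h3
  rw [← hy]
  exact y.2

theorem frob_sq {F E : Type*} [Field F] [NumberField F] [Field E] (j : F →+* E) (q : ℕ)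
    (hq : q.Prime) (hq2 : q ≠ 2) (ψ : 𝓞 F →+* ZMod q) (V : ValuationSubring E)
    (hψ : ∀ z : 𝓞 F, ψ z = 0 → V.valuation (j z) < 1) (φ : E →+* E)
    (hφ : ∀ z : E, z ∈ V → V.valuation (φ z - z ^ q) < 1) (δ : 𝓞 F) (w : E)
    (hw : w ^ 2 = j δ) (hφw : φ w = w) : IsSquare (ψ δ) := by
  have : Fact q.Prime := ⟨hq⟩
  by_cases h0 : ψ δ = 0
  · rw [h0]
    exact IsSquare.zero
  have hwV : w ∈ V := by
    rw [← V.valuation_le_one_iff]
    have h1 : V.valuation (w ^ 2) ≤ 1 := by
      rw [hw, V.valuation_le_one_iff]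
      exact int_mem j V δ
    rw [map_pow] at h1
    by_contra h2
    push Not at h2
    exact absurd h1 (not_le.mpr (one_lt_pow₀ h2 two_ne_zero))
  -- reduction to the residue field
  let r : V →+* IsLocalRing.ResidueField V := IsLocalRing.residue V
  have hr : ∀ z : V, V.valuation (z : E) < 1 → r z = 0 := by
    intro z hz
    exact (IsLocalRing.residue_eq_zero_iff z).mpr ((V.valuation_lt_one_iff z).mpr hz)
  have hqκ : ((q : ℕ) : IsLocalRing.ResidueField V) = 0 := by
    have h1 : V.valuation (j ((q : ℕ) : 𝓞 F)) < 1 := hψ _ (by rw [map_natCast, ZMod.natCast_self])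
    have h2 : r ((q : ℕ) : V) = 0 := by
      apply hr
      have h3 : j (((q : ℕ) : 𝓞 F) : F) = ((q : ℕ) : E) := by
        have h4 : (((q : ℕ) : 𝓞 F) : F) = ((q : ℕ) : F) := by
          exact map_natCast (algebraMap (𝓞 F) F) q
        rw [h4, map_natCast]
      rw [h3] at h1
      have h5 : (((q : ℕ) : V) : E) = ((q : ℕ) : E) := by
        exact map_natCast V.subtype q
      rw [h5]
      exact h1
    rw [map_natCast] at h2
    exact h2
  have : CharP (IsLocalRing.ResidueField V) q := by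
    exact (CharP.charP_iff_prime_eq_zero hq).mpr hqκ
  let c : ZMod q →+* IsLocalRing.ResidueField V := ZMod.castHom (dvd_refl q) _
  -- the element `δ`
  let δV : V := ⟨j δ, int_mem j V δ⟩
  have hδ : r δV = c (ψ δ) := by
    have h1 : ψ (δ - (((ψ δ).val : ℕ) : 𝓞 F)) = 0 := by
      rw [map_sub, map_natCast, ZMod.natCast_zmod_val, sub_self]
    have h2 := hψ _ h1
    have h3 : r (δV - (((ψ δ).val : ℕ) : V)) = 0 := by
      apply hr
      have h4 : (((δV - (((ψ δ).val : ℕ) : V)) : V) : E) =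
          j ((δ - (((ψ δ).val : ℕ) : 𝓞 F) : 𝓞 F) : F) := by
        have h5 : (((δ - (((ψ δ).val : ℕ) : 𝓞 F) : 𝓞 F)) : F) = (δ : F) - (((ψ δ).val : ℕ) : F) := by
          show algebraMap (𝓞 F) F (δ - (((ψ δ).val : ℕ) : 𝓞 F)) = _
          rw [map_sub, map_natCast]
        rw [h5, map_sub, map_natCast]
        have h6 : ((((ψ δ).val : ℕ) : V) : E) = (((ψ δ).val : ℕ) : E) := map_natCast V.subtype _
        push_cast
        rfl
      rw [h4]
      exact h2
    rw [map_sub, map_natCast, sub_eq_zero] at h3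
    rw [h3]
    have h7 : c (ψ δ) = c (((ψ δ).val : ℕ) : ZMod q) := by rw [ZMod.natCast_zmod_val]
    rw [h7, map_natCast]
  let wV : V := ⟨w, hwV⟩
  have hw2 : r wV ^ 2 = c (ψ δ) := by
    rw [← hδ, ← map_pow]
    congr 1
    exact Subtype.ext hw
  have hwq : r wV ^ q = r wV := by
    have h1 := hφ w hwV
    rw [hφw] at h1
    have h2 : r (wV - wV ^ q) = 0 := by
      apply hr
      exact h1
    rw [map_sub, map_pow, sub_eq_zero] at h2
    exact h2.symm
  have hc0 : c (ψ δ) ≠ 0 := by
    intro h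
    exact h0 ((map_eq_zero c).mp h)
  have hw0 : r wV ≠ 0 := by
    intro h
    rw [h] at hw2
    exact hc0 (by rw [← hw2]; ring)
  rw [ZMod.euler_criterion q h0]
  apply c.injective
  rw [map_pow, map_one, ← hw2, ← pow_mul]
  have hodd : q % 2 = 1 := by
    rcases hq.eq_two_or_odd with h | h
    · exact absurd h hq2
    · exact h
  have h8 : 2 * (q / 2) + 1 = q := by omega
  have h9 : r wV ^ (2 * (q / 2)) * r wV = 1 * r wV := by
    rw [← pow_succ, h8, one_mul]
    exact hwq
  exact mul_right_cancel₀ hw0 h9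

end Pool.Agent.GFL
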