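import Mathlib
import Pool.Agent.WMS.UnrV
import Pool.Agent.WMS.LocalF

/-!
GFL module VAL (MP_896029_ag): an element `b` with `b ^ 2` in the field of the roots, fixed by the inertia element `τ`, has a square of
even valuation.

Proof.  `val_unram` (WMS/UnrV): `V (b ^ 2) = V ϖ ^ j`.  If `j = 2 i` done.  If `j = 2 i + 1` let `c = b / (ϖ ^ i * t)`: `V (c) ^ 2 = 1`,
so `V c = 1` (`pow_eq_one_iff_of_nonneg`), and `τ c = - c` (`τ b = b`, `τ t = - t`, `τ` fixes `k`); `hl.hτ c`: `V (τ c - c) < 1`, but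
`V (τ c - c) = V (2) * V (c) = 1` (`hl.v2`).
-/

set_option autoImplicit false

namespace Pool.Agent.GFL

open Polynomial Pool.Agent.Helper19.Sec Pool.Agent.WMS IsLocalRing

theorem val_even {A k E : Type*} [CommRing A] [IsDomain A] [IsDiscreteValuationRing A]
    [Finite (ResidueField A)] [Field k] [CharZero k] [Algebra A k]
    [IsFractionRing A k] [Field E] [Algebra k E] [IsAlgClosure k E]
    (V : ValuationSubring E)
    (hV : ∀ a : k, algebraMap k E a ∈ V ↔ ∃ b : A, algebraMap A k b = a)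
    (f : A[X]) (hlead : IsUnit f.leadingCoeff) (hsep : (f.map (residue A)).Separable)
    (ϖ : A) (hϖ : Irreducible ϖ) (t : E) (ht : t ^ 2 = algebraMap k E (algebraMap A k ϖ))
    (φ τ : E ≃ₐ[k] E) (q : ℕ)
    (hl : IsLoc V.valuation (φ : E →+* E) (τ : E →+* E) q) (hτt : τ t = - t)
    (b : E) (hb0 : b ≠ 0)
    (hb : b ^ 2 ∈ IntermediateField.adjoin k {θ : E | aeval θ (f.map (algebraMap A k)) = 0})
    (hτb : τ b = b) :
    ∃ i : ℤ, V.valuation (b ^ 2) =
      V.valuation (algebraMap k E (algebraMap A k ϖ)) ^ (2 * i) := by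
  have hAlg : Algebra.IsAlgebraic k E := IsAlgClosure.isAlgebraic
  set P : E := algebraMap k E (algebraMap A k ϖ) with hP
  have hP0 : P ≠ 0 := by
    rw [hP]
    intro h
    have h1 : algebraMap A k ϖ = 0 := (map_eq_zero (algebraMap k E)).1 h
    exact hϖ.ne_zero ((IsFractionRing.injective A k) (by rw [h1, map_zero]))
  have ht0 : t ≠ 0 := by
    intro h
    rw [h] at ht
    apply hP0
    rw [← ht]
    ring
  obtain ⟨j, hj⟩ := val_unram V hV ϖ hϖ f hlead hsep (b ^ 2) hb (pow_ne_zero 2 hb0)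
  rcases Int.even_or_odd' j with ⟨i, rfl | rfl⟩
  · exact ⟨i, hj⟩
  · exfalso
    set c : E := b / (P ^ i * t) with hc
    have hc2 : c ^ 2 = b ^ 2 / P ^ (2 * i + 1) := by
      rw [hc, div_pow, mul_pow, ht, zpow_add₀ hP0, zpow_one, mul_comm 2 i, zpow_mul]
      norm_cast
    have hVc2 : V.valuation c ^ 2 = 1 := by
      rw [← map_pow, hc2, map_div₀, hj, map_zpow₀, div_self]
      exact zpow_ne_zero _ ((Valuation.ne_zero_iff _).2 hP0)
    have hVc : V.valuation c = 1 := (pow_eq_one_iff_of_nonneg zero_le (by norm_num)).1 hVc2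
    have hτP : τ P = P := by
      rw [hP]
      exact τ.commutes _
    have hτc : τ c = -c := by
      rw [hc, map_div₀, map_mul, map_zpow₀, hτP, hτt, hτb, mul_neg, div_neg]
    have h1 := hl.hτ c hVc.le
    have h2 : (τ : E →+* E) c = -c := hτc
    have h3 : -c - c = -(2 * c) := by ring
    rw [h2, h3, Valuation.map_neg, map_mul, hl.v2, hVc, one_mul] at h1
    exact lt_irrefl _ h1

end Pool.Agent.GFL
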