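import Mathlib
import Pool.Agent.SCT.QLoc
import Pool.Agent.Helper19.Sec.Global
import Pool.Agent.GFL.Loc
import Pool.Agent.GFL.Val

/-!
GFL module LOCQ (MP_896029_ag): the local statements at the valuation rings of the algebraic closure of `ℚ` above a large prime `q`.

Proof.  `B` is large: `B ≥ 2`, `B ≥ |lead f|`, and for `q > B` the reduction of `f` modulo `q` is separable (`exists_sep_bound`, see
SCX/ArithT.lean).  For a prime `q > B` let `A = Localization.AtPrime (q)` with fraction field `ℚ`, exactly as in the proof of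
`exists_local_int` (SCT/QLoc.lean: discrete valuation ring, finite residue field with `q` elements, `2` a unit, `ϖ = q` irreducible).
* `hV` for `V` with `V (q) < 1`: for `c : ℚ`, `c ∈ V` iff `c` is in the image of `A`: integers lie in `V`, integers prime to `q` are
  units of `V` (Bezout), and `1 / q ∉ V`.
* `f_A = f.map (ℤ → A)`: `f_A.map (A → ℚ) = f.map (ℤ → ℚ)`, leading coefficient a unit, separable reduction (the residue field is
  `ZMod q` up to isomorphism, or: `f.map (ℤ → κ)` factors through `ZMod q → κ`, and separability is preserved by `Polynomial.map`).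
* `d = u * q ^ n` in `A` with `n = padicValInt q d` and `u` a unit.
* (1) `loc_ram`; (2) `exists_localV` with `t ^ 2 = q` gives `φ, τ`; `loc_tau` and the hypothesis on `b` (`τ θ = θ` as in
  `exists_conf`) give `τ b = b`; `val_even` (`adjoin {θ} ≤ adjoin` of all roots); (3) the same `φ` (`hl.vφ`, `hl.hφ`);
  (4), (5) `roots_facts`.
-/

set_option linter.dupNamespace false

namespace Pool.Agent.GFL

open Polynomial Pool.Agent.Helper36 Pool.Agent.Helper19.Sec Pool.Agent.WMS Pool.Agent.SCT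
open IsLocalRing (ResidueField residue)

attribute [-instance] DivisionRing.toRatAlgebra

section pack

variable {A k K Ω : Type*} [CommRing A] [IsDomain A] [IsDiscreteValuationRing A]
    [Finite (ResidueField A)] [Field k] [CharZero k] [Algebra A k]
    [IsFractionRing A k] [Field K] [Field Ω] [Algebra k K] [Algebra K Ω] [Algebra k Ω]
    [IsScalarTower k K Ω] [IsAlgClosed Ω] [Algebra.IsAlgebraic K Ω]

theorem loc_pack (h2 : IsUnit (2 : A)) (f : A[X]) (heven : Even f.natDegree)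
    (h6 : 6 ≤ f.natDegree) (hlead : IsUnit f.leadingCoeff)
    (hsep : (f.map (residue A)).Separable)
    (ϖ : A) (hϖ : Irreducible ϖ) (u : A) (hu : IsUnit u) (n : ℕ) (x y : K)
    (hx : Transcendental k x)
    (hxy : algebraMap k K (algebraMap A k (u * ϖ ^ n)) * y ^ 2 =
      aeval x (f.map (algebraMap A k)))
    (V : ValuationSubring (algebraicClosure k Ω))
    (hV : ∀ a : k, algebraMap k (algebraicClosure k Ω) a ∈ V ↔ ∃ b : A, algebraMap A k b = a)
    (s : SectionData k K Ω) (a : algebraicClosure k Ω)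
    (ha : aeval a (f.map (algebraMap A k)) = 0)
    (hS : HasSets s (f.map (algebraMap A k)) x a)
    (R : algebraicClosure k Ω → univCover k K Ω)
    (hR : ∀ θ : algebraicClosure k Ω, aeval θ (f.map (algebraMap A k)) = 0 → θ ≠ a →
      R θ ≠ 0 ∧ IsR x a θ (R θ))
    (Θ : Finset (algebraicClosure k Ω))
    (hΘ : ∀ θ, θ ∈ Θ ↔ aeval θ (f.map (algebraMap A k)) = 0 ∧ θ ≠ a) :
    (Odd n → ∀ σ : algebraicClosure k Ω ≃ₐ[k] algebraicClosure k Ω, (∀ z, z ∈ V ↔ σ z ∈ V) →
        ∀ θ ∈ Θ, σ θ = θ →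
          s.act σ (R θ * ∏ θ' ∈ Θ, R θ') = R θ * ∏ θ' ∈ Θ, R θ') ∧
      (∀ b : algebraicClosure k Ω, ∀ θ ∈ Θ, b ≠ 0 → b ^ 2 ∈ IntermediateField.adjoin k {θ} →
        (∀ σ : algebraicClosure k Ω ≃ₐ[k] algebraicClosure k Ω, σ θ = θ →
          (s.act σ (R θ * ∏ θ' ∈ Θ, R θ') = R θ * ∏ θ' ∈ Θ, R θ' ↔ σ b = b)) →
        ∃ i : ℤ, V.valuation (b ^ 2) =
          V.valuation (algebraMap k (algebraicClosure k Ω) (algebraMap A k ϖ)) ^ (2 * i)) ∧
      (∃ φ : algebraicClosure k Ω ≃ₐ[k] algebraicClosure k Ω, (∀ z, z ∈ V ↔ φ z ∈ V) ∧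
        ∀ z, z ∈ V → V.valuation (φ z - z ^ Nat.card (ResidueField A)) < 1) ∧
      (∀ θ : algebraicClosure k Ω, aeval θ (f.map (algebraMap A k)) = 0 →
        V.valuation θ ≤ 1) ∧
      (∀ θ θ' : algebraicClosure k Ω, aeval θ (f.map (algebraMap A k)) = 0 →
        aeval θ' (f.map (algebraMap A k)) = 0 → θ ≠ θ' → V.valuation (θ - θ') = 1) := by
  have hclE : IsAlgClosed (algebraicClosure k Ω) :=
    IsAlgClosure.isAlgClosed k
  obtain ⟨hfs, hint, hdist⟩ := roots_facts V hV f hlead hsep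
  obtain ⟨t, ht⟩ := IsAlgClosed.exists_pow_nat_eq
    (algebraMap k (algebraicClosure k Ω) (algebraMap A k ϖ)) (n := 2) (by norm_num)
  obtain ⟨φ, τ, hl, hτt⟩ := exists_localV h2 ϖ hϖ t ht V hV
  refine ⟨?_, ?_, ⟨φ, ?_, ?_⟩, hint, hdist⟩
  · intro hn σ hσ θ hθ hσθ
    exact loc_ram h2 f heven h6 hlead hsep ϖ hϖ u hu n hn x y hx hxy V hV s a ha hS R hR Θ hΘ
      σ hσ θ hθ hσθ
  · intro b θ hθ hb0 hb hσ
    have hroot : aeval θ (f.map (algebraMap A k)) = 0 := ((hΘ θ).mp hθ).1
    have h1 : τ θ = θ := tau_root hl (f.map (algebraMap A k)) hint hdist θ hroot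
    have h3 : s.act τ (R θ * ∏ θ' ∈ Θ, R θ') = R θ * ∏ θ' ∈ Θ, R θ' :=
      loc_tau h2 f heven h6 hlead hsep ϖ hϖ u hu n x y hx hxy V hV s a ha hS R hR Θ hΘ φ τ _ hl
        t ht hτt θ hθ
    have h4 : τ b = b := (hσ τ h1).mp h3
    refine val_even V hV f hlead hsep ϖ hϖ t ht φ τ _ hl hτt b hb0 ?_ h4
    refine IntermediateField.adjoin.mono k _ _ ?_ hb
    intro z hz
    rw [Set.mem_singleton_iff] at hz
    subst hz
    exact hroot
  · intro z
    rw [← ValuationSubring.valuation_le_one_iff, ← ValuationSubring.valuation_le_one_iff]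
    have h5 := hl.vφ z
    have h6' : V.valuation (φ z) = V.valuation z := h5
    rw [h6']
  · intro z hz
    have h5 := hl.hφ z ((V.valuation_le_one_iff z).mpr hz)
    exact h5

end pack

/-- the localization of `ℤ` at `q` -/
theorem exists_A (q : ℕ) (hq : q.Prime) :
    ∃ (A : Type) (_ : CommRing A) (_ : IsDomain A) (_ : IsDiscreteValuationRing A)
      (_ : Algebra A ℚ) (_ : IsFractionRing A ℚ),
      Finite (ResidueField A) ∧ Nat.card (ResidueField A) = q ∧
      Irreducible ((q : ℤ) : A) ∧ (∀ z : ℤ, ¬ (q : ℤ) ∣ z → IsUnit (z : A)) ∧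
      (∀ b : A, ∃ z w : ℤ, ¬ (q : ℤ) ∣ w ∧ b * (w : A) = (z : A)) ∧
      Nonempty (ZMod q ≃+* ResidueField A) := by
  have hqf : Fact q.Prime := ⟨hq⟩
  let P : Ideal ℤ := Ideal.span {(q : ℤ)}
  have hpZ : Prime (q : ℤ) := Nat.prime_iff_prime_int.mp hq
  have hP0 : P ≠ ⊥ := by
    rw [Ne, Ideal.span_singleton_eq_bot]
    exact hpZ.ne_zero
  have hPprime : P.IsPrime := (Ideal.span_singleton_prime hpZ.ne_zero).mpr hpZ
  have hPmax : P.IsMaximal := hPprime.isMaximal hP0
  let A := Localization.AtPrime P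
  have hmemP : ∀ z : ℤ, z ∈ P ↔ (q : ℤ) ∣ z := fun z => Ideal.mem_span_singleton
  have hle : P.primeCompl ≤ nonZeroDivisors ℤ := P.primeCompl_le_nonZeroDivisors
  let _ : Algebra A ℚ := (IsLocalization.lift (M := P.primeCompl) (S := A)
    (g := Int.castRingHom ℚ) (by
      intro z
      have : (z : ℤ) ≠ 0 := nonZeroDivisors.ne_zero (hle z.2)
      simpa using this)).toAlgebra
  have htow : ∀ z : ℤ, algebraMap ℤ ℚ z = algebraMap A ℚ (algebraMap ℤ A z) := by
    intro z
    rw [RingHom.algebraMap_toAlgebra (R := A) (S := ℚ), IsLocalization.lift_eq]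
    rfl
  have htower := IsScalarTower.of_algebraMap_eq (R := ℤ) (S := A) (A := ℚ) htow
  have hfrac : IsFractionRing A ℚ :=
    IsFractionRing.isFractionRing_of_isLocalization P.primeCompl A ℚ hle
  have hdom : IsDomain A := IsLocalization.isDomain_localization hle
  have hdvr : IsDiscreteValuationRing A :=
    IsLocalization.AtPrime.isDiscreteValuationRing_of_dedekind_domain ℤ hP0 A
  -- the residue field
  let e0 : (ℤ ⧸ P) ≃+* IsLocalRing.ResidueField A := IsLocalization.AtPrime.equivQuotMaximalIdeal P A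
  let e1 : (ℤ ⧸ P) ≃+* ZMod q := Int.quotientSpanNatEquivZMod q
  let e : ZMod q ≃+* IsLocalRing.ResidueField A := e1.symm.trans e0
  have hfin : Finite (IsLocalRing.ResidueField A) := Finite.of_equiv _ e.toEquiv
  have hcard : Nat.card (IsLocalRing.ResidueField A) = q := by
    rw [← Nat.card_congr e.toEquiv, Nat.card_zmod]
  have hunit : ∀ z : ℤ, ¬ (q : ℤ) ∣ z → IsUnit (algebraMap ℤ A z) := by
    intro z hz
    exact IsLocalization.map_units A (⟨z, fun h => hz ((hmemP z).mp h)⟩ : P.primeCompl)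
  have hirr : Irreducible (algebraMap ℤ A (q : ℤ)) := by
    rw [IsDiscreteValuationRing.irreducible_iff_uniformizer,
      ← IsLocalization.AtPrime.map_eq_maximalIdeal P A, Ideal.map_span, Set.image_singleton]
  have hc : ∀ z : ℤ, algebraMap ℤ A z = (z : A) := fun z => eq_intCast _ z
  refine ⟨A, inferInstance, hdom, hdvr, inferInstance, hfrac, hfin, hcard, ?_, ?_, ?_, ⟨e⟩⟩
  · rw [← hc]
    exact hirr
  · intro z hz
    rw [← hc]
    exact hunit z hz
  · intro b
    obtain ⟨⟨z, w⟩, hzw⟩ := IsLocalization.surj P.primeCompl b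
    refine ⟨z, w, fun h => w.2 ((hmemP _).mpr h), ?_⟩
    rw [← hc, ← hc]
    exact hzw

theorem loc_q (f : ℤ[X]) (hsq : Squarefree (f.map (Int.castRingHom ℚ)))
    (heven : Even f.natDegree) (h6 : 6 ≤ f.natDegree) :
    ∃ B : ℕ, 2 ≤ B ∧ ∀ (K Ω : Type) [Field K] [Field Ω] [Algebra ℚ K] [Algebra K Ω] [Algebra ℚ Ω]
      [IsScalarTower ℚ K Ω] [IsAlgClosed Ω] [Algebra.IsAlgebraic K Ω] (x y : K)
      (_ : Transcendental ℚ x) (d : ℤ) (_ : d ≠ 0) (_ : (d : K) * y ^ 2 = aeval x f)
      (s : SectionData ℚ K Ω) (a : algebraicClosure ℚ Ω)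
      (_ : aeval a (f.map (Int.castRingHom ℚ)) = 0)
      (_ : HasSets s (f.map (Int.castRingHom ℚ)) x a)
      (R : algebraicClosure ℚ Ω → univCover ℚ K Ω)
      (_ : ∀ θ : algebraicClosure ℚ Ω, aeval θ (f.map (Int.castRingHom ℚ)) = 0 → θ ≠ a →
        R θ ≠ 0 ∧ IsR x a θ (R θ))
      (Θ : Finset (algebraicClosure ℚ Ω))
      (_ : ∀ θ, θ ∈ Θ ↔ aeval θ (f.map (Int.castRingHom ℚ)) = 0 ∧ θ ≠ a)
      (q : ℕ) (_ : q.Prime) (_ : B < q) (V : ValuationSubring (algebraicClosure ℚ Ω))
      (_ : V.valuation (q : algebraicClosure ℚ Ω) < 1),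
      (Odd (padicValInt q d) →
        ∀ σ : algebraicClosure ℚ Ω ≃ₐ[ℚ] algebraicClosure ℚ Ω, (∀ z, z ∈ V ↔ σ z ∈ V) →
        ∀ θ ∈ Θ, σ θ = θ →
          s.act σ (R θ * ∏ θ' ∈ Θ, R θ') = R θ * ∏ θ' ∈ Θ, R θ') ∧
      (∀ b : algebraicClosure ℚ Ω, ∀ θ ∈ Θ, b ≠ 0 → b ^ 2 ∈ IntermediateField.adjoin ℚ {θ} →
        (∀ σ : algebraicClosure ℚ Ω ≃ₐ[ℚ] algebraicClosure ℚ Ω, σ θ = θ →
          (s.act σ (R θ * ∏ θ' ∈ Θ, R θ') = R θ * ∏ θ' ∈ Θ, R θ' ↔ σ b = b)) →
        ∃ i : ℤ, V.valuation (b ^ 2) =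
          V.valuation (q : algebraicClosure ℚ Ω) ^ (2 * i)) ∧
      (∃ φ : algebraicClosure ℚ Ω ≃ₐ[ℚ] algebraicClosure ℚ Ω, (∀ z, z ∈ V ↔ φ z ∈ V) ∧
        ∀ z, z ∈ V → V.valuation (φ z - z ^ q) < 1) ∧
      (∀ θ : algebraicClosure ℚ Ω, aeval θ (f.map (Int.castRingHom ℚ)) = 0 →
        V.valuation θ ≤ 1) ∧
      (∀ θ θ' : algebraicClosure ℚ Ω, aeval θ (f.map (Int.castRingHom ℚ)) = 0 →
        aeval θ' (f.map (Int.castRingHom ℚ)) = 0 → θ ≠ θ' → V.valuation (θ - θ') = 1) := by
  have hsepQ : (f.map (Int.castRingHom ℚ)).Separable :=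
    PerfectField.separable_iff_squarefree.mpr hsq
  obtain ⟨N, hN⟩ := exists_sep_bound f hsepQ
  have hf0 : f ≠ 0 := by
    intro h0
    rw [h0, natDegree_zero] at h6
    omega
  have hlead : f.leadingCoeff ≠ 0 := leadingCoeff_ne_zero.mpr hf0
  refine ⟨N + f.leadingCoeff.natAbs + 2, by omega, ?_⟩
  intro K Ω _ _ _ _ _ _ _ _ x y hx d hd hxy s a ha hS R hR Θ hΘ q hq hBq V hVq
  have hqf : Fact q.Prime := ⟨hq⟩
  have hpZ : Prime (q : ℤ) := Nat.prime_iff_prime_int.mp hq
  have hl : ¬ (q : ℤ) ∣ f.leadingCoeff := by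
    intro hdvd
    have h1 := Int.natAbs_dvd_natAbs.mpr hdvd
    rw [Int.natAbs_natCast] at h1
    have h2 := Nat.le_of_dvd (Int.natAbs_pos.mpr hlead) h1
    omega
  obtain ⟨A, _, _, _, _, _, hfin, hcard, hirr, hunit, hfr, ⟨e⟩⟩ := exists_A q hq
  have hinjA : Function.Injective (algebraMap A ℚ) := IsFractionRing.injective A ℚ
  have hcA : ∀ z : ℤ, algebraMap A ℚ (z : A) = (z : ℚ) := fun z => map_intCast _ z
  have hinjZ : Function.Injective (Int.castRingHom A) := by
    intro z w hzw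
    have h1 : ((z : A)) = (w : A) := hzw
    have h2 := congrArg (algebraMap A ℚ) h1
    rw [hcA, hcA] at h2
    exact_mod_cast h2
  have h2 : IsUnit (2 : A) := by
    have := hunit 2 (by
      intro h
      have h3 : q ∣ 2 := by exact_mod_cast h
      have h4 := Nat.le_of_dvd (by norm_num) h3
      omega)
    simpa using this
  -- integers
  have hVint : ∀ z : ℤ, V.valuation (z : algebraicClosure ℚ Ω) ≤ 1 := by
    intro z
    rw [ValuationSubring.valuation_le_one_iff]
    exact intCast_mem V z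
  have hVone : ∀ w : ℤ, ¬ (q : ℤ) ∣ w → V.valuation (w : algebraicClosure ℚ Ω) = 1 := by
    intro w hw
    have hco : IsCoprime (q : ℤ) w := (Prime.coprime_iff_not_dvd hpZ).mpr hw
    obtain ⟨u, v, huv⟩ := hco
    refine le_antisymm (hVint w) (not_lt.mp fun hlt => ?_)
    have h3 : V.valuation (((u * q + v * w : ℤ)) : algebraicClosure ℚ Ω) < 1 := by
      push_cast
      refine Valuation.map_add_lt _ ?_ ?_
      · rw [map_mul]
        calc V.valuation (u : algebraicClosure ℚ Ω) * V.valuation (q : algebraicClosure ℚ Ω)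
            ≤ 1 * V.valuation (q : algebraicClosure ℚ Ω) := by gcongr; exact hVint u
          _ < 1 := by rw [one_mul]; exact hVq
      · rw [map_mul]
        calc V.valuation (v : algebraicClosure ℚ Ω) * V.valuation (w : algebraicClosure ℚ Ω)
            ≤ 1 * V.valuation (w : algebraicClosure ℚ Ω) := by gcongr; exact hVint v
          _ < 1 := by rw [one_mul]; exact hlt
    rw [huv, Int.cast_one, map_one] at h3
    exact lt_irrefl _ h3
  have hcE : ∀ z : ℤ, algebraMap ℚ (algebraicClosure ℚ Ω) (z : ℚ) = (z : algebraicClosure ℚ Ω) :=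
    fun z => map_intCast _ z
  have hV : ∀ c : ℚ, algebraMap ℚ (algebraicClosure ℚ Ω) c ∈ V ↔
      ∃ b : A, algebraMap A ℚ b = c := by
    intro c
    constructor
    · intro hc
      have hden : ((c.den : ℤ) : ℚ) ≠ 0 := by
        have := c.den_nz
        exact_mod_cast this
      have hcd : c * ((c.den : ℤ) : ℚ) = ((c.num : ℤ) : ℚ) := by
        have := Rat.mul_den_eq_num c
        exact_mod_cast this
      by_cases hq1 : (q : ℤ) ∣ (c.den : ℤ)
      · exfalso
        have hnum : ¬ (q : ℤ) ∣ c.num := by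
          intro h3
          have h4 : q ∣ c.num.natAbs := Int.natCast_dvd.mp h3
          have h5 : q ∣ c.den := by exact_mod_cast hq1
          have h6 := Nat.dvd_gcd h4 h5
          rw [c.reduced] at h6
          exact hq.one_lt.ne' (Nat.dvd_one.mp h6)
        obtain ⟨m, hm⟩ := hq1
        have h7 := congrArg (algebraMap ℚ (algebraicClosure ℚ Ω)) hcd
        rw [map_mul, hcE, hcE] at h7
        have h8 := congrArg V.valuation h7
        rw [map_mul, hVone _ hnum, hm] at h8
        have h9 : V.valuation (algebraMap ℚ (algebraicClosure ℚ Ω) c) ≤ 1 :=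
          (V.valuation_le_one_iff _).mpr hc
        have h10 : V.valuation (((q : ℤ) * m : ℤ) : algebraicClosure ℚ Ω) < 1 := by
          push_cast
          rw [map_mul]
          calc V.valuation (q : algebraicClosure ℚ Ω) * V.valuation (m : algebraicClosure ℚ Ω)
              ≤ V.valuation (q : algebraicClosure ℚ Ω) * 1 := by gcongr; exact hVint m
            _ < 1 := by rw [mul_one]; exact hVq
        have h11 : V.valuation (algebraMap ℚ (algebraicClosure ℚ Ω) c) *
            V.valuation (((q : ℤ) * m : ℤ) : algebraicClosure ℚ Ω) < 1 := by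
          calc _ ≤ 1 * V.valuation (((q : ℤ) * m : ℤ) : algebraicClosure ℚ Ω) := by gcongr
            _ < 1 := by rw [one_mul]; exact h10
        rw [h8] at h11
        exact lt_irrefl _ h11
      · obtain ⟨w, hw⟩ := hunit _ hq1
        refine ⟨(c.num : A) * ((w⁻¹ : Aˣ) : A), ?_⟩
        have h3 : algebraMap A ℚ (w : A) * algebraMap A ℚ ((w⁻¹ : Aˣ) : A) = 1 := by
          rw [← map_mul, Units.mul_inv, map_one]
        rw [hw, hcA] at h3
        rw [map_mul, hcA, ← hcd, mul_assoc, h3, mul_one]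
    · rintro ⟨b, rfl⟩
      obtain ⟨z, w, hw, hb⟩ := hfr b
      have h3 := congrArg (fun c => algebraMap ℚ (algebraicClosure ℚ Ω) (algebraMap A ℚ c)) hb
      simp only [map_mul, map_intCast] at h3
      have h4 := congrArg V.valuation h3
      rw [map_mul, hVone w hw, mul_one] at h4
      rw [← ValuationSubring.valuation_le_one_iff, h4]
      exact hVint z
  -- the polynomial
  have hmap : (f.map (Int.castRingHom A)).map (algebraMap A ℚ) = f.map (Int.castRingHom ℚ) := by
    rw [Polynomial.map_map]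
    congr 1
    exact RingHom.ext_int _ _
  have hdegA : (f.map (Int.castRingHom A)).natDegree = f.natDegree :=
    natDegree_map_eq_of_injective hinjZ f
  have hleadA : IsUnit (f.map (Int.castRingHom A)).leadingCoeff := by
    rw [leadingCoeff_map_of_injective hinjZ]
    exact hunit _ hl
  have hsepA : ((f.map (Int.castRingHom A)).map (residue A)).Separable := by
    have h3 := (hN q hq (by omega)).map (f := (e : ZMod q →+* ResidueField A))
    rw [Polynomial.map_map] at h3 ⊢
    have h4 : (e : ZMod q →+* ResidueField A).comp (Int.castRingHom (ZMod q)) =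
        (residue A).comp (Int.castRingHom A) := RingHom.ext_int _ _
    rw [← h4]
    exact h3
  -- the twist
  obtain ⟨m, hm⟩ := padicValInt_dvd (p := q) (a := d)
  have hqm : ¬ (q : ℤ) ∣ m := by
    rintro ⟨m', hm'⟩
    have h3 : (q : ℤ) ^ (padicValInt q d + 1) ∣ d := by
      refine ⟨m', ?_⟩
      rw [pow_succ, mul_assoc, ← hm', ← hm]
    rw [padicValInt_dvd_iff] at h3
    rcases h3 with h3 | h3
    · exact hd h3
    · omega
  have hd2 : (d : ℚ) = algebraMap A ℚ ((m : A) * (((q : ℤ) : A)) ^ (padicValInt q d)) := by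
    rw [map_mul, map_pow, hcA, hcA]
    have h3 : (d : ℚ) = (((q : ℤ) ^ padicValInt q d * m : ℤ) : ℚ) := by rw [← hm]
    rw [h3]
    push_cast
    ring
  have hxy' : algebraMap ℚ K (algebraMap A ℚ ((m : A) * (((q : ℤ) : A)) ^ (padicValInt q d))) *
      y ^ 2 = aeval x ((f.map (Int.castRingHom A)).map (algebraMap A ℚ)) := by
    rw [← hd2, map_intCast, hxy, hmap, aeval_def, aeval_def, eval₂_map]
    congr 1
    exact RingHom.ext_int _ _
  have key := loc_pack h2 (f.map (Int.castRingHom A)) (by rw [hdegA]; exact heven)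
    (by rw [hdegA]; exact h6) hleadA hsepA ((q : ℤ) : A) hirr (m : A) (hunit m hqm)
    (padicValInt q d) x y hx hxy' V hV s a (by rw [hmap]; exact ha) (by rw [hmap]; exact hS) R
    (by rw [hmap]; exact hR) Θ (by rw [hmap]; exact hΘ)
  rw [hmap, hcard, hcA, hcE, Int.cast_natCast] at key
  exact key

end Pool.Agent.GFL
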