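import Mathlib
import Pool.Agent.GFL.LocQ
import Pool.Agent.GFL.Ext
import Pool.Agent.GFL.Frob
import Pool.Agent.GFL.CorA

/-!
GFL module CORE-LOCAL, CorE (MP_896029_ag): the two local consequences for `b`, `b ^ 2 = j δ`, over a number field `F` with
`j : F → algebraicClosure ℚ Ω`, `j F = ℚ(θ)`.

Proof.  `B` from `loc_q`.
First statement: `V` from `exists_ext j v`; `V (q) < 1` by `v_lt` (with `j q = q`); `loc_q` (2) gives `V (b ^ 2) = V (q) ^ (2 i)`; `v_even`.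
Second statement: `v` from `exists_v q hq ψ`, `V` from `exists_ext j v`; `V (q) < 1` (`ψ q = 0`); `φ` from `loc_q` (3).  `j θF = θ` for some
`θF` (`hj`), `V θ ≤ 1` (4), so `frob_cong` gives `V (φ θ - θ) < 1`; `φ θ` is a root, so `φ θ = θ` by (5).  By (1) `s.act φ T = T` (`T = R θ * ∏ R θ'`),
so `φ b = b` by `hbT`.  `φ` fixes `j F = ℚ(θ)`.  `w = b / j γ`: `w ^ 2 = j δ0`, `φ w = w`: `frob_sq` (`q ≠ 2` as `2 ≤ B < q`; `hψ` by `v_lt`).
-/

set_option linter.dupNamespace false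

namespace Pool.Agent.GFL

open Polynomial NumberField IsDedekindDomain Pool.Agent.Helper36 Pool.Agent.Helper19.Sec
  Pool.Agent.WMS Pool.Agent.SCT

attribute [-instance] DivisionRing.toRatAlgebra

theorem cor_local (f : ℤ[X]) (hsq : Squarefree (f.map (Int.castRingHom ℚ)))
    (heven : Even f.natDegree) (h6 : 6 ≤ f.natDegree) :
    ∃ B : ℕ, 2 ≤ B ∧ ∀ (K Ω : Type) [Field K] [Field Ω] [Algebra ℚ K] [Algebra K Ω] [Algebra ℚ Ω]
      [IsScalarTower ℚ K Ω] [IsAlgClosed Ω] [Algebra.IsAlgebraic K Ω] (x y : K)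
      (_ : Transcendental ℚ x) (d : ℤ) (_ : d ≠ 0) (_ : (d : K) * y ^ 2 = aeval x f)
      (s : SectionData ℚ K Ω) (a : algebraicClosure ℚ Ω)
      (_ : aeval a (f.map (Int.castRingHom ℚ)) = 0)
      (_ : HasSets s (f.map (Int.castRingHom ℚ)) x a)
      (R : algebraicClosure ℚ Ω → univCover ℚ K Ω)
      (_ : ∀ θ : algebraicClosure ℚ Ω, aeval θ (f.map (Int.castRingHom ℚ)) = 0 → θ ≠ a →
        R θ ≠ 0 ∧ IsR x a θ (R θ))
      (Θ : Finset (algebraicClosure ℚ Ω))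
      (_ : ∀ θ, θ ∈ Θ ↔ aeval θ (f.map (Int.castRingHom ℚ)) = 0 ∧ θ ≠ a)
      (F : Type) [Field F] [NumberField F] (j : F →+* algebraicClosure ℚ Ω)
      (θ : algebraicClosure ℚ Ω) (_ : θ ∈ Θ)
      (_ : Set.range j = (IntermediateField.adjoin ℚ {θ} : Set (algebraicClosure ℚ Ω)))
      (b : algebraicClosure ℚ Ω) (_ : b ≠ 0)
      (_ : ∀ σ : algebraicClosure ℚ Ω ≃ₐ[ℚ] algebraicClosure ℚ Ω, σ θ = θ →
        (s.act σ (R θ * ∏ θ' ∈ Θ, R θ') = R θ * ∏ θ' ∈ Θ, R θ' ↔ σ b = b))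
      (δ : F) (_ : j δ = b ^ 2),
      (∀ v : HeightOneSpectrum (𝓞 F), ∀ q : ℕ, q.Prime → B < q → (q : 𝓞 F) ∈ v.asIdeal →
        ∃ γ : F, v.valuation F δ = (v.valuation F γ) ^ 2) ∧
      (∀ (δ0 : 𝓞 F) (γ : F), γ ≠ 0 → δ = (δ0 : F) * γ ^ 2 → ∀ q : ℕ, q.Prime → B < q →
        Odd (padicValInt q d) → ∀ ψ : 𝓞 F →+* ZMod q, IsSquare (ψ δ0)) := by
  obtain ⟨B, hB2, hB⟩ := loc_q f hsq heven h6
  refine ⟨B, hB2, ?_⟩
  intro K Ω _ _ _ _ _ _ _ _ x y hx d hd hxy s a ha hS R hR Θ hΘ F _ _ j θ hθ hj b hb0 hbT δ hδ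
  have hb2 : b ^ 2 ∈ IntermediateField.adjoin ℚ {θ} := by
    have h1 : b ^ 2 ∈ Set.range j := ⟨δ, hδ⟩
    rw [hj] at h1
    exact h1
  have hδ0 : δ ≠ 0 := by
    rintro rfl
    rw [map_zero] at hδ
    exact hb0 ((pow_eq_zero_iff two_ne_zero).1 hδ.symm)
  constructor
  · intro v q hq hBq hqv
    obtain ⟨V, hV⟩ := exists_ext j v
    have hVq : V.valuation (q : algebraicClosure ℚ Ω) < 1 := by
      have h1 := v_lt j v V hV (q : 𝓞 F) hqv
      simpa using h1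
    obtain ⟨h1, h2, h3, h4, h5⟩ := hB K Ω x y hx d hd hxy s a ha hS R hR Θ hΘ q hq hBq V hVq
    obtain ⟨i, hi⟩ := h2 b θ hθ hb0 hb2 hbT
    exact v_even j v V hV δ hδ0 q hq.ne_zero i (by rw [hδ]; exact hi)
  · intro δ0 γ hγ hδγ q hq hBq hodd ψ
    obtain ⟨v, hv⟩ := exists_v q hq ψ
    obtain ⟨V, hV⟩ := exists_ext j v
    have hψq : ψ (q : 𝓞 F) = 0 := by rw [map_natCast, ZMod.natCast_self]
    have hVq : V.valuation (q : algebraicClosure ℚ Ω) < 1 := by
      have h1 := v_lt j v V hV (q : 𝓞 F) ((hv _).mp hψq)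
      simpa using h1
    obtain ⟨h1, h2, ⟨φ, hφV, hφ⟩, h4, h5⟩ :=
      hB K Ω x y hx d hd hxy s a ha hS R hR Θ hΘ q hq hBq V hVq
    have hroot : aeval θ (f.map (Int.castRingHom ℚ)) = 0 := ((hΘ θ).mp hθ).1
    have hθV : θ ∈ V := (V.valuation_le_one_iff θ).mp (h4 θ hroot)
    obtain ⟨θF, hθF⟩ : θ ∈ Set.range j := by
      rw [hj]
      exact IntermediateField.mem_adjoin_simple_self ℚ θ
    have hcong : V.valuation (φ θ - θ) < 1 := by
      have h6' := frob_cong j q hq ψ v hv V hV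
        (φ : algebraicClosure ℚ Ω →+* algebraicClosure ℚ Ω) hφ θF (by rw [hθF]; exact hθV)
      rw [hθF] at h6'
      exact h6'
    have hφθ : φ θ = θ := by
      by_contra hne
      have hr2 : aeval (φ θ) (f.map (Int.castRingHom ℚ)) = 0 := by
        rw [aeval_algHom_apply, hroot, map_zero]
      have h7 := h5 _ _ hr2 hroot hne
      rw [h7] at hcong
      exact lt_irrefl _ hcong
    have hT := h1 hodd φ hφV θ hθ hφθ
    have hφb : φ b = b := (hbT φ hφθ).mp hT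
    have hφa : ∀ z ∈ IntermediateField.adjoin ℚ {θ}, φ z = z := by
      intro z hz
      induction hz using IntermediateField.adjoin_induction with
      | mem z hz =>
        rw [Set.mem_singleton_iff] at hz
        rw [hz]
        exact hφθ
      | algebraMap z => exact φ.commutes z
      | add z w _ _ h8 h9 => rw [map_add, h8, h9]
      | inv z _ h8 => rw [map_inv₀, h8]
      | mul z w _ _ h8 h9 => rw [map_mul, h8, h9]
    have hφj : ∀ z : F, φ (j z) = j z := by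
      intro z
      apply hφa
      have h8 : j z ∈ Set.range j := ⟨z, rfl⟩
      rw [hj] at h8
      exact h8
    have hjγ : j γ ≠ 0 := by
      rw [Ne, map_eq_zero]
      exact hγ
    refine frob_sq j q hq (by omega) ψ V (fun z hz => v_lt j v V hV z ((hv z).mp hz))
      (φ : algebraicClosure ℚ Ω →+* algebraicClosure ℚ Ω) hφ δ0 (b / j γ) ?_ ?_
    · rw [div_pow, ← hδ, hδγ, map_mul, map_pow]
      field_simp
    · show φ (b / j γ) = b / j γ
      rw [map_div₀, hφb, hφj]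

end Pool.Agent.GFL
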