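import Mathlib
import Pool.Agent.Helper19.Sec.RK

/-!
GFL module DENF (MP_896029_ag): the fibre part of DEN.

Let `N = F(√δ)`, with elements `x + y √δ`. For `z ∈ 𝓞 N` the elements `p z = 2 x` and `s z = 2 δ y` of `F` are
integral, and for `ψ : 𝓞 F →+* ZMod q` and `u ^ 2 = ψ δ ≠ 0`, `2 ≠ 0`, the map
`z ↦ (ψ δ * ψ (p z) + u * ψ (s z)) / (2 ψ δ)` is a ring homomorphism `𝓞 N →+* ZMod q` which extends `ψ` and
maps `√δ` to `u`.
-/

set_option autoImplicit false

namespace Pool.Agent.GFL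

open NumberField Pool.Agent.Helper19.Sec

section quad

variable {F : Type} [Field F] [NumberField F]

/-- `F(√δ)` -/
abbrev NF (δ : 𝓞 F) : Type := QuadraticAlgebra F (δ : F) 0

private theorem nf_finite (δ : 𝓞 F) : Module.Finite ℚ (NF δ) := by
  have h1 : Module.Finite F (NF δ) := inferInstance
  have h2 : IsScalarTower ℚ F (NF δ) := inferInstance
  exact Module.Finite.trans F (NF δ)

variable {δ : 𝓞 F} [hfact : Fact (∀ r : F, r ^ 2 ≠ (δ : F) + 0 * r)]

instance nf_charZero : CharZero (NF δ) :=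
  charZero_of_injective_algebraMap (algebraMap F (NF δ)).injective

instance nf_numberField : NumberField (NF δ) := { to_finiteDimensional := nf_finite δ }

private theorem integral_re (z : NF δ) (hz : IsIntegral ℤ z) : IsIntegral ℤ (2 * z.re) := by
  have h1 : IsIntegral ℤ (star z) := hz.map (starRingEnd (NF δ)).toIntAlgHom
  have h2 := hz.add h1
  rw [← QuadraticAlgebra.algebraMap_trace_eq_add_star, QuadraticAlgebra.trace_def, zero_mul,
    add_zero] at h2
  exact (isIntegral_algebraMap_iff (algebraMap F (NF δ)).injective).1 h2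

/-- `√δ` -/
private def om (δ : 𝓞 F) : NF δ := ⟨0, 1⟩

private theorem om_sq : om δ * om δ = algebraMap F (NF δ) (δ : F) := by
  rw [om, QuadraticAlgebra.mk_mul_mk, QuadraticAlgebra.algebraMap_eq]
  ext <;> simp

private theorem om_int : IsIntegral ℤ (om δ) := by
  have h1 : IsIntegral ℤ (algebraMap F (NF δ) (δ : F)) :=
    (RingOfIntegers.isIntegral_coe δ).algebraMap
  refine IsIntegral.of_pow (n := 2) two_pos ?_
  rw [pow_two, om_sq]
  exact h1

private theorem integral_im (z : NF δ) (hz : IsIntegral ℤ z) :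
    IsIntegral ℤ (2 * (δ : F) * z.im) := by
  have h1 := integral_re (z * om δ) (hz.mul om_int)
  have h2 : (z * om δ).re = (δ : F) * z.im := by
    have : z = ⟨z.re, z.im⟩ := rfl
    rw [this, om, QuadraticAlgebra.mk_mul_mk]
    simp
  rw [h2, ← mul_assoc] at h1
  exact h1

/-- twice the rational part -/
private noncomputable def pp (z : 𝓞 (NF δ)) : 𝓞 F :=
  ⟨2 * (z : NF δ).re, integral_re _ (RingOfIntegers.isIntegral_coe z)⟩

/-- the irrational part times `2 δ` -/
private noncomputable def ss (z : 𝓞 (NF δ)) : 𝓞 F :=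
  ⟨2 * (δ : F) * (z : NF δ).im, integral_im _ (RingOfIntegers.isIntegral_coe z)⟩

private theorem pp_coe (z : 𝓞 (NF δ)) : algebraMap (𝓞 F) F (pp z) =
    2 * (algebraMap (𝓞 (NF δ)) (NF δ) z).re := rfl

private theorem ss_coe (z : 𝓞 (NF δ)) : algebraMap (𝓞 F) F (ss z) =
    2 * algebraMap (𝓞 F) F δ * (algebraMap (𝓞 (NF δ)) (NF δ) z).im := rfl

private theorem of_ext {z w : 𝓞 F} (h : algebraMap (𝓞 F) F z = algebraMap (𝓞 F) F w) : z = w :=
  FaithfulSMul.algebraMap_injective (𝓞 F) F h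

private theorem pp_add (z w : 𝓞 (NF δ)) : pp (z + w) = pp z + pp w := by
  apply of_ext
  rw [map_add, pp_coe, pp_coe, pp_coe, map_add, QuadraticAlgebra.re_add]
  ring

private theorem ss_add (z w : 𝓞 (NF δ)) : ss (z + w) = ss z + ss w := by
  apply of_ext
  rw [map_add, ss_coe, ss_coe, ss_coe, map_add, QuadraticAlgebra.im_add]
  ring

private theorem pp_mul (z w : 𝓞 (NF δ)) : 2 * δ * pp (z * w) = δ * pp z * pp w + ss z * ss w := by
  apply of_ext
  rw [map_mul, map_mul, map_add, map_mul, map_mul, map_mul, pp_coe, pp_coe, pp_coe, ss_coe, ss_coe,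
    map_mul, QuadraticAlgebra.re_mul, map_ofNat]
  ring

private theorem ss_mul (z w : 𝓞 (NF δ)) : 2 * ss (z * w) = pp z * ss w + pp w * ss z := by
  apply of_ext
  rw [map_mul, map_add, map_mul, map_mul, pp_coe, pp_coe, ss_coe, ss_coe, ss_coe,
    map_mul, QuadraticAlgebra.im_mul, map_ofNat]
  ring

/-- the extension of `ψ` with `√δ ↦ u` -/
private theorem exists_extension {q : ℕ} [Fact q.Prime] (ψ : 𝓞 F →+* ZMod q) (h2 : (2 : ZMod q) ≠ 0)
    (hδ : ψ δ ≠ 0) (u : ZMod q) (hu : u ^ 2 = ψ δ) :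
    ∃ Ψ : 𝓞 (NF δ) →+* ZMod q, ∀ z, Ψ z = (ψ δ * ψ (pp z) + u * ψ (ss z)) / (2 * ψ δ) := by
  have h0 : 2 * ψ δ ≠ 0 := mul_ne_zero h2 hδ
  have hψ2 : ψ 2 = 2 := map_ofNat ψ 2
  refine ⟨{ toFun := fun z => (ψ δ * ψ (pp z) + u * ψ (ss z)) / (2 * ψ δ)
            map_one' := ?_, map_mul' := ?_, map_zero' := ?_, map_add' := ?_ }, fun z => rfl⟩
  · have e1 : pp (1 : 𝓞 (NF δ)) = 2 := by
      apply of_ext
      rw [pp_coe, map_one, map_ofNat, QuadraticAlgebra.re_one, mul_one]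
    have e2 : ss (1 : 𝓞 (NF δ)) = 0 := by
      apply of_ext
      rw [ss_coe, map_one, map_zero, QuadraticAlgebra.im_one, mul_zero]
    rw [e1, e2, map_zero, mul_zero, add_zero, hψ2, mul_comm, div_self h0]
  · intro z w
    have e1 := congrArg ψ (pp_mul z w)
    have e2 := congrArg ψ (ss_mul z w)
    simp only [map_mul, map_add, hψ2] at e1 e2
    rw [div_mul_div_comm, div_eq_div_iff h0 (mul_ne_zero h0 h0)]
    linear_combination (2 * ψ δ * ψ δ) * e1 + (2 * ψ δ * ψ δ * u) * e2 - 2 * ψ δ * ψ (ss z) * ψ (ss w) * hu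
  · have e1 : pp (0 : 𝓞 (NF δ)) = 0 := by
      apply of_ext
      rw [pp_coe, map_zero, map_zero, QuadraticAlgebra.re_zero, mul_zero]
    have e2 : ss (0 : 𝓞 (NF δ)) = 0 := by
      apply of_ext
      rw [ss_coe, map_zero, map_zero, QuadraticAlgebra.im_zero, mul_zero]
    rw [e1, e2, map_zero, mul_zero, mul_zero, add_zero, zero_div]
  · intro z w
    rw [pp_add, ss_add, map_add, map_add, ← add_div]
    congr 1
    ring

private theorem pp_alg (c : 𝓞 F) : pp (algebraMap (𝓞 F) (𝓞 (NF δ)) c) = 2 * c := by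
  apply of_ext
  rw [pp_coe, map_mul, map_ofNat]
  rfl

private theorem ss_alg (c : 𝓞 F) : ss (algebraMap (𝓞 F) (𝓞 (NF δ)) c) = 0 := by
  apply of_ext
  rw [ss_coe, map_zero]
  exact mul_zero _

private noncomputable def om' : 𝓞 (NF δ) := ⟨om δ, om_int⟩

private theorem pp_om : pp (om' : 𝓞 (NF δ)) = 0 := by
  apply of_ext
  rw [pp_coe, map_zero]
  exact mul_zero _

private theorem ss_om : ss (om' : 𝓞 (NF δ)) = 2 * δ := by
  apply of_ext
  rw [ss_coe, map_mul, map_ofNat]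
  exact mul_one _

end quad

private theorem finite_hom (K : Type) [Field K] [NumberField K] (q : ℕ) (hq : q.Prime) :
    Finite (𝓞 K →+* ZMod q) := by
  have : Fact q.Prime := ⟨hq⟩
  obtain ⟨s, hs⟩ := (Module.Finite.fg_top : (⊤ : Submodule ℤ (𝓞 K)).FG)
  refine Finite.of_injective (fun Ψ : 𝓞 K →+* ZMod q => fun x : s => Ψ (x : 𝓞 K)) ?_
  intro Ψ Ψ' h
  have h1 : ∀ z ∈ Submodule.span ℤ (s : Set (𝓞 K)), Ψ z = Ψ' z := by
    intro z hz
    induction hz using Submodule.span_induction with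
    | mem x hx => exact congrFun h ⟨x, hx⟩
    | zero => rw [map_zero, map_zero]
    | add x y _ _ hx hy => rw [map_add, map_add, hx, hy]
    | smul a x _ hx => rw [zsmul_eq_mul, map_mul, map_mul, map_intCast, map_intCast, hx]
  rw [hs] at h1
  exact RingHom.ext fun z => h1 z trivial

theorem fib (F : Type) [Field F] [NumberField F] (δ : 𝓞 F) (hδ : ¬ IsSquare (δ : F)) :
    ∃ (N : Type) (_ : Field N) (_ : NumberField N) (B : ℕ), ∀ q : ℕ, q.Prime → B ≤ q →
      (∀ ψ : 𝓞 F →+* ZMod q, IsSquare (ψ δ)) → 2 * rK F q ≤ rK N q := by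
  classical
  have hfact : Fact (∀ r : F, r ^ 2 ≠ (δ : F) + 0 * r) := by
    refine ⟨fun r h => hδ ⟨r, ?_⟩⟩
    rw [zero_mul, add_zero] at h
    rw [← h, pow_two]
  have hδ0 : δ ≠ 0 := by
    rintro rfl
    exact hδ ⟨0, by simp⟩
  have hI : Ideal.span {δ} ≠ (⊥ : Ideal (𝓞 F)) := by
    rw [Ne, Ideal.span_singleton_eq_bot]
    exact hδ0
  have hm0 : Ideal.absNorm (Ideal.span {δ}) ≠ 0 := by
    rw [Ne, Ideal.absNorm_eq_zero_iff]
    exact hI
  obtain ⟨c, hc⟩ := Ideal.mem_span_singleton.1 (Ideal.absNorm_mem (Ideal.span {δ}))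
  refine ⟨NF δ, inferInstance, inferInstance, Ideal.absNorm (Ideal.span {δ}) + 3, ?_⟩
  intro q hq hB hsq
  have : Fact q.Prime := ⟨hq⟩
  have h2 : (2 : ZMod q) ≠ 0 := by
    intro h
    have h3 : ((2 : ℕ) : ZMod q) = 0 := by exact_mod_cast h
    rw [ZMod.natCast_eq_zero_iff] at h3
    have := Nat.le_of_dvd (by norm_num) h3
    omega
  have hψδ : ∀ ψ : 𝓞 F →+* ZMod q, ψ δ ≠ 0 := by
    intro ψ h
    have h3 := congrArg ψ hc
    rw [map_mul, h, zero_mul, map_natCast, ZMod.natCast_eq_zero_iff] at h3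
    have := Nat.le_of_dvd (Nat.pos_of_ne_zero hm0) h3
    omega
  choose u hu using hsq
  have hu2 : ∀ ψ : 𝓞 F →+* ZMod q, ∀ b : Bool, (if b then u ψ else - u ψ) ^ 2 = ψ δ := by
    intro ψ b
    rw [hu ψ]
    split_ifs <;> ring
  choose Ψ hΨ using fun p : (𝓞 F →+* ZMod q) × Bool =>
    exists_extension (δ := δ) p.1 h2 (hψδ p.1) _ (hu2 p.1 p.2)
  have hres : ∀ p c, Ψ p (algebraMap (𝓞 F) (𝓞 (NF δ)) c) = p.1 c := by
    intro p c
    rw [hΨ, pp_alg, ss_alg, map_zero, mul_zero, add_zero, map_mul, map_ofNat]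
    have h3 := mul_ne_zero h2 (hψδ p.1)
    rw [div_eq_iff h3]
    ring
  have hom : ∀ p, Ψ p om' = if p.2 then u p.1 else - u p.1 := by
    intro p
    rw [hΨ, pp_om, ss_om, map_zero, mul_zero, zero_add, map_mul, map_ofNat]
    have h3 := mul_ne_zero h2 (hψδ p.1)
    rw [div_eq_iff h3]
  have hinj : Function.Injective Ψ := by
    rintro ⟨ψ, b⟩ ⟨ψ', b'⟩ h
    have h3 : ψ = ψ' := by
      apply RingHom.ext
      intro c
      rw [← hres (ψ, b) c, ← hres (ψ', b') c, h]
    subst h3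
    have h4 := hom (ψ, b)
    rw [h, hom (ψ, b')] at h4
    have h5 : u ψ ≠ - u ψ := by
      intro h6
      have h7 : 2 * u ψ = 0 := by linear_combination h6
      rcases mul_eq_zero.1 h7 with h8 | h8
      · exact h2 h8
      · apply hψδ ψ
        rw [hu ψ, h8, mul_zero]
    cases b <;> cases b' <;> simp_all
  have hfin := finite_hom (NF δ) q hq
  have h9 := Nat.card_le_card_of_injective Ψ hinj
  rw [Nat.card_prod] at h9
  have h10 : Nat.card Bool = 2 := by simp
  rw [h10, mul_comm] at h9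
  exact h9

end Pool.Agent.GFL
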