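import Mathlib
import Pool.Agent.Helper19.Sec.RK
import Pool.Agent.Helper19.Sec.Zeta
import Pool.Agent.SCT.SqField
import Pool.Agent.GFL.DenF

/-!
GFL module DEN (MP_896029_ag): density of the primes `q` such that `δ` is a square modulo all primes of degree one above `q`.

Proof.  Let `n` be a bound of `rK F q` (`rK_le`), `N = F(√δ)`, a number field of degree `2` over `F`.  For every large prime `q` the number
`c q ∈ {0, 1}` (`1` iff `∀ ψ : 𝓞 F →+* ZMod q, IsSquare (ψ δ)`) satisfies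
`c q ≤ rK ℚ q - (1 / n) * rK F q + (1 / (2 n)) * rK N q`:
* `rK ℚ q = 1`, and `rK F q ≤ n`, so the right side is `≥ 0` always;
* if `c q = 1` and `q` is large then `2 * rK F q ≤ rK N q` (`fib`, module `DenF`).
Then sum over the primes with `rK_sum` for `ℚ`, `F`, `N` (as in `gen_sum`, Pool/Agent/SCY/PatD.lean): the coefficient of
`log (1 / (s - 1))` is `1 - 1 / n + 1 / (2 n) = 1 - 1 / (2 n)`.  `κ = 1 / (2 n)`.
-/

set_option autoImplicit false

namespace Pool.Agent.GFL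

open NumberField Finset Pool.Agent.Helper19.Sec

private lemma rK_rat (q : ℕ) : rK ℚ q = 1 := by
  unfold rK
  have e : (𝓞 ℚ →+* ZMod q) ≃ (ℤ →+* ZMod q) :=
    { toFun := fun φ => φ.comp Rat.ringOfIntegersEquiv.symm.toRingHom
      invFun := fun φ => φ.comp Rat.ringOfIntegersEquiv.toRingHom
      left_inv := fun φ => RingHom.ext fun x => by
        show φ (Rat.ringOfIntegersEquiv.symm (Rat.ringOfIntegersEquiv x)) = φ x
        rw [RingEquiv.symm_apply_apply]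
      right_inv := fun φ => RingHom.ext_int _ _ }
  have : Nonempty (ℤ →+* ZMod q) := ⟨Int.castRingHom _⟩
  rw [Nat.card_congr e]
  exact Nat.card_unique

private lemma sum_le_tsum' {β : Type*} {f : β → ℝ} (hf : Summable f) (S : Finset β)
    (h : ∀ b, 0 ≤ f b) : ∑ b ∈ S, f b ≤ ∑' b, f b :=
  hf.sum_le_tsum S (fun b _ => h b)

/-- as `gen_sum` of `Pool/Agent/SCY/PatD.lean`, with three fields -/
private lemma gen_sum (c : ℕ → ℝ) (K : Type) [Field K] [NumberField K]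
    (L' : Type) [Field L'] [NumberField L'] (L'' : Type) [Field L''] [NumberField L'']
    (a a' M : ℝ) (ha : 0 ≤ a) (ha' : 0 ≤ a') (hM0 : 0 ≤ M) (N : ℕ)
    (hc0 : ∀ q, 0 ≤ c q) (hcM : ∀ q, c q ≤ M)
    (hc : ∀ q : ℕ, q.Prime → N ≤ q →
      c q ≤ (rK K q : ℝ) - a * (rK L' q : ℝ) + a' * (rK L'' q : ℝ)) :
    ∃ C0 : ℝ, ∀ s : ℝ, 1 < s → s ≤ 2 → ∀ Y : ℕ,
      ∑ q ∈ (range (Y + 1)).filter Nat.Prime, c q * (q : ℝ) ^ (-s) ≤
        (1 - a + a') * Real.log (1 / (s - 1)) + C0 := by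
  classical
  obtain ⟨BK, hBK⟩ := rK_sum K
  obtain ⟨BL, hBL⟩ := rK_sum L'
  obtain ⟨BM, hBM⟩ := rK_sum L''
  let g : ℕ → ℝ := fun q => (rK K q : ℝ) - a * (rK L' q : ℝ) + a' * (rK L'' q : ℝ)
  let D : ℕ → ℝ := fun q => if q < N then M + |g q| else 0
  have hD0 : ∀ q, 0 ≤ D q := by
    intro q
    simp only [D]
    split_ifs
    · positivity
    · exact le_rfl
  have hcard : ∀ q : ℕ, q.Prime → c q ≤ g q + D q := by
    intro q hq
    by_cases hqN : q < N
    · have h1 := hcM q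
      simp only [D, if_pos hqN]
      have := neg_abs_le (g q)
      linarith
    · simp only [D, if_neg hqN, add_zero]
      exact hc q hq (not_lt.1 hqN)
  let T : Finset Nat.Primes := Finset.subtype Nat.Prime (range N)
  refine ⟨BK + a * BL + a' * BM + ∑ q ∈ T, D q, fun s hs hs2 Y => ?_⟩
  obtain ⟨sK, bK⟩ := hBK s hs hs2
  obtain ⟨sL, bL⟩ := hBL s hs hs2
  obtain ⟨sM, bM⟩ := hBM s hs hs2
  have hg : Summable (fun p : Nat.Primes => g p * ((p : ℕ) : ℝ) ^ (-s)) := by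
    have := (sK.sub (sL.mul_left a)).add (sM.mul_left a')
    refine this.congr fun p => ?_
    simp only [g]
    ring
  have hgs : ∑' p : Nat.Primes, g p * ((p : ℕ) : ℝ) ^ (-s) =
      (∑' p : Nat.Primes, (rK K p : ℝ) * ((p : ℕ) : ℝ) ^ (-s)) -
      a * (∑' p : Nat.Primes, (rK L' p : ℝ) * ((p : ℕ) : ℝ) ^ (-s)) +
      a' * (∑' p : Nat.Primes, (rK L'' p : ℝ) * ((p : ℕ) : ℝ) ^ (-s)) := by
    rw [← tsum_mul_left, ← tsum_mul_left, ← sK.tsum_sub (sL.mul_left a),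
      ← (sK.sub (sL.mul_left a)).tsum_add (sM.mul_left a')]
    refine tsum_congr fun p => ?_
    simp only [g]
    ring
  have hDz : ∀ p ∉ T, D p * ((p : ℕ) : ℝ) ^ (-s) = 0 := by
    intro p hp
    have h1 : ¬ (p : ℕ) < N := fun h => hp (Finset.mem_subtype.2 (Finset.mem_range.2 h))
    simp only [D, if_neg h1, zero_mul]
  have hDs : Summable (fun p : Nat.Primes => D p * ((p : ℕ) : ℝ) ^ (-s)) :=
    summable_of_ne_finset_zero hDz
  have hDt : ∑' p : Nat.Primes, D p * ((p : ℕ) : ℝ) ^ (-s) ≤ ∑ q ∈ T, D q := by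
    rw [tsum_eq_sum hDz]
    refine Finset.sum_le_sum fun p _ => ?_
    refine mul_le_of_le_one_right (hD0 _) ?_
    exact Real.rpow_le_one_of_one_le_of_nonpos (by exact_mod_cast p.2.one_lt.le) (by linarith)
  have hnn : ∀ q : ℕ, q.Prime → 0 ≤ g q + D q := fun q hq => (hc0 q).trans (hcard q hq)
  have h1 : ∑ q ∈ (range (Y + 1)).filter Nat.Prime, c q * (q : ℝ) ^ (-s) ≤
      ∑ q ∈ (range (Y + 1)).filter Nat.Prime, (g q + D q) * (q : ℝ) ^ (-s) := by
    refine Finset.sum_le_sum fun q hq => ?_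
    exact mul_le_mul_of_nonneg_right (hcard q (Finset.mem_filter.1 hq).2) (by positivity)
  have h2 : ∑ q ∈ (range (Y + 1)).filter Nat.Prime, (g q + D q) * (q : ℝ) ^ (-s) =
      ∑ p ∈ Finset.subtype Nat.Prime ((range (Y + 1)).filter Nat.Prime),
        (g (p : ℕ) + D (p : ℕ)) * ((p : ℕ) : ℝ) ^ (-s) := by
    rw [Finset.sum_subtype_of_mem (fun q : ℕ => (g q + D q) * (q : ℝ) ^ (-s))
      (fun q hq => (Finset.mem_filter.1 hq).2)]
  have hgD : Summable (fun p : Nat.Primes => (g p + D p) * ((p : ℕ) : ℝ) ^ (-s)) := by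
    refine (hg.add hDs).congr fun p => ?_
    ring
  have h3 : ∑ p ∈ Finset.subtype Nat.Prime ((range (Y + 1)).filter Nat.Prime),
        (g (p : ℕ) + D (p : ℕ)) * ((p : ℕ) : ℝ) ^ (-s) ≤
      ∑' p : Nat.Primes, (g p + D p) * ((p : ℕ) : ℝ) ^ (-s) :=
    sum_le_tsum' hgD _ fun p => mul_nonneg (hnn p p.2) (by positivity)
  have h4 : ∑' p : Nat.Primes, (g p + D p) * ((p : ℕ) : ℝ) ^ (-s) =
      ∑' p : Nat.Primes, g p * ((p : ℕ) : ℝ) ^ (-s) +
      ∑' p : Nat.Primes, D p * ((p : ℕ) : ℝ) ^ (-s) := by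
    rw [← hg.tsum_add hDs]
    exact tsum_congr fun p => by ring
  rw [abs_le] at bK bL bM
  have h5 : a * (Real.log (1 / (s - 1)) - BL) ≤
      a * (∑' p : Nat.Primes, (rK L' p : ℝ) * ((p : ℕ) : ℝ) ^ (-s)) :=
    mul_le_mul_of_nonneg_left (by linarith [bL.1]) ha
  have h5' : a' * (∑' p : Nat.Primes, (rK L'' p : ℝ) * ((p : ℕ) : ℝ) ^ (-s)) ≤
      a' * (Real.log (1 / (s - 1)) + BM) :=
    mul_le_mul_of_nonneg_left (by linarith [bM.2]) ha'
  have h6 : (1 - a + a') * Real.log (1 / (s - 1)) =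
      Real.log (1 / (s - 1)) - a * Real.log (1 / (s - 1)) + a' * Real.log (1 / (s - 1)) := by ring
  rw [mul_sub] at h5
  rw [mul_add] at h5'
  rw [h6]
  linarith [bK.2]

open Classical in
theorem den (F : Type) [Field F] [NumberField F] (δ : 𝓞 F) (hδ : ¬ IsSquare (δ : F)) :
    ∃ κ C0 : ℝ, 0 < κ ∧ κ ≤ 1 ∧ ∀ s : ℝ, 1 < s → s ≤ 2 → ∀ Y : ℕ,
      ∑ q ∈ (range (Y + 1)).filter (fun q => q.Prime ∧ ∀ ψ : 𝓞 F →+* ZMod q, IsSquare (ψ δ)),
        (q : ℝ) ^ (-s) ≤ (1 - κ) * Real.log (1 / (s - 1)) + C0 := by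
  obtain ⟨N, _, _, B, hB⟩ := fib F δ hδ
  obtain ⟨n, N3, hn, hL3⟩ := SCT.rK_le F
  have hn0 : (0 : ℝ) < n := by exact_mod_cast hn
  have hn1 : (1 : ℝ) ≤ n := by exact_mod_cast hn
  obtain ⟨C0, hC0⟩ := gen_sum
    (fun q => if ∀ ψ : 𝓞 F →+* ZMod q, IsSquare (ψ δ) then (1 : ℝ) else 0) ℚ F N
    (1 / n) (1 / (2 * n)) 1 (by positivity) (by positivity) zero_le_one (max N3 B)
    (fun q => by split_ifs <;> norm_num) (fun q => by split_ifs <;> norm_num)
    (fun q hq hqN => by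
      have h1 : rK F q ≤ n := hL3 q hq ((le_max_left _ _).trans hqN)
      have h2 : 1 / (n : ℝ) * (rK F q : ℝ) ≤ 1 := by
        rw [one_div, inv_mul_le_iff₀ hn0, mul_one]
        exact_mod_cast h1
      have h3 : (0 : ℝ) ≤ 1 / (2 * n) * (rK N q : ℝ) := by positivity
      rw [rK_rat q]
      split_ifs with h
      · have h4 : 2 * rK F q ≤ rK N q := hB q hq ((le_max_right _ _).trans hqN) h
        have h5 : (2 : ℝ) * rK F q ≤ rK N q := by exact_mod_cast h4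
        have h6 : 1 / (n : ℝ) * (rK F q : ℝ) ≤ 1 / (2 * n) * (rK N q : ℝ) := by
          have h7 : 1 / (2 * (n : ℝ)) * (2 * rK F q) ≤ 1 / (2 * n) * (rK N q : ℝ) :=
            mul_le_mul_of_nonneg_left h5 (by positivity)
          have h8 : 1 / (2 * (n : ℝ)) * (2 * rK F q) = 1 / (n : ℝ) * (rK F q : ℝ) := by
            field_simp
          linarith
        push_cast
        linarith
      · push_cast
        linarith)
  refine ⟨1 / (2 * n), C0, by positivity, ?_, fun s hs hs2 Y => ?_⟩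
  · rw [div_le_one (by positivity)]
    linarith
  · have h1 := hC0 s hs hs2 Y
    have h2 : ∑ q ∈ (range (Y + 1)).filter
        (fun q => q.Prime ∧ ∀ ψ : 𝓞 F →+* ZMod q, IsSquare (ψ δ)), (q : ℝ) ^ (-s) =
        ∑ q ∈ (range (Y + 1)).filter Nat.Prime,
          (if ∀ ψ : 𝓞 F →+* ZMod q, IsSquare (ψ δ) then (1 : ℝ) else 0) * (q : ℝ) ^ (-s) := by
      rw [← Finset.filter_filter, Finset.sum_filter]
      refine Finset.sum_congr rfl fun q _ => ?_
      split_ifs <;> simp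
    rw [h2]
    refine h1.trans (le_of_eq ?_)
    have h3 : (1 : ℝ) - 1 / n + 1 / (2 * n) = 1 - 1 / (2 * n) := by
      field_simp
      ring
    rw [h3]

end Pool.Agent.GFL
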