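import Mathlib
import Pool.Agent.Helper19.Sec.Main

/-!
GFL module KUM (MP_896029_ag): Kummer theory for the sign of the action on `T`.

Proof.  Let `H = {σ | σ θ = θ}`, the fixing subgroup of `F = k(θ)`.  `χ σ = ±1` with `fr.ρ σ T = χ σ T` is a homomorphism on `H`.  If
`χ = 1` on `H` take `b = 1`.  Otherwise `H' = ker χ` is open (it contains the fixing subgroup of a finite extension), hence closed;
let `χ σ₀ = -1`; by infinite Galois theory there is an element `c` fixed by `H'` with `σ₀ c ≠ c`, and `b = c - σ₀ c` has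
`σ b = χ σ * b` for `σ ∈ H`, so `b ^ 2` is fixed by `H` and lies in `F`.
-/

set_option autoImplicit false

namespace Pool.Agent.GFL

open Pool.Agent.Helper19.Sec

theorem kum {k E M : Type*} [Field k] [CharZero k] [Field E] [Field M] [Algebra k E]
    [IsAlgClosure k E] (fr : Frame k E M) (h2 : (2 : M) ≠ 0) (θ : E) (T : M) (hT0 : T ≠ 0)
    (hT : ∀ σ : E ≃ₐ[k] E, σ θ = θ → fr.ρ σ T = T ∨ fr.ρ σ T = -T) :
    ∃ b : E, b ≠ 0 ∧ b ^ 2 ∈ IntermediateField.adjoin k {θ} ∧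
      ∀ σ : E ≃ₐ[k] E, σ θ = θ → (fr.ρ σ T = T ↔ σ b = b) := by
  classical
  have hgal : IsGalois k E := IsAlgClosure.isGalois k E
  by_cases hall : ∀ σ : E ≃ₐ[k] E, σ θ = θ → fr.ρ σ T = T
  · refine ⟨1, one_ne_zero, ?_, fun σ hσ => ?_⟩
    · rw [one_pow]
      exact one_mem _
    · rw [map_one]
      exact ⟨fun _ => rfl, fun _ => hall σ hσ⟩
  push Not at hall
  obtain ⟨σ₀, hσ₀, hne⟩ := hall
  have hσ₀T : fr.ρ σ₀ T = -T := (hT σ₀ hσ₀).resolve_left hne
  have hmul : ∀ (σ τ : E ≃ₐ[k] E) (x : M), fr.ρ (σ * τ) x = fr.ρ σ (fr.ρ τ x) := by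
    intro σ τ x
    rw [map_mul]
    rfl
  have hone : ∀ x : M, fr.ρ 1 x = x := by
    intro x
    rw [map_one]
    rfl
  have hinv : ∀ (σ : E ≃ₐ[k] E) (x : M), fr.ρ σ⁻¹ (fr.ρ σ x) = x := by
    intro σ x
    rw [← hmul, inv_mul_cancel, hone]
  have hinvθ : ∀ σ : E ≃ₐ[k] E, σ θ = θ → σ⁻¹ θ = θ := by
    intro σ hσ
    calc σ⁻¹ θ = σ⁻¹ (σ θ) := by rw [hσ]
      _ = (σ⁻¹ * σ) θ := rfl
      _ = θ := by rw [inv_mul_cancel]; rfl
  let H' : Subgroup (E ≃ₐ[k] E) :=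
    { carrier := {σ | σ θ = θ ∧ fr.ρ σ T = T}
      one_mem' := ⟨rfl, hone T⟩
      mul_mem' := by
        rintro σ τ ⟨h1, h3⟩ ⟨h4, h5⟩
        refine ⟨?_, ?_⟩
        · show σ (τ θ) = θ
          rw [h4, h1]
        · rw [hmul, h5, h3]
      inv_mem' := by
        rintro σ ⟨h1, h3⟩
        refine ⟨hinvθ σ h1, ?_⟩
        have h4 := hinv σ T
        rw [h3] at h4
        exact h4 }
  have hmem : ∀ σ, σ ∈ H' ↔ σ θ = θ ∧ fr.ρ σ T = T := fun σ => Iff.rfl
  obtain ⟨F', hF', hF'T⟩ := fr.cont T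
  have hopen : IsOpen (H' : Set (E ≃ₐ[k] E)) := by
    have hθ : FiniteDimensional k (IntermediateField.adjoin k {θ}) :=
      IntermediateField.adjoin.finiteDimensional (Algebra.IsIntegral.isIntegral θ)
    have hle : (F' ⊔ IntermediateField.adjoin k {θ}).fixingSubgroup ≤ H' := by
      intro σ hσ
      rw [IntermediateField.mem_fixingSubgroup_iff] at hσ
      refine (hmem σ).2 ⟨hσ θ ?_, hF'T σ ?_⟩
      · exact (le_sup_right : IntermediateField.adjoin k {θ} ≤ F' ⊔ _)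
          (IntermediateField.mem_adjoin_simple_self k θ)
      · rw [IntermediateField.mem_fixingSubgroup_iff]
        intro x hx
        exact hσ x ((le_sup_left : F' ≤ F' ⊔ _) hx)
    exact Subgroup.isOpen_mono hle (IntermediateField.fixingSubgroup_isOpen _)
  have hclosed : IsClosed (H' : Set (E ≃ₐ[k] E)) := Subgroup.isClosed_of_isOpen _ hopen
  have hfix : (IntermediateField.fixedField H').fixingSubgroup = H' :=
    InfiniteGalois.fixingSubgroup_fixedField ⟨H', hclosed⟩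
  obtain ⟨c, hc, hσc⟩ : ∃ c ∈ IntermediateField.fixedField H', σ₀ c ≠ c := by
    by_contra hcon
    push Not at hcon
    have h1 : σ₀ ∈ (IntermediateField.fixedField H').fixingSubgroup :=
      (IntermediateField.mem_fixingSubgroup_iff _ _).2 hcon
    rw [hfix] at h1
    exact hne h1.2
  have hcH : ∀ σ ∈ H', σ c = c := (IntermediateField.mem_fixedField_iff _ _).1 hc
  -- the action on `b`
  have hpos : ∀ σ : E ≃ₐ[k] E, σ θ = θ → fr.ρ σ T = T → σ (c - σ₀ c) = c - σ₀ c := by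
    intro σ h1 h3
    have h4 : σ₀⁻¹ * σ * σ₀ ∈ H' := by
      refine (hmem _).2 ⟨?_, ?_⟩
      · show σ₀⁻¹ (σ (σ₀ θ)) = θ
        rw [hσ₀, h1, hinvθ σ₀ hσ₀]
      · rw [hmul, hmul, hσ₀T, map_neg, h3, ← hσ₀T, hinv]
    have h5 := hcH _ h4
    have h6 : σ (σ₀ c) = σ₀ c := by
      have h7 : σ₀ ((σ₀⁻¹ * σ * σ₀) c) = σ (σ₀ c) := by
        show (σ₀ * (σ₀⁻¹ * σ * σ₀)) c = (σ * σ₀) c
        congr 1
        group
      rw [← h7, h5]
    rw [map_sub, h6, hcH σ ((hmem σ).2 ⟨h1, h3⟩)]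
  have hneg : ∀ σ : E ≃ₐ[k] E, σ θ = θ → fr.ρ σ T = -T → σ (c - σ₀ c) = -(c - σ₀ c) := by
    intro σ h1 h3
    have h4 : σ * σ₀ ∈ H' := by
      refine (hmem _).2 ⟨?_, ?_⟩
      · show σ (σ₀ θ) = θ
        rw [hσ₀, h1]
      · rw [hmul, hσ₀T, map_neg, h3, neg_neg]
    have h5 : σ₀⁻¹ * σ ∈ H' := by
      refine (hmem _).2 ⟨?_, ?_⟩
      · show σ₀⁻¹ (σ θ) = θ
        rw [h1, hinvθ σ₀ hσ₀]
      · rw [hmul, h3, ← hσ₀T, hinv]
    have h6 : σ (σ₀ c) = c := hcH _ h4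
    have h7 : σ c = σ₀ c := by
      have h8 : σ₀ ((σ₀⁻¹ * σ) c) = σ c := by
        show (σ₀ * (σ₀⁻¹ * σ)) c = σ c
        congr 1
        group
      rw [← h8, hcH _ h5]
    rw [map_sub, h6, h7]
    ring
  have hb0 : c - σ₀ c ≠ 0 := sub_ne_zero.2 (Ne.symm hσc)
  refine ⟨c - σ₀ c, hb0, ?_, ?_⟩
  · rw [← InfiniteGalois.fixedField_fixingSubgroup (IntermediateField.adjoin k {θ}),
      IntermediateField.mem_fixedField_iff]
    intro σ hσ
    rw [IntermediateField.mem_fixingSubgroup_iff] at hσ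
    have h1 : σ θ = θ := hσ θ (IntermediateField.mem_adjoin_simple_self k θ)
    rw [map_pow]
    rcases hT σ h1 with h3 | h3
    · rw [hpos σ h1 h3]
    · rw [hneg σ h1 h3, neg_sq]
  · intro σ h1
    constructor
    · intro h3
      exact hpos σ h1 h3
    · intro h3
      rcases hT σ h1 with h4 | h4
      · exact h4
      · exfalso
        rw [hneg σ h1 h4] at h3
        have h5 : (2 : E) * (c - σ₀ c) = 0 := by linear_combination -h3
        have h6 : (2 : E) ≠ 0 := by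
          intro h7
          apply h2
          have h8 := congrArg fr.ι h7
          rw [map_ofNat, map_zero] at h8
          exact h8
        exact (mul_ne_zero h6 hb0) h5

end Pool.Agent.GFL
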