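import Mathlib

/-!
GFL module SEL (MP_896029_ag): finitely many square classes with even valuation outside a finite set
(helper43).

For an integer `δ ≠ 0` write `(δ) = J ^ 2 * D` with `D` a product of different prime ideals (those of odd
exponent). If all valuations outside `B` are even, `D` divides `(B!)`. Among the `δ` with the same `D` and the
same class of `J` choose one, `δ'`: then `x ^ 2 δ = u y ^ 2 δ'` with a unit `u`, and units modulo squares are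
finite in number.
-/

set_option autoImplicit false

namespace Pool.Agent.GFL

open NumberField IsDedekindDomain UniqueFactorizationMonoid nonZeroDivisors

private lemma sq_decomp {R : Type*} [CommRing R] [IsDedekindDomain R] [DecidableEq (Ideal R)]
    (I : Ideal R) (hI : I ≠ ⊥) :
    (∏ p ∈ (normalizedFactors I).toFinset, p ^ ((normalizedFactors I).count p / 2)) ^ 2 *
      (∏ p ∈ (normalizedFactors I).toFinset.filter
        (fun p => (normalizedFactors I).count p % 2 = 1), p) = I := by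
  conv_rhs => rw [← Ideal.prod_normalizedFactors_eq_self hI, Finset.prod_multiset_count]
  rw [← Finset.prod_pow, Finset.prod_filter, ← Finset.prod_mul_distrib]
  refine Finset.prod_congr rfl fun p _ => ?_
  split_ifs with h
  · rw [← pow_mul, ← pow_succ]
    congr 1
    omega
  · rw [mul_one, ← pow_mul]
    congr 1
    omega

private lemma exists_prime_mem {R : Type*} [CommRing R] (p : Ideal R) [hp : p.IsPrime] (N : ℕ) :
    N ≠ 0 → (N : R) ∈ p → ∃ q : ℕ, q.Prime ∧ (q : R) ∈ p := by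
  induction N using Nat.recOnMul with
  | zero => intro h; exact absurd rfl h
  | one => intro _ h; rw [Nat.cast_one] at h; exact absurd ((Ideal.eq_top_iff_one _).2 h) hp.ne_top
  | prime q hq => intro _ h; exact ⟨q, hq, h⟩
  | mul a b ha hb =>
    intro h0 h
    rw [Nat.cast_mul] at h
    rcases hp.mem_or_mem h with h | h
    · exact ha (left_ne_zero_of_mul h0) h
    · exact hb (right_ne_zero_of_mul h0) h

private lemma units_sq (F : Type*) [Field F] [NumberField F] :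
    ∃ U : Finset (𝓞 F)ˣ, ∀ u : (𝓞 F)ˣ, ∃ u₀ ∈ U, ∃ w : (𝓞 F)ˣ, u = u₀ * w ^ 2 := by
  classical
  let H : Subgroup (𝓞 F)ˣ := (powMonoidHom 2 : (𝓞 F)ˣ →* (𝓞 F)ˣ).range
  have : Group.FG (𝓞 F)ˣ := Group.fg_iff_monoid_fg.2 inferInstance
  have hfin : Finite ((𝓞 F)ˣ ⧸ H) := by
    apply CommGroup.finite_of_fg_isMulTorsion
    intro x
    obtain ⟨u, rfl⟩ := QuotientGroup.mk_surjective x
    rw [isOfFinOrder_iff_pow_eq_one]
    refine ⟨2, two_pos, ?_⟩
    rw [← QuotientGroup.mk_pow, QuotientGroup.eq_one_iff]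
    exact ⟨u, rfl⟩
  have := Fintype.ofFinite ((𝓞 F)ˣ ⧸ H)
  refine ⟨Finset.univ.image (fun x : (𝓞 F)ˣ ⧸ H => x.out), fun u => ?_⟩
  refine ⟨(QuotientGroup.mk u : (𝓞 F)ˣ ⧸ H).out, Finset.mem_image_of_mem _ (Finset.mem_univ _), ?_⟩
  have h1 : (QuotientGroup.mk (QuotientGroup.mk u : (𝓞 F)ˣ ⧸ H).out : (𝓞 F)ˣ ⧸ H) =
      QuotientGroup.mk u := QuotientGroup.out_eq' _
  rw [QuotientGroup.eq] at h1
  obtain ⟨w, hw⟩ := h1
  refine ⟨w, ?_⟩
  have h2 : w ^ 2 = (QuotientGroup.mk u : (𝓞 F)ˣ ⧸ H).out⁻¹ * u := hw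
  rw [h2, mul_inv_cancel_left]

/-- `(δ) = J ^ 2 * D` and `J` is in the class `κ` -/
private def Key {F : Type*} [Field F] [NumberField F] (D : Ideal (𝓞 F)) (κ : ClassGroup (𝓞 F))
    (δ : 𝓞 F) : Prop :=
  δ ≠ 0 ∧ ∃ J : (Ideal (𝓞 F))⁰, Ideal.span {δ} = (J : Ideal (𝓞 F)) ^ 2 * D ∧ ClassGroup.mk0 J = κ

private lemma key_eq {F : Type*} [Field F] [NumberField F] (D : Ideal (𝓞 F))
    (κ : ClassGroup (𝓞 F)) (δ δ' : 𝓞 F) (h : Key D κ δ) (h' : Key D κ δ') :
    ∃ (u : (𝓞 F)ˣ) (x y : 𝓞 F), x ≠ 0 ∧ y ≠ 0 ∧ x ^ 2 * δ = δ' * u * y ^ 2 := by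
  obtain ⟨-, J, hJ, hJκ⟩ := h
  obtain ⟨-, J', hJ', hJκ'⟩ := h'
  obtain ⟨x, y, hx, hy, hxy⟩ := ClassGroup.mk0_eq_mk0_iff.1 (hJκ.trans hJκ'.symm)
  have h1 : Ideal.span {y ^ 2 * δ'} = Ideal.span {x ^ 2 * δ} := by
    rw [← Ideal.span_singleton_mul_span_singleton, ← Ideal.span_singleton_mul_span_singleton,
      ← Ideal.span_singleton_pow, ← Ideal.span_singleton_pow, hJ, hJ', ← mul_assoc, ← mul_assoc,
      ← mul_pow, ← mul_pow, hxy]
  rw [Ideal.span_singleton_eq_span_singleton] at h1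
  obtain ⟨u, hu⟩ := h1
  refine ⟨u, x, y, hx, hy, ?_⟩
  rw [← hu]; ring

private lemma exists_key {F : Type*} [Field F] [NumberField F] (B : ℕ) (δ : 𝓞 F) (hδ : δ ≠ 0)
    (h : ∀ v : HeightOneSpectrum (𝓞 F), ∀ q : ℕ, q.Prime → B < q → (q : 𝓞 F) ∈ v.asIdeal →
        ∃ γ : F, v.valuation F (δ : F) = (v.valuation F γ) ^ 2) :
    ∃ D : Ideal (𝓞 F), D ∣ Ideal.span {((B.factorial : ℕ) : 𝓞 F)} ∧ ∃ κ, Key D κ δ := by
  classical
  have hI : Ideal.span {δ} ≠ ⊥ := by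
    rw [Ne, Ideal.span_singleton_eq_bot]; exact hδ
  set M := normalizedFactors (Ideal.span {δ}) with hM
  set J : Ideal (𝓞 F) := ∏ p ∈ M.toFinset, p ^ (M.count p / 2) with hJ
  set D : Ideal (𝓞 F) := ∏ p ∈ M.toFinset.filter (fun p => M.count p % 2 = 1), p with hD
  have hdec : J ^ 2 * D = Ideal.span {δ} := sq_decomp _ hI
  have hJ0 : J ≠ 0 := by
    rintro h0
    rw [h0] at hdec
    apply hI
    rw [← hdec]
    simp
  refine ⟨D, ?_, ClassGroup.mk0 ⟨J, mem_nonZeroDivisors_of_ne_zero hJ0⟩, hδ,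
    ⟨J, mem_nonZeroDivisors_of_ne_zero hJ0⟩, hdec.symm, rfl⟩
  apply Finset.prod_primes_dvd
  · intro p hp
    exact prime_of_normalized_factor p (Multiset.mem_toFinset.1 (Finset.mem_filter.1 hp).1)
  · intro p hp
    obtain ⟨hpM, hodd⟩ := Finset.mem_filter.1 hp
    have hpp : Prime p := prime_of_normalized_factor p (Multiset.mem_toFinset.1 hpM)
    have hp0 : p ≠ ⊥ := hpp.ne_zero
    have hprime : p.IsPrime := Ideal.isPrime_of_prime hpp
    obtain ⟨q, hq, hqp⟩ := exists_prime_mem p (Ideal.absNorm p)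
      (by rw [Ne, Ideal.absNorm_eq_zero_iff]; exact hp0) (Ideal.absNorm_mem p)
    rw [Ideal.dvd_span_singleton]
    by_cases hqB : q ≤ B
    · obtain ⟨r, hr⟩ := (hq.dvd_factorial.2 hqB)
      rw [hr, Nat.cast_mul]
      exact Ideal.mul_mem_right _ _ hqp
    · exfalso
      let v : HeightOneSpectrum (𝓞 F) := ⟨p, hprime, hp0⟩
      obtain ⟨γ, hγ⟩ := h v q hq (not_le.1 hqB) hqp
      have h1 : v.valuation F (δ : F) = WithZero.exp (-(M.count p : ℤ)) := by
        have h2 : v.valuation F (δ : F) = v.intValuation δ := v.valuation_of_algebraMap δ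
        rw [h2, v.intValuation_if_neg hδ, Ideal.count_associates_factors_eq hI hprime hp0]
      rw [h1] at hγ
      have hγ0 : v.valuation F γ ≠ 0 := by
        intro h0
        rw [h0] at hγ
        exact WithZero.exp_ne_zero (by rw [hγ]; simp)
      have h3 : v.valuation F γ = WithZero.exp (WithZero.log (v.valuation F γ)) :=
        (WithZero.exp_log hγ0).symm
      rw [h3, ← WithZero.exp_nsmul, WithZero.exp_inj] at hγ
      simp only [nsmul_eq_mul, Nat.cast_ofNat] at hγ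
      omega

theorem sel (F : Type*) [Field F] [NumberField F] (B : ℕ) :
    ∃ Δ : Finset (𝓞 F), (∀ δ ∈ Δ, δ ≠ 0) ∧ ∀ δ : F, δ ≠ 0 →
      (∀ v : HeightOneSpectrum (𝓞 F), ∀ q : ℕ, q.Prime → B < q → (q : 𝓞 F) ∈ v.asIdeal →
        ∃ γ : F, v.valuation F δ = (v.valuation F γ) ^ 2) →
      ∃ δ0 ∈ Δ, ∃ γ : F, γ ≠ 0 ∧ δ = (δ0 : F) * γ ^ 2 := by
  classical
  obtain ⟨U, hU⟩ := units_sq F
  have hn : Ideal.span {((B.factorial : ℕ) : 𝓞 F)} ≠ 0 := by
    rw [Ideal.zero_eq_bot, Ne, Ideal.span_singleton_eq_bot]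
    exact_mod_cast B.factorial_ne_zero
  let _ : Fintype {D : Ideal (𝓞 F) // D ∣ Ideal.span {((B.factorial : ℕ) : 𝓞 F)}} :=
    fintypeSubtypeDvd _ hn
  let f : {D : Ideal (𝓞 F) // D ∣ Ideal.span {((B.factorial : ℕ) : 𝓞 F)}} →
      ClassGroup (𝓞 F) → 𝓞 F := fun D κ => if h : ∃ δ, Key (D : Ideal (𝓞 F)) κ δ then h.choose else 1
  have hf0 : ∀ D κ, f D κ ≠ 0 := by
    intro D κ
    by_cases h : ∃ δ, Key (D : Ideal (𝓞 F)) κ δ
    · simp only [f, dif_pos h]; exact h.choose_spec.1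
    · simp only [f, dif_neg h]; exact one_ne_zero
  refine ⟨((Finset.univ ×ˢ Finset.univ) ×ˢ U).image (fun t => f t.1.1 t.1.2 * (t.2 : 𝓞 F)), ?_, ?_⟩
  · intro δ hδ
    obtain ⟨t, -, rfl⟩ := Finset.mem_image.1 hδ
    exact mul_ne_zero (hf0 _ _) t.2.ne_zero
  · intro δ hδ h
    obtain ⟨a, b, hb, rfl⟩ := IsFractionRing.div_surjective (A := 𝓞 F) δ
    have hb0 : b ≠ 0 := nonZeroDivisors.ne_zero hb
    have hbF : (algebraMap (𝓞 F) F b) ≠ 0 := by
      rwa [Ne, FaithfulSMul.algebraMap_eq_zero_iff]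
    have haF : (algebraMap (𝓞 F) F a) ≠ 0 := fun h0 => hδ (by rw [h0, zero_div])
    have ha0 : a ≠ 0 := by
      rintro rfl
      exact haF (map_zero _)
    obtain ⟨D, hD, κ, hK⟩ := exists_key B (a * b) (mul_ne_zero ha0 hb0) (by
      intro v q hq hqB hqv
      obtain ⟨γ, hγ⟩ := h v q hq hqB hqv
      refine ⟨γ * algebraMap (𝓞 F) F b, ?_⟩
      have h1 : ((a * b : 𝓞 F) : F) = (algebraMap (𝓞 F) F a / algebraMap (𝓞 F) F b) *
          (algebraMap (𝓞 F) F b) ^ 2 := by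
        change algebraMap (𝓞 F) F (a * b) = _
        rw [map_mul]
        field_simp
      rw [h1, map_mul, hγ, map_mul, map_pow, mul_pow])
    have hex : ∃ δ, Key D κ δ := ⟨_, hK⟩
    have hfK : Key D κ (f ⟨D, hD⟩ κ) := by
      simp only [f, dif_pos hex]; exact hex.choose_spec
    obtain ⟨u, x, y, hx, hy, hxy⟩ := key_eq D κ _ _ hK hfK
    obtain ⟨u₀, hu₀, w, rfl⟩ := hU u
    have hxF : (algebraMap (𝓞 F) F x) ≠ 0 := by
      rwa [Ne, FaithfulSMul.algebraMap_eq_zero_iff]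
    have hyF : (algebraMap (𝓞 F) F y) ≠ 0 := by
      rwa [Ne, FaithfulSMul.algebraMap_eq_zero_iff]
    have hwF : (algebraMap (𝓞 F) F w) ≠ 0 := by
      rw [Ne, FaithfulSMul.algebraMap_eq_zero_iff]
      exact w.ne_zero
    refine ⟨f ⟨D, hD⟩ κ * u₀, Finset.mem_image.2 ⟨((⟨D, hD⟩, κ), u₀), by simp [hu₀], rfl⟩,
      algebraMap (𝓞 F) F w * algebraMap (𝓞 F) F y /
        (algebraMap (𝓞 F) F x * algebraMap (𝓞 F) F b), ?_, ?_⟩
    · exact div_ne_zero (mul_ne_zero hwF hyF) (mul_ne_zero hxF hbF)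
    · have h2 := congrArg (algebraMap (𝓞 F) F) hxy
      simp only [map_mul, map_pow, Units.val_mul, Units.val_pow_eq_pow_val] at h2
      change _ = algebraMap (𝓞 F) F (f ⟨D, hD⟩ κ * u₀) * _
      rw [map_mul]
      field_simp
      linear_combination h2

end Pool.Agent.GFL
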