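import Mathlib
import Pool.Agent.GFL.Names
import Pool.Agent.GFL.Sel
import Pool.Agent.GFL.Den
import Pool.Agent.GFL.Cnt
import Pool.Agent.GFL.Kum
import Pool.Agent.GFL.AgrS
import Pool.Agent.GFL.ExR
import Pool.Agent.GFL.CorB
import Pool.Agent.GFL.CorD
import Pool.Agent.GFL.CorE

/-!
GFL module CORE (MP_896029_ag).
-/

set_option linter.dupNamespace false

namespace Pool.Agent.GFL

open Polynomial NumberField IsDedekindDomain IntermediateField Pool.Agent.Helper36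
  Pool.Agent.Helper19.Sec Pool.Agent.SCY Pool.Agent.WMS Finset

attribute [-instance] DivisionRing.toRatAlgebra

/-- the arithmetic witness over a number field `F` -/
def BadAt (F : Type) [Field F] [NumberField F] (B : ℕ) (d : ℤ) : Prop :=
  ∃ δ : F, δ ≠ 0 ∧ ¬ IsSquare δ ∧
    (∀ v : HeightOneSpectrum (𝓞 F), ∀ q : ℕ, q.Prime → B < q → (q : 𝓞 F) ∈ v.asIdeal →
      ∃ γ : F, v.valuation F δ = (v.valuation F γ) ^ 2) ∧
    (∀ (δ0 : 𝓞 F) (γ : F), γ ≠ 0 → δ = (δ0 : F) * γ ^ 2 → ∀ q : ℕ, q.Prime → B < q →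
      Odd (padicValInt q d) → ∀ ψ : 𝓞 F →+* ZMod q, IsSquare (ψ δ0))

open Classical in
theorem sparse_at (F : Type) [Field F] [NumberField F] (B : ℕ) : Sparse {d | BadAt F B d} := by
  obtain ⟨Δ, hΔ0, hΔ⟩ := sel F B
  have h1 : Sparse {d : ℤ | ∃ δ0 ∈ Δ.filter (fun δ0 : 𝓞 F => ¬ IsSquare (algebraMap (𝓞 F) F δ0)),
      d ∈ (fun δ0 : 𝓞 F => {d : ℤ | ∀ q : ℕ, q.Prime → B < q → Odd (padicValInt q d) →
        q ∈ {q : ℕ | ∀ ψ : 𝓞 F →+* ZMod q, IsSquare (ψ δ0)}}) δ0} := by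
    apply sparse_union
    intro δ0 hδ0
    obtain ⟨-, hns⟩ := Finset.mem_filter.mp hδ0
    obtain ⟨κ, C0, hκ, hκ1, hden⟩ := den F δ0 hns
    exact cnt _ B κ C0 hκ hκ1 hden
  refine sparse_mono h1 ?_
  rintro d ⟨δ, hδ0, hns, h2, h3⟩ hd
  obtain ⟨δ0, hδ0Δ, γ, hγ, hδ⟩ := hΔ δ hδ0 h2
  refine ⟨δ0, Finset.mem_filter.mpr ⟨hδ0Δ, ?_⟩, fun q hq hB hodd => h3 δ0 γ hγ hδ q hq hB hodd⟩
  rintro ⟨μ, hμ⟩
  exact hns ⟨μ * γ, by rw [hδ, show (δ0 : F) = μ * μ from hμ]; ring⟩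

private theorem prod_pm {E M : Type*} [Field M] (Θ : Finset E) (A B : E → M)
    (h : ∀ θ ∈ Θ, A θ = B θ ∨ A θ = - B θ) :
    ∏ θ ∈ Θ, A θ = ∏ θ ∈ Θ, B θ ∨ ∏ θ ∈ Θ, A θ = - ∏ θ ∈ Θ, B θ := by
  classical
  induction Θ using Finset.induction_on with
  | empty => simp
  | insert a s ha ih =>
    have h1 := ih (fun θ hθ => h θ (Finset.mem_insert_of_mem hθ))
    have h2 := h a (Finset.mem_insert_self a s)
    rw [Finset.prod_insert ha, Finset.prod_insert ha]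
    rcases h1 with h1 | h1 <;> rcases h2 with h2 | h2 <;> rw [h1, h2]
    · exact Or.inl rfl
    · exact Or.inr (by ring)
    · exact Or.inr (by ring)
    · exact Or.inl (by ring)

private theorem prod_perm {k E M : Type*} [Field k] [Field E] [Field M] [Algebra k E]
    (Θ : Finset E) (σ : E ≃ₐ[k] E) (hΘ : ∀ θ ∈ Θ, σ θ ∈ Θ) (B : E → M) :
    ∏ θ ∈ Θ, B (σ θ) = ∏ θ ∈ Θ, B θ := by
  classical
  have h1 : Θ.image σ = Θ := by
    apply Finset.eq_of_subset_of_card_le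
    · intro x hx
      obtain ⟨y, hy, rfl⟩ := Finset.mem_image.1 hx
      exact hΘ y hy
    · rw [Finset.card_image_of_injective Θ σ.injective]
  calc ∏ θ ∈ Θ, B (σ θ) = ∏ θ ∈ Θ.image σ, B θ :=
        (Finset.prod_image fun x _ y _ h => σ.injective h).symm
    _ = ∏ θ ∈ Θ, B θ := by rw [h1]

theorem sign_T {k E M : Type*} [Field k] [Field E] [Field M] [Algebra k E] (fr : Frame k E M)
    (Θ : Finset E) (R : E → M) (σ : E ≃ₐ[k] E) (hΘ : ∀ θ ∈ Θ, σ θ ∈ Θ)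
    (hR : ∀ θ ∈ Θ, fr.ρ σ (R θ) = R (σ θ) ∨ fr.ρ σ (R θ) = - R (σ θ)) (θ : E) (hθ : θ ∈ Θ)
    (hσ : σ θ = θ) :
    fr.ρ σ (R θ * ∏ θ' ∈ Θ, R θ') = R θ * ∏ θ' ∈ Θ, R θ' ∨
      fr.ρ σ (R θ * ∏ θ' ∈ Θ, R θ') = - (R θ * ∏ θ' ∈ Θ, R θ') := by
  have h1 : fr.ρ σ (∏ θ' ∈ Θ, R θ') = ∏ θ' ∈ Θ, R θ' ∨
      fr.ρ σ (∏ θ' ∈ Θ, R θ') = - ∏ θ' ∈ Θ, R θ' := by
    rw [map_prod, ← prod_perm Θ σ hΘ R]
    exact prod_pm Θ _ _ hR
  have h2 := hR θ hθ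
  rw [hσ] at h2
  rw [map_mul]
  rcases h1 with h1 | h1 <;> rcases h2 with h2 | h2 <;> rw [h1, h2]
  · exact Or.inl rfl
  · exact Or.inr (by ring)
  · exact Or.inr (by ring)
  · exact Or.inl (by ring)

/-- the number field `ℚ(θ)` -/
theorem nf (θ : AlgebraicClosure ℚ) : NumberField ℚ⟮θ⟯ := by
  have h1 : FiniteDimensional ℚ ℚ⟮θ⟯ :=
    adjoin.finiteDimensional (Algebra.IsAlgebraic.isAlgebraic θ).isIntegral
  exact @NumberField.mk _ _ inferInstance (by convert h1)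

/-- `BadAt` over `ℚ(θ)` -/
def BadRoot (B : ℕ) (θ : AlgebraicClosure ℚ) (d : ℤ) : Prop :=
  @BadAt ℚ⟮θ⟯ _ (nf θ) B d

theorem sparse_root (B : ℕ) (θ : AlgebraicClosure ℚ) : Sparse {d | BadRoot B θ d} :=
  @sparse_at ℚ⟮θ⟯ _ (nf θ) B

theorem fix_adjoin {E : Type*} [Field E] [Algebra ℚ E] (σ : E ≃ₐ[ℚ] E) (θ : E) (hσ : σ θ = θ)
    (z : E) (hz : z ∈ IntermediateField.adjoin ℚ {θ}) : σ z = z := by
  induction hz using IntermediateField.adjoin_induction with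
  | mem x hx => rw [Set.mem_singleton_iff.mp hx]; exact hσ
  | algebraMap x => exact σ.commutes x
  | add x y _ _ hx hy => rw [map_add, hx, hy]
  | inv x _ hx => rw [map_inv₀, hx]
  | mul x y _ _ hx hy => rw [map_mul, hx, hy]

theorem aeval_mapInt {E : Type*} [Field E] [Algebra ℚ E] (x : E) (f : ℤ[X]) :
    aeval x (f.map (Int.castRingHom ℚ)) = aeval x f := by
  rw [← algebraMap_int_eq, aeval_map_algebraMap]

theorem bad_root (f : ℤ[X]) (hsq : Squarefree (f.map (Int.castRingHom ℚ)))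
    (heven : Even f.natDegree) (h6 : 6 ≤ f.natDegree) (a : ℚ) (ha : aeval a f = 0) (B : ℕ)
    (K Ω : Type) [Field K] [Field Ω] [Algebra ℚ K] [Algebra K Ω] [Algebra ℚ Ω]
    [IsScalarTower ℚ K Ω] [IsAlgClosure K Ω] [IsAlgClosed Ω] [Algebra.IsAlgebraic K Ω] (x y : K)
    (hx : Transcendental ℚ x) (d : ℤ) (hd : d ≠ 0) (hxy : (d : K) * y ^ 2 = aeval x f)
    (s : PiOneSection ℚ K Ω)
    (hno : ¬ FollowsPoint (f.map (Int.castRingHom ℚ)) x y s Set.univ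
      (algebraMap ℚ (ConstClosure ℚ Ω) a))
    (hloc : ∀ (R : algebraicClosure ℚ Ω → univCover ℚ K Ω)
      (_ : ∀ θ : algebraicClosure ℚ Ω, aeval θ (f.map (Int.castRingHom ℚ)) = 0 →
        θ ≠ algebraMap ℚ _ a → R θ ≠ 0 ∧ IsR x (algebraMap ℚ (algebraicClosure ℚ Ω) a) θ (R θ))
      (Θ : Finset (algebraicClosure ℚ Ω))
      (_ : ∀ θ, θ ∈ Θ ↔ aeval θ (f.map (Int.castRingHom ℚ)) = 0 ∧ θ ≠ algebraMap ℚ _ a)
      (F : Type) [Field F] [NumberField F] (j : F →+* algebraicClosure ℚ Ω)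
      (θ : algebraicClosure ℚ Ω) (_ : θ ∈ Θ)
      (_ : Set.range j = (IntermediateField.adjoin ℚ {θ} : Set (algebraicClosure ℚ Ω)))
      (b : algebraicClosure ℚ Ω) (_ : b ≠ 0)
      (_ : ∀ σ : algebraicClosure ℚ Ω ≃ₐ[ℚ] algebraicClosure ℚ Ω, σ θ = θ →
        (s.toData.act σ (R θ * ∏ θ' ∈ Θ, R θ') = R θ * ∏ θ' ∈ Θ, R θ' ↔ σ b = b))
      (δ : F) (_ : j δ = b ^ 2),
      (∀ v : HeightOneSpectrum (𝓞 F), ∀ q : ℕ, q.Prime → B < q → (q : 𝓞 F) ∈ v.asIdeal →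
        ∃ γ : F, v.valuation F δ = (v.valuation F γ) ^ 2) ∧
      (∀ (δ0 : 𝓞 F) (γ : F), γ ≠ 0 → δ = (δ0 : F) * γ ^ 2 → ∀ q : ℕ, q.Prime → B < q →
        Odd (padicValInt q d) → ∀ ψ : 𝓞 F →+* ZMod q, IsSquare (ψ δ0))) :
    ∃ θ0 : AlgebraicClosure ℚ, aeval θ0 (f.map (Int.castRingHom ℚ)) = 0 ∧ BadRoot B θ0 d := by
  classical
  set fQ : ℚ[X] := f.map (Int.castRingHom ℚ) with hfQ
  have hsep : fQ.Separable := PerfectField.separable_iff_squarefree.mpr hsq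
  have hfQ0 : fQ ≠ 0 := hsq.ne_zero
  have haQ : aeval (algebraMap ℚ (algebraicClosure ℚ Ω) a) fQ = 0 := by
    rw [aeval_algebraMap_apply]
    have h1 : aeval a fQ = 0 := by
      rw [hfQ, aeval_mapInt]
      exact ha
    rw [h1, map_zero]
  have hxyQ : algebraMap ℚ K (d : ℚ) * y ^ 2 = aeval x fQ := by
    rw [hfQ, aeval_mapInt, map_intCast]
    exact hxy
  have hdQ : (d : ℚ) ≠ 0 := by exact_mod_cast hd
  obtain ⟨R, hR⟩ := exists_Rg (Ω := Ω) fQ hsep (d : ℚ) hdQ x y hx hxyQ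
    (algebraMap ℚ (algebraicClosure ℚ Ω) a) haQ
  set fE : (algebraicClosure ℚ Ω)[X] := fQ.map (algebraMap ℚ (algebraicClosure ℚ Ω)) with hfE
  have hfE0 : fE ≠ 0 := Polynomial.map_ne_zero hfQ0
  set Θ : Finset (algebraicClosure ℚ Ω) :=
    fE.roots.toFinset.filter (fun θ => θ ≠ algebraMap ℚ (algebraicClosure ℚ Ω) a) with hΘdef
  have hΘ : ∀ θ, θ ∈ Θ ↔ aeval θ fQ = 0 ∧ θ ≠ algebraMap ℚ _ a := by
    intro θ
    rw [hΘdef, Finset.mem_filter, Multiset.mem_toFinset, mem_roots hfE0, IsRoot.def, hfE,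
      eval_map_algebraMap]
  obtain ⟨σ0, θ, hθ, hσ0, hmove⟩ := exists_move f hsq heven h6 x y hx d hd hxy s a ha hno R hR Θ hΘ
  have hE : IsAlgClosure ℚ (algebraicClosure ℚ Ω) := inferInstance
  have hsgn := fun (σ : algebraicClosure ℚ Ω ≃ₐ[ℚ] algebraicClosure ℚ Ω) (θ' : algebraicClosure ℚ Ω)
    (h : θ' ∈ Θ) => sign_R fQ x s.toData a R hR σ θ' ((hΘ θ').mp h).1 ((hΘ θ').mp h).2
  set T : univCover ℚ K Ω := R θ * ∏ θ' ∈ Θ, R θ' with hT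
  have hT0 : T ≠ 0 := by
    apply mul_ne_zero (hR θ ((hΘ θ).mp hθ).1 ((hΘ θ).mp hθ).2).1
    exact Finset.prod_ne_zero_iff.mpr fun θ' h => (hR θ' ((hΘ θ').mp h).1 ((hΘ θ').mp h).2).1
  have hTs : ∀ σ : algebraicClosure ℚ Ω ≃ₐ[ℚ] algebraicClosure ℚ Ω, σ θ = θ →
      (frameOf s.toData).ρ σ T = T ∨ (frameOf s.toData).ρ σ T = -T := by
    intro σ hσ
    exact sign_T (frameOf s.toData) Θ R σ (fun θ' h => (hΘ _).mpr (hsgn σ θ' h).1)
      (fun θ' h => (hsgn σ θ' h).2) θ hθ hσ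
  have hK0 : CharZero K := algebraRat.charZero K
  have hM0 : CharZero (univCover ℚ K Ω) :=
    charZero_of_injective_algebraMap (algebraMap K (univCover ℚ K Ω)).injective
  obtain ⟨b, hb0, hb2, hb⟩ := kum (frameOf s.toData) (two_ne_zero) θ T hT0 hTs
  -- the number field
  let ι : AlgebraicClosure ℚ ≃ₐ[ℚ] algebraicClosure ℚ Ω :=
    IsAlgClosure.equiv ℚ (AlgebraicClosure ℚ) (algebraicClosure ℚ Ω)
  set θ0 : AlgebraicClosure ℚ := ι.symm θ with hθ0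
  have hιθ : ι θ0 = θ := ι.apply_symm_apply θ
  have hnf := nf θ0
  let j : ℚ⟮θ0⟯ →+* algebraicClosure ℚ Ω :=
    (ι : AlgebraicClosure ℚ →+* algebraicClosure ℚ Ω).comp (algebraMap ℚ⟮θ0⟯ (AlgebraicClosure ℚ))
  have hj : Set.range j = (IntermediateField.adjoin ℚ {θ} : Set (algebraicClosure ℚ Ω)) := by
    have h1 : (ℚ⟮θ0⟯).map (ι : AlgebraicClosure ℚ →ₐ[ℚ] algebraicClosure ℚ Ω) =
        IntermediateField.adjoin ℚ {θ} := by
      rw [IntermediateField.adjoin_map, Set.image_singleton]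
      congr 2
    rw [← h1]
    ext z
    constructor
    · rintro ⟨w, rfl⟩
      exact ⟨w, w.2, rfl⟩
    · rintro ⟨w, hw, rfl⟩
      exact ⟨⟨w, hw⟩, rfl⟩
  have hb2' : b ^ 2 ∈ Set.range j := by
    rw [hj]
    exact hb2
  obtain ⟨δ, hδ⟩ := hb2'
  obtain ⟨h1, h2⟩ := hloc R hR Θ hΘ ℚ⟮θ0⟯ j θ hθ hj b hb0 hb δ hδ
  refine ⟨θ0, ?_, δ, ?_, ?_, h1, h2⟩
  · have h3 := ((hΘ θ).mp hθ).1
    have h4 : aeval (ι θ0) fQ = ι (aeval θ0 fQ) :=
      aeval_algHom_apply (ι : AlgebraicClosure ℚ →ₐ[ℚ] algebraicClosure ℚ Ω) θ0 fQ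
    rw [hιθ, h3] at h4
    exact (map_eq_zero_iff ι ι.injective).mp h4.symm
  · rintro rfl
    rw [map_zero] at hδ
    exact hb0 (pow_eq_zero_iff (two_ne_zero) |>.mp hδ.symm)
  · rintro ⟨μ, hμ⟩
    have h3 : b ^ 2 = (j μ) ^ 2 := by rw [← hδ, hμ, map_mul, sq]
    have h4 : σ0 (j μ) = j μ := by
      have h5 : j μ ∈ (IntermediateField.adjoin ℚ {θ} : Set (algebraicClosure ℚ Ω)) := by
        rw [← hj]
        exact ⟨μ, rfl⟩
      exact fix_adjoin σ0 θ hσ0 _ h5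
    have h6 : σ0 b = b := by
      rcases sq_eq_sq_iff_eq_or_eq_neg.mp h3 with h | h
      · rw [h, h4]
      · rw [h, map_neg, h4]
    exact hmove ((hb σ0 hσ0).mpr h6)

open Classical in
theorem core (f : ℤ[X]) (hsq : Squarefree (f.map (Int.castRingHom ℚ)))
    (heven : Even f.natDegree) (h6 : 6 ≤ f.natDegree)
    (h4 : 4 ≤ Multiset.card ((UniqueFactorizationMonoid.normalizedFactors
      (f.map (Int.castRingHom ℚ))).filter (fun g => Odd g.natDegree)))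
    (a : ℚ) (ha : aeval a f = 0) : Sparse {d | BadPlace f a d} := by
  obtain ⟨B, hB2, hloc⟩ := cor_local f hsq heven h6
  set fQ : ℚ[X] := f.map (Int.castRingHom ℚ) with hfQ
  have hfQ0 : fQ ≠ 0 := hsq.ne_zero
  have hmap0 : fQ.map (algebraMap ℚ (AlgebraicClosure ℚ)) ≠ 0 := Polynomial.map_ne_zero hfQ0
  have h1 : Sparse {d : ℤ | ∃ θ ∈ (fQ.map (algebraMap ℚ (AlgebraicClosure ℚ))).roots.toFinset,
      d ∈ (fun θ : AlgebraicClosure ℚ => {d : ℤ | BadRoot B θ d}) θ} :=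
    sparse_union _ _ fun θ _ => sparse_root B θ
  refine sparse_mono h1 ?_
  rintro d ⟨K, Ω, i1, i2, i3, i4, i5, i6, i7, x, y, hx, hxy, s, hag, hno⟩ hd
  have hclosed : IsAlgClosed Ω := IsAlgClosure.isAlgClosed K
  have halg : Algebra.IsAlgebraic K Ω := IsAlgClosure.isAlgebraic
  have haQ : aeval (algebraMap ℚ (algebraicClosure ℚ Ω) a) fQ = 0 := by
    rw [aeval_algebraMap_apply]
    have h1 : aeval a fQ = 0 := by
      rw [hfQ, aeval_mapInt]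
      exact ha
    rw [h1, map_zero]
  have hHS : HasSets s.toData fQ x (algebraMap ℚ (algebraicClosure ℚ Ω) a) := by
    have h0 := sets_of_agrees f hsq h4 s x hx a ha hag
    rw [eq_ratCast] at h0 ⊢
    exact h0
  obtain ⟨θ0, hθ0, hbad⟩ := bad_root f hsq heven h6 a ha B K Ω x y hx d hd hxy s hno
    (fun R hR Θ hΘ F _ _ j θ hθ hj b hb0 hb δ hδ =>
      hloc K Ω x y hx d hd hxy s.toData _ haQ hHS R hR Θ hΘ F j θ hθ hj b hb0 hb δ hδ)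
  refine ⟨θ0, ?_, hbad⟩
  rw [Multiset.mem_toFinset, mem_roots hmap0, IsRoot.def, eval_map_algebraMap]
  exact hθ0

end Pool.Agent.GFL
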