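import Mathlib
import Pool.Agent.GFL.Names
import Pool.Agent.GFL.CorD
import Pool.Agent.GFL.Core
import Pool.Agent.SCY.Fin2

/-!
GFL module FIN (MP_896029_ag): the final statement, from `final2` (SCY/Fin2), `core` and `sparse_union`.

Proof.  If `m < 4` the last clause of `Explains` is void: `final2`.  If `4 ≤ m`: the set in the theorem is contained in the union of the set of
`final2` and of the sets `{d | BadPlace f a d}`, `a` a rational root of `f` (a finite set, `f ≠ 0`): if `d` is in none of these, `K, Ω, ..., s`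
are given and `L` is the set of `final2`, and if `L = {a}` then `a` is a root and `AgreesOn f s x {a}`, so `FollowsPoint`.  `d = 0` is not in
the set (`f(x) ≠ 0` as `x` is transcendental).  Both bounds are of the form `C N / (log N) ^ κ`; `final2`'s set for `Sparse`: it is a
`Nat.card` of a subtype, `C` may be replaced by `max C 0`.
-/

set_option linter.dupNamespace false

namespace Pool.Agent.GFL

open Polynomial Pool.Agent.Helper36 Pool.Agent.SCY Pool.Agent.WMS

/-- the set of `final2` -/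
private def Bad2 (f : ℤ[X]) (m : ℕ) (d : ℤ) : Prop :=
  ∃ (K Ω : Type) (_ : Field K) (_ : Field Ω) (_ : Algebra ℚ K) (_ : Algebra K Ω)
    (_ : Algebra ℚ Ω) (_ : IsScalarTower ℚ K Ω) (_ : IsAlgClosure K Ω) (x y : K),
    Transcendental ℚ x ∧ (d : K) * y ^ 2 = aeval x f ∧ ∃ s : PiOneSection ℚ K Ω,
    ¬ ∃ L : Finset ℚ, L.Nonempty ∧ (L.card ≤ 2 ∨ (L.card = 4 ∧ m = 4)) ∧
      (∀ a ∈ L, aeval a f = 0) ∧ EqualModSquares f L ∧ AgreesOn f s x L

private theorem fin_ne {f : ℤ[X]} (hf : f.map (Int.castRingHom ℚ) ≠ 0) {m : ℕ} {d : ℤ}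
    (h : HasUnexplained f m d) : d ≠ 0 := by
  obtain ⟨K, Ω, i1, i2, i3, i4, i5, i6, i7, x, y, hx, hxy, s, hs⟩ := h
  rintro rfl
  have h1 : aeval x f = 0 := by rw [← hxy]; simp
  have h2 : aeval x (f.map (Int.castRingHom ℚ)) = 0 := by
    have : (Int.castRingHom ℚ) = algebraMap ℤ ℚ := rfl
    rw [this, aeval_map_algebraMap, h1]
  exact hx ⟨_, hf, h2⟩

private theorem fin_cases (f : ℤ[X]) {m : ℕ} {d : ℤ} (h : HasUnexplained f m d) :
    Bad2 f m d ∨ (4 ≤ m ∧ ∃ a : ℚ, aeval a f = 0 ∧ BadPlace f a d) := by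
  obtain ⟨K, Ω, i1, i2, i3, i4, i5, i6, i7, x, y, hx, hxy, s, hs⟩ := h
  by_cases hb : ∃ L : Finset ℚ, L.Nonempty ∧ (L.card ≤ 2 ∨ (L.card = 4 ∧ m = 4)) ∧
      (∀ a ∈ L, aeval a f = 0) ∧ EqualModSquares f L ∧ AgreesOn f s x L
  · right
    obtain ⟨L, h1, h2, h3, h4, h5⟩ := hb
    have h6 : ¬ (4 ≤ m → ∀ a : ℚ, L = {a} →
      FollowsPoint (f.map (Int.castRingHom ℚ)) x y s Set.univ
        (algebraMap ℚ (ConstClosure ℚ Ω) a)) := fun h7 => hs ⟨L, h1, h2, h3, h4, h5, h7⟩
    push Not at h6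
    obtain ⟨hm, a, rfl, ha⟩ := h6
    exact ⟨hm, a, h3 a (Finset.mem_singleton_self a),
      K, Ω, i1, i2, i3, i4, i5, i6, i7, x, y, hx, hxy, s, h5, ha⟩
  · left
    exact ⟨K, Ω, i1, i2, i3, i4, i5, i6, i7, x, y, hx, hxy, s, hb⟩

open Classical in
theorem final3 (f : ℤ[X]) (hsq : Squarefree (f.map (Int.castRingHom ℚ)))
    (heven : Even f.natDegree) (h6 : 6 ≤ f.natDegree) (m : ℕ)
    (hm : m = Multiset.card ((UniqueFactorizationMonoid.normalizedFactors
      (f.map (Int.castRingHom ℚ))).filter (fun g => Odd g.natDegree)))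
    (h : m ≠ 2 ∨ (∃ σ : AlgebraicClosure ℚ ≃ₐ[ℚ] AlgebraicClosure ℚ,
        ∀ x : AlgebraicClosure ℚ, aeval x f = 0 → σ x ≠ x) ∨
      (f.natDegree = 6 ∧ ∀ x : ℚ, aeval x f ≠ 0)) :
    ∃ C δ : ℝ, 0 < δ ∧ ∀ N : ℕ, 2 ≤ N →
      (Nat.card {d : ℤ // |d| ≤ N ∧ HasUnexplained f m d} : ℝ) ≤ C * N / (Real.log N) ^ δ := by
  have hf0 : f.map (Int.castRingHom ℚ) ≠ 0 := hsq.ne_zero
  have hfin : ∀ (N : ℕ) (P : ℤ → Prop), {d : ℤ | |d| ≤ N ∧ P d}.Finite := by
    intro N P
    refine (Set.finite_Icc (-(N : ℤ)) N).subset ?_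
    rintro d ⟨hd, -⟩
    exact abs_le.mp hd
  -- the set of `final2`
  have s2 : Sparse {d | Bad2 f m d} := by
    obtain ⟨C, δ, hδ, hC⟩ := final2 f hsq heven h6 m hm h
    refine ⟨max C 0, δ, le_max_right _ _, hδ, fun N hN => ?_⟩
    have h1 := hC N hN
    have hlog : 0 < Real.log N := Real.log_pos (by exact_mod_cast hN)
    have h2 : C * N / (Real.log N) ^ δ ≤ max C 0 * N / (Real.log N) ^ δ := by
      apply div_le_div_of_nonneg_right _ (Real.rpow_nonneg hlog.le δ)
      exact mul_le_mul_of_nonneg_right (le_max_left _ _) (Nat.cast_nonneg N)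
    refine le_trans ?_ (h1.trans h2)
    refine Nat.cast_le.mpr ?_
    refine Set.ncard_le_ncard ?_ (hfin N (fun d => Bad2 f m d))
    rintro d ⟨-, hd, hb⟩
    exact ⟨hd, hb⟩
  -- all sets
  have s3 : Sparse {d | HasUnexplained f m d} := by
    rcases lt_or_ge m 4 with hm4 | hm4
    · refine sparse_mono s2 fun d hd _ => ?_
      rcases fin_cases f hd with h1 | ⟨h1, -⟩
      · exact h1
      · omega
    · have h4 := hm4
      rw [hm] at h4
      let R : Finset ℚ := (f.map (Int.castRingHom ℚ)).roots.toFinset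
      have hR : ∀ a : ℚ, aeval a f = 0 → a ∈ R := by
        intro a ha
        have h1 : aeval a (f.map (Int.castRingHom ℚ)) = 0 := by
          have : (Int.castRingHom ℚ) = algebraMap ℤ ℚ := rfl
          rw [this, aeval_map_algebraMap, ha]
        simp only [R, Multiset.mem_toFinset, mem_roots hf0, IsRoot.def]
        simpa using h1
      have hR' : ∀ a ∈ R, aeval a f = 0 := by
        intro a ha
        simp only [R, Multiset.mem_toFinset, mem_roots hf0, IsRoot.def] at ha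
        rw [eval_map] at ha
        exact ha
      have s4 : Sparse {d | ∃ i ∈ (Finset.univ : Finset Bool),
          d ∈ (fun i : Bool => if i then {d | Bad2 f m d}
            else {d | ∃ a ∈ R, d ∈ (fun a : ℚ => {d | BadPlace f a d}) a}) i} := by
        apply sparse_union
        intro i _
        cases i
        · simp only [Bool.false_eq_true, if_false]
          exact sparse_union R _ fun a ha => core f hsq heven h6 h4 a (hR' a ha)
        · simpa using s2
      refine sparse_mono s4 fun d hd _ => ?_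
      rcases fin_cases f hd with h1 | ⟨-, a, h1, h2⟩
      · exact ⟨true, Finset.mem_univ _, by simpa using h1⟩
      · exact ⟨false, Finset.mem_univ _, by simpa using ⟨a, hR a h1, h2⟩⟩
  obtain ⟨C, κ, -, hκ, hC⟩ := s3
  refine ⟨C, κ, hκ, fun N hN => le_trans ?_ (hC N hN)⟩
  refine Nat.cast_le.mpr ?_
  change Set.ncard {d : ℤ | |d| ≤ N ∧ HasUnexplained f m d} ≤ _
  refine Set.ncard_le_ncard ?_ ?_
  · rintro d ⟨hd, hb⟩
    exact ⟨fin_ne hf0 hb, hd, hb⟩
  · refine (Set.finite_Icc (-(N : ℤ)) N).subset ?_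
    rintro d ⟨-, hd, -⟩
    exact abs_le.mp hd

end Pool.Agent.GFL
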