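import Mathlib
import Pool.Agent.WMS.Setup
import Pool.Agent.WMS.LocalV
import Pool.Agent.WMS.LocalF
import Pool.Agent.SCT.Cls
import Pool.Agent.SCT.EvnT
import Pool.Agent.GFL.Shap

/-!
GFL module LOC, first part (MP_896029_ag): `HasSets` and `loc_ram` (helper26): the elements `T θ = R θ * ∏ R θ'` at a valuation
ring `V` with good reduction at which the twist is ramified.

`loc_ram`: start as in `main` (WMS/Main): `exists_localV`, `roots_facts`, `exists_conf` give `φ, τ`, a root `θ₀`, `R₀`, `η` and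
`hneg`.  `θ₀ = a`: otherwise `HS θ₀` gives `S, r, c` with `θ₀ ∈ S`; `even_ram_tau` (SCT/EvnT): `s.act τ r = - r`; but `c ^ 2` is the
inverse of a product of elements `a - θ'` of valuation one, so `V c = 1`, `τ (c ^ 2) = c ^ 2` (`τ` fixes all roots), `τ c = c`
(`hl.fix_root 1`, as in `exists_R`), so `s.act τ r = r`, contradiction (`r ≠ 0`, characteristic zero).  Then `extend_D` (as `hD` in
`main`) gives the common sign for `R₀` and every `σ` in the decomposition group; `R₀ θ = ± R θ` (same square, `IsR`), and `loc_fix`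
with `fr = frameOf s`.
-/

set_option autoImplicit false

namespace Pool.Agent.GFL

open Polynomial Pool.Agent.Helper36 Pool.Agent.Helper19.Sec Pool.Agent.WMS Pool.Agent.SCT
  IsLocalRing

/-- for every root `θ ≠ a` there is an even set `S` of roots containing `θ` but not `a` such that
`∏ (x - θ') / (a - θ')`, `θ' ∈ S`, is the square of an element fixed by the section -/
def HasSets {k K Ω : Type*} [Field k] [Field K] [Field Ω] [Algebra k K] [Algebra K Ω]
    [Algebra k Ω] [IsScalarTower k K Ω] [CharZero k] [Algebra.IsAlgebraic K Ω] [IsAlgClosed Ω]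
    (s : SectionData k K Ω) (f : k[X]) (x : K) (a : algebraicClosure k Ω) : Prop :=
  ∀ θ : algebraicClosure k Ω, aeval θ f = 0 → θ ≠ a →
    ∃ (S : Finset (algebraicClosure k Ω)) (r : univCover k K Ω) (c : algebraicClosure k Ω),
      θ ∈ S ∧ a ∉ S ∧ Even S.card ∧ (∀ θ' ∈ S, aeval θ' f = 0) ∧
      r ^ 2 = ∏ θ' ∈ S, (algebraMap K (univCover k K Ω) x - incl k K Ω θ') ∧
      c ^ 2 * ∏ θ' ∈ S, (a - θ') = 1 ∧
      ∀ σ : algebraicClosure k Ω ≃ₐ[k] algebraicClosure k Ω,
        s.act σ (incl k K Ω c * r) = incl k K Ω c * r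

section

variable {A k K Ω : Type*} [CommRing A] [IsDomain A] [IsDiscreteValuationRing A]
    [Finite (ResidueField A)] [Field k] [CharZero k] [Algebra A k]
    [IsFractionRing A k] [Field K] [Field Ω] [Algebra k K] [Algebra K Ω] [Algebra k Ω]
    [IsScalarTower k K Ω] [IsAlgClosed Ω] [Algebra.IsAlgebraic K Ω]

theorem loc_ram (h2 : IsUnit (2 : A)) (f : A[X]) (heven : Even f.natDegree)
    (h6 : 6 ≤ f.natDegree) (hlead : IsUnit f.leadingCoeff)
    (hsep : (f.map (residue A)).Separable)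
    (ϖ : A) (hϖ : Irreducible ϖ) (u : A) (hu : IsUnit u) (n : ℕ) (hn : Odd n) (x y : K)
    (hx : Transcendental k x)
    (hxy : algebraMap k K (algebraMap A k (u * ϖ ^ n)) * y ^ 2 =
      aeval x (f.map (algebraMap A k)))
    (V : ValuationSubring (algebraicClosure k Ω))
    (hV : ∀ a : k, algebraMap k (algebraicClosure k Ω) a ∈ V ↔ ∃ b : A, algebraMap A k b = a)
    (s : SectionData k K Ω) (a : algebraicClosure k Ω)
    (ha : aeval a (f.map (algebraMap A k)) = 0)
    (hS : HasSets s (f.map (algebraMap A k)) x a)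
    (R : algebraicClosure k Ω → univCover k K Ω)
    (hR : ∀ θ : algebraicClosure k Ω, aeval θ (f.map (algebraMap A k)) = 0 → θ ≠ a →
      R θ ≠ 0 ∧ IsR x a θ (R θ))
    (Θ : Finset (algebraicClosure k Ω))
    (hΘ : ∀ θ, θ ∈ Θ ↔ aeval θ (f.map (algebraMap A k)) = 0 ∧ θ ≠ a)
    (σ : algebraicClosure k Ω ≃ₐ[k] algebraicClosure k Ω) (hσ : ∀ z, z ∈ V ↔ σ z ∈ V)
    (θ : algebraicClosure k Ω) (hθ : θ ∈ Θ) (hσθ : σ θ = θ) :
    s.act σ (R θ * ∏ θ' ∈ Θ, R θ') = R θ * ∏ θ' ∈ Θ, R θ' := by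
  classical
  set fk : k[X] := f.map (algebraMap A k) with hfk
  have hinjk : Function.Injective (algebraMap A k) := IsFractionRing.injective A k
  have hdegk : fk.natDegree = f.natDegree := natDegree_map_eq_of_injective hinjk f
  obtain ⟨t, ht⟩ := IsAlgClosed.exists_pow_nat_eq
    (algebraMap k (algebraicClosure k Ω) (algebraMap A k ϖ)) (n := 2) (by norm_num)
  obtain ⟨φ, τ, hl, hτt⟩ := exists_localV h2 ϖ hϖ t ht V hV
  obtain ⟨hsepk, hint, hsepv⟩ := roots_facts V hV f hlead hsep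
  have hc : algebraMap A k (u * ϖ ^ n) ≠ 0 := by
    rw [Ne, map_eq_zero_iff _ hinjk]
    exact mul_ne_zero hu.ne_zero (pow_ne_zero _ hϖ.ne_zero)
  obtain ⟨θ₀, R₀, η, hθ₀, hφθ₀, hη, hR₀, hneg⟩ := exists_conf s hl fk hsepk
    (by rw [hdegk]; exact heven)
    (by rw [hdegk]; exact h6) (algebraMap A k (u * ϖ ^ n)) hc x y hx hxy hint hsepv
    (fun w hw => tau_c V hV hl f hlead ϖ hϖ u hu n hn t ht hτt w hw)
  have hτroot : ∀ θ : algebraicClosure k Ω, aeval θ fk = 0 → τ θ = θ :=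
    tau_root hl fk hint hsepv
  set xM : univCover k K Ω := algebraMap K (univCover k K Ω) x with hxM
  have hxne : ∀ e, xM - incl k K Ω e ≠ 0 := fun e => xsub_ne x hx e
  -- the root is `a`
  have hθa : θ₀ = a := by
    by_contra hne
    obtain ⟨S, r, c, hθS, haS, hSe, hSr, hr2, hc2, hfix⟩ := hS θ₀ hθ₀ hne
    have h3 := (even_ram_tau s τ fk hsepk (algebraMap A k (u * ϖ ^ n)) hc x y hx hxy hτroot θ₀ hθ₀
      hneg S hSr hSe r hr2).1 hθS
    have hprod : V.valuation (∏ θ' ∈ S, (a - θ')) = 1 := by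
      rw [map_prod]
      refine Finset.prod_eq_one fun θ' hθ' => ?_
      exact hsepv a θ' ha (hSr θ' hθ') (fun h => haS (h ▸ hθ'))
    have hc0 : c ≠ 0 := by
      rintro rfl
      rw [zero_pow (by norm_num), zero_mul] at hc2
      exact zero_ne_one hc2
    have hvc : V.valuation c = 1 := by
      have h4 := congrArg V.valuation hc2
      rw [map_mul, hprod, mul_one, map_one, map_pow] at h4
      exact (pow_eq_one_iff_of_nonneg zero_le (by norm_num)).mp h4
    have hτc2 : τ (c ^ 2) = c ^ 2 := by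
      have h4 : τ (∏ θ' ∈ S, (a - θ')) = ∏ θ' ∈ S, (a - θ') := by
        rw [map_prod]
        refine Finset.prod_congr rfl fun θ' hθ' => ?_
        rw [map_sub, hτroot a ha, hτroot θ' (hSr θ' hθ')]
      have h5 := congrArg τ hc2
      rw [map_mul, h4, map_one, ← hc2] at h5
      have h6 : ∏ θ' ∈ S, (a - θ') ≠ 0 := by
        intro h0
        rw [h0, mul_zero] at hc2
        exact zero_ne_one hc2
      exact mul_right_cancel₀ h6 h5
    have hτc : τ c = c := by
      refine hl.fix_root 1 hvc ?_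
      show τ (c ^ 2 ^ 1) = c ^ 2 ^ 1
      rw [pow_one]
      exact hτc2
    have h4 := hfix τ
    rw [map_mul, act_incl, hτc, h3] at h4
    have hcι : incl k K Ω c ≠ 0 := by rwa [_root_.map_ne_zero]
    have h5 : -r = r := mul_left_cancel₀ hcι h4
    have h6 : (2 : univCover k K Ω) ≠ 0 := by
      have : incl k K Ω (algebraMap k (algebraicClosure k Ω) 2) ≠ 0 := by
        rw [_root_.map_ne_zero, _root_.map_ne_zero]
        exact two_ne_zero
      rwa [map_ofNat, map_ofNat] at this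
    have h7 : r = 0 := by
      have h8 : 2 * r = 0 := by linear_combination -h5
      exact (mul_eq_zero.1 h8).resolve_left h6
    rw [h7, zero_pow (by norm_num)] at hr2
    exact (Finset.prod_ne_zero_iff.2 fun θ' _ => hxne θ') hr2.symm
  subst hθa
  -- the decomposition group
  obtain ⟨hσ0, ζ, hζ, hRσ⟩ := extend_D (frameOf s) V hV ϖ hϖ t ht φ τ hl hτt f hlead hsep θ₀ hθ₀
    hφθ₀ ((xM - incl k K Ω θ₀)⁻¹) R₀ (fun θ h1 h2 => (hR₀ θ h1 h2).1) (by
        intro σ hσ
        show s.act σ ((xM - incl k K Ω θ₀)⁻¹) = (xM - incl k K Ω θ₀)⁻¹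
        have h7 : s.act σ xM = xM := act_alg s σ x
        rw [map_inv₀, map_sub, h7, act_incl, hσ])
      (fun θ h1 h2 => (hR₀ θ h1 h2).2.1) η hη (fun θ h1 h2 => (hR₀ θ h1 h2).2.2.1)
      (fun θ h1 h2 => (hR₀ θ h1 h2).2.2.2) σ hσ
  -- the number of roots
  have hf0 : fk ≠ 0 := by
    intro h0
    rw [h0, natDegree_zero] at hdegk
    omega
  set fE : (algebraicClosure k Ω)[X] := fk.map (algebraMap k (algebraicClosure k Ω)) with hfE
  have hfE0 : fE ≠ 0 := Polynomial.map_ne_zero hf0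
  have hsplits : fE.Splits := IsAlgClosed.splits fE
  have hnodup : fE.roots.Nodup := nodup_roots (hsepk.map)
  have hmemΘ : ∀ θ : (algebraicClosure k Ω), θ ∈ fE.roots.toFinset ↔ aeval θ fk = 0 := by
    intro θ
    rw [Multiset.mem_toFinset, mem_roots hfE0, IsRoot.def, hfE, eval_map_algebraMap]
  have hcard : fE.roots.toFinset.card = fk.natDegree := by
    rw [Multiset.toFinset_card_of_nodup hnodup, ← hsplits.natDegree_eq_card_roots, hfE,
      natDegree_map]
  have hΘe : Θ = fE.roots.toFinset.erase θ₀ := by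
    ext θ
    rw [hΘ, Finset.mem_erase, hmemΘ, and_comm]
  have hodd : Odd Θ.card := by
    rw [hΘe, Finset.card_erase_of_mem ((hmemΘ θ₀).mpr hθ₀), hcard, hdegk]
    obtain ⟨m, hm⟩ := heven
    exact ⟨m - 1, by omega⟩
  have hΘσ : ∀ θ ∈ Θ, σ θ ∈ Θ := by
    intro θ hθ
    rw [hΘ] at hθ ⊢
    refine ⟨by rw [aeval_algHom_apply, hθ.1, map_zero], ?_⟩
    intro h
    exact hθ.2 (σ.injective (h.trans hσ0.symm))
  have hRV : ∀ θ ∈ Θ, R₀ θ = R θ ∨ R₀ θ = - R θ := by
    intro θ hθ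
    obtain ⟨h3, h4⟩ := (hΘ θ).1 hθ
    have h5 : IsR x θ₀ θ (R₀ θ) := (hR₀ θ h3 h4).2.1
    have h6 : IsR x θ₀ θ (R θ) := (hR θ h3 h4).2
    unfold IsR at h5 h6
    exact sq_eq_sq_iff_eq_or_eq_neg.mp (h5.trans h6.symm)
  exact loc_fix (frameOf s) Θ hodd R R₀ hRV σ hΘσ ζ hζ
    (fun θ hθ => hRσ θ ((hΘ θ).1 hθ).1 ((hΘ θ).1 hθ).2) θ hθ hσθ

end

end Pool.Agent.GFL
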